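import Mathlib
import Pool.Agent.H789R2.FR.Sph
set_option autoImplicit false

/-! Orthogonal complex structures on Euclidean space. -/

namespace Pool.Agent.Y251.HR

open MeasureTheory Set Complex
open scoped ENNReal RealInnerProductSpace
open Pool.Agent.H789R2.FR (E sg sg_finite sg_ae sg_inv)

variable {n : ℕ}

/-- multiplication by a complex number -/
noncomputable def cm (J : E n →ₗᵢ[ℝ] E n) (z : ℂ) (x : E n) : E n := z.re • x + z.im • J x

/-- the complex coordinate of `w` in the direction `ζ` -/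
noncomputable def co (J : E n →ₗᵢ[ℝ] E n) (ζ w : E n) : ℂ :=
  ((⟪ζ, w⟫ : ℝ) : ℂ) + ((⟪J ζ, w⟫ : ℝ) : ℂ) * I

variable {J : E n →ₗᵢ[ℝ] E n} (hJ : ∀ x, J (J x) = -x)

include hJ

theorem inner_J (x y : E n) : (⟪J x, y⟫ : ℝ) = -⟪x, J y⟫ := by
  have h1 := J.inner_map_map (J x) y
  rw [hJ] at h1
  rw [← h1, inner_neg_left]

theorem inner_self_J (x : E n) : (⟪x, J x⟫ : ℝ) = 0 := by
  have h1 := inner_J hJ x x
  rw [real_inner_comm] at h1
  linarith

theorem norm_cm_sq (z : ℂ) (x : E n) : ‖cm J z x‖ ^ 2 = ‖z‖ ^ 2 * ‖x‖ ^ 2 := by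
  have h1 := inner_self_J hJ x
  unfold cm
  rw [norm_add_sq_real, norm_smul, norm_smul, real_inner_smul_left, real_inner_smul_right, h1,
    J.norm_map, Real.norm_eq_abs, Real.norm_eq_abs, mul_pow, mul_pow, sq_abs, sq_abs,
    ← Complex.normSq_eq_norm_sq, Complex.normSq_apply]
  ring

theorem norm_cm (z : ℂ) (x : E n) : ‖cm J z x‖ = ‖z‖ * ‖x‖ := by
  have h := norm_cm_sq hJ z x
  rw [← mul_pow] at h
  exact (sq_eq_sq₀ (norm_nonneg _) (by positivity)).1 h

theorem cm_cm (z w : ℂ) (x : E n) : cm J z (cm J w x) = cm J (z * w) x := by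
  unfold cm
  simp only [map_add, map_smul, hJ, Complex.mul_re, Complex.mul_im]
  module

omit hJ in
theorem cm_one (x : E n) : cm J 1 x = x := by simp [cm]

omit hJ in
theorem cm_zero (x : E n) : cm J 0 x = 0 := by simp [cm]

omit hJ in
theorem cm_add (z : ℂ) (x y : E n) : cm J z (x + y) = cm J z x + cm J z y := by
  unfold cm
  simp only [map_add]
  module

omit hJ in
theorem add_cm (z w : ℂ) (x : E n) : cm J (z + w) x = cm J z x + cm J w x := by
  unfold cm
  simp only [Complex.add_re, Complex.add_im]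
  module

omit hJ in
theorem cm_smul (z : ℂ) (r : ℝ) (x : E n) : cm J z (r • x) = r • cm J z x := by
  unfold cm
  simp only [map_smul]
  module

omit hJ in
theorem smul_cm (z : ℂ) (r : ℝ) (x : E n) : cm J ((r : ℂ) * z) x = r • cm J z x := by
  unfold cm
  simp only [Complex.re_ofReal_mul, Complex.im_ofReal_mul]
  module

omit hJ in
theorem cm_ofReal (r : ℝ) (x : E n) : cm J (r : ℂ) x = r • x := by
  simp [cm]

theorem co_cm (z : ℂ) (ζ w : E n) : co J ζ (cm J z w) = z * co J ζ w := by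
  have h1 := inner_J hJ ζ w
  have h2 := J.inner_map_map ζ w
  have h3 : (⟪ζ, J w⟫ : ℝ) = -⟪J ζ, w⟫ := by linarith
  unfold co cm
  rw [inner_add_right, inner_add_right, real_inner_smul_right, real_inner_smul_right,
    real_inner_smul_right, real_inner_smul_right, h2, h3]
  apply Complex.ext
  · simp [mul_comm]
    ring
  · simp [mul_comm]

omit hJ in
theorem norm_co_sq (ζ w : E n) : ‖co J ζ w‖ ^ 2 = (⟪ζ, w⟫ : ℝ) ^ 2 + (⟪J ζ, w⟫ : ℝ) ^ 2 := by
  unfold co
  rw [← Complex.normSq_eq_norm_sq, Complex.normSq_apply]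
  simp
  ring

/-- the component along the complex line of `ζ` and the rest -/
theorem decomp (ζ : E n) (hζ : ‖ζ‖ = 1) (w : E n) :
    (⟪ζ, w - cm J (co J ζ w) ζ⟫ : ℝ) = 0 ∧ (⟪J ζ, w - cm J (co J ζ w) ζ⟫ : ℝ) = 0 := by
  have h1 : (⟪ζ, ζ⟫ : ℝ) = 1 := by rw [real_inner_self_eq_norm_sq, hζ]; norm_num
  have h2 : (⟪J ζ, J ζ⟫ : ℝ) = 1 := by rw [J.inner_map_map, h1]
  have h3 := inner_self_J hJ ζ
  have h4 : (⟪J ζ, ζ⟫ : ℝ) = 0 := by rw [real_inner_comm]; exact h3
  have e1 : (co J ζ w).re = ⟪ζ, w⟫ := by simp [co]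
  have e2 : (co J ζ w).im = ⟪J ζ, w⟫ := by simp [co]
  unfold cm
  rw [e1, e2]
  constructor
  · rw [inner_sub_right, inner_add_right, real_inner_smul_right, real_inner_smul_right, h1, h3]
    ring
  · rw [inner_sub_right, inner_add_right, real_inner_smul_right, real_inner_smul_right, h2, h4]
    ring

theorem norm_sq_decomp (ζ : E n) (hζ : ‖ζ‖ = 1) (w : E n) (z : ℂ) (hz : ‖z‖ = 1) :
    ‖cm J (co J ζ w) ζ + cm J z (w - cm J (co J ζ w) ζ)‖ ^ 2 = ‖w‖ ^ 2 := by
  obtain ⟨h1, h2⟩ := decomp hJ ζ hζ w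
  set v := w - cm J (co J ζ w) ζ with hv
  have h3 : (⟪ζ, J v⟫ : ℝ) = 0 := by
    have := inner_J hJ ζ v
    linarith
  have h4 : (⟪J ζ, J v⟫ : ℝ) = 0 := by rw [J.inner_map_map, h1]
  have key : ∀ u : ℂ, (⟪cm J (co J ζ w) ζ, cm J u v⟫ : ℝ) = 0 := by
    intro u
    unfold cm
    rw [inner_add_left, inner_add_right, inner_add_right]
    simp only [real_inner_smul_left, real_inner_smul_right, h1, h2, h3, h4]
    ring
  have hw : w = cm J (co J ζ w) ζ + cm J 1 v := by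
    rw [cm_one, hv]
    abel
  have e1 : ‖cm J (co J ζ w) ζ + cm J z v‖ ^ 2 = ‖cm J (co J ζ w) ζ‖ ^ 2 + ‖v‖ ^ 2 := by
    rw [norm_add_sq_real, key z, norm_cm_sq hJ z v, hz]
    ring
  have e2 : ‖w‖ ^ 2 = ‖cm J (co J ζ w) ζ‖ ^ 2 + ‖v‖ ^ 2 := by
    conv_lhs => rw [hw]
    rw [norm_add_sq_real, key 1, norm_cm_sq hJ 1 v]
    simp
  rw [e1, e2]

/-- multiplication by a unimodular number -/
noncomputable def rotE (z : ℂ) (hz : ‖z‖ = 1) : E n ≃ₗᵢ[ℝ] E n :=
  LinearIsometry.toLinearIsometryEquiv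
    { toFun := fun x => cm J z x
      map_add' := fun x y => cm_add z x y
      map_smul' := fun r x => by simpa using cm_smul z r x
      norm_map' := fun x => by
        change ‖cm J z x‖ = ‖x‖
        rw [norm_cm hJ, hz, one_mul] } rfl

theorem rotE_apply (z : ℂ) (hz : ‖z‖ = 1) (x : E n) : rotE hJ z hz x = cm J z x := rfl

omit hJ in
theorem co_add (ζ x y : E n) : co J ζ (x + y) = co J ζ x + co J ζ y := by
  unfold co
  rw [inner_add_right, inner_add_right]
  push_cast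
  ring

omit hJ in
theorem co_smul (ζ : E n) (r : ℝ) (x : E n) : co J ζ (r • x) = r * co J ζ x := by
  unfold co
  rw [real_inner_smul_right, real_inner_smul_right]
  push_cast
  ring

/-- rotation of the complement of the complex line of `ζ` -/
noncomputable def rotC (ζ : E n) (hζ : ‖ζ‖ = 1) (z : ℂ) (hz : ‖z‖ = 1) : E n ≃ₗᵢ[ℝ] E n :=
  LinearIsometry.toLinearIsometryEquiv
    { toFun := fun w => cm J (co J ζ w) ζ + cm J z (w - cm J (co J ζ w) ζ)
      map_add' := fun x y => by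
        rw [co_add, add_cm, show x + y - (cm J (co J ζ x) ζ + cm J (co J ζ y) ζ) =
          (x - cm J (co J ζ x) ζ) + (y - cm J (co J ζ y) ζ) by abel, cm_add]
        abel
      map_smul' := fun r x => by
        simp only [RingHom.id_apply]
        rw [co_smul, smul_cm, ← smul_sub, cm_smul, smul_add]
      norm_map' := fun x => by
        have h := norm_sq_decomp hJ ζ hζ x z hz
        exact (sq_eq_sq₀ (norm_nonneg _) (norm_nonneg _)).1 h } rfl

theorem rotC_apply (ζ : E n) (hζ : ‖ζ‖ = 1) (z : ℂ) (hz : ‖z‖ = 1) (w : E n) :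
    rotC hJ ζ hζ z hz w = cm J (co J ζ w) ζ + cm J z (w - cm J (co J ζ w) ζ) := rfl

omit hJ in
theorem co_self (hJ : ∀ x, J (J x) = -x) (ζ : E n) (hζ : ‖ζ‖ = 1) : co J ζ ζ = 1 := by
  have h3 := inner_self_J hJ ζ
  have h4 : (⟪J ζ, ζ⟫ : ℝ) = 0 := by rw [real_inner_comm]; exact h3
  unfold co
  rw [real_inner_self_eq_norm_sq, hζ, h4]
  simp

theorem co_rotC (ζ : E n) (hζ : ‖ζ‖ = 1) (z : ℂ) (hz : ‖z‖ = 1) (w : E n) :
    co J ζ (rotC hJ ζ hζ z hz w) = co J ζ w := by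
  rw [rotC_apply, co_add, co_cm hJ, co_cm hJ, co_self hJ ζ hζ]
  have h : co J ζ (w - cm J (co J ζ w) ζ) = 0 := by
    obtain ⟨h1, h2⟩ := decomp hJ ζ hζ w
    unfold co at h1 h2 ⊢
    rw [h1, h2]
    simp
  rw [h]
  ring

end Pool.Agent.Y251.HR
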