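import Mathlib
import Pool.Agent.Y251.HR.A1
import Pool.Agent.H438R2.BR.T9
set_option autoImplicit false

/-! Moments of the complex coordinate on the sphere. -/

namespace Pool.Agent.Y251.HR

open MeasureTheory Set Complex
open scoped ENNReal RealInnerProductSpace
open Pool.Agent.H789R2.FR (E sg sg_finite sg_ae sg_inv polar gauss_lintegral)

theorem radial_gamma (j : ℕ) : ∫⁻ r in Ioi (0 : ℝ),
    ENNReal.ofReal (r ^ (2 * j + 1) * Real.exp (-r ^ 2)) =
      ENNReal.ofReal ((Nat.factorial j : ℝ) / 2) := by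
  have h := _root_.integral_rpow_mul_exp_neg_rpow (p := 2) (q := ((2 * j + 1 : ℕ) : ℝ)) (by norm_num)
    (by have : (0 : ℝ) ≤ ((2 * j + 1 : ℕ) : ℝ) := Nat.cast_nonneg _
        linarith)
  have e1 : ∀ r ∈ Ioi (0 : ℝ), r ^ ((2 * j + 1 : ℕ) : ℝ) * Real.exp (-r ^ (2 : ℝ)) =
      r ^ (2 * j + 1) * Real.exp (-r ^ 2) := by
    intro r _
    rw [Real.rpow_natCast]
    norm_num
  rw [setIntegral_congr_fun measurableSet_Ioi e1] at h
  have e2 : ((((2 * j + 1 : ℕ) : ℝ) + 1) / 2) = (j : ℝ) + 1 := by push_cast; ring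
  rw [e2, Real.Gamma_nat_eq_factorial] at h
  have hi : IntegrableOn (fun r : ℝ => r ^ (2 * j + 1) * Real.exp (-r ^ 2)) (Ioi 0) := by
    by_contra hc
    have h0 := integral_undef (f := fun r : ℝ => r ^ (2 * j + 1) * Real.exp (-r ^ 2))
      (μ := volume.restrict (Ioi 0)) hc
    rw [h0] at h
    have : 0 < (1 / 2 : ℝ) * (Nat.factorial j : ℝ) := by positivity
    linarith
  rw [← ofReal_integral_eq_lintegral_ofReal hi, h]
  · congr 1
    ring
  · filter_upwards [ae_restrict_mem measurableSet_Ioi] with r hr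
    have : (0 : ℝ) < r := hr
    positivity

theorem sg_two_univ : sg 2 univ = ENNReal.ofReal (2 * Real.pi) := by
  have h1 : sg 2 univ = (volume : Measure (E 2)).toSphere univ := by
    rw [Pool.Agent.H789R2.FR.sg_apply MeasurableSet.univ, preimage_univ]
  rw [h1, Measure.toSphere_apply_univ, finrank_euclideanSpace_fin,
    EuclideanSpace.volume_ball_fin_two]
  simp only [ENNReal.ofReal_one, one_pow, one_mul]
  rw [ENNReal.ofReal_mul (by norm_num)]
  norm_num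

/-- planar Gaussian moment -/
theorem planar_moment (k : ℕ) : ∫⁻ u : E 2, ENNReal.ofReal (‖u‖ ^ (2 * k) * Real.exp (-‖u‖ ^ 2)) =
    ENNReal.ofReal (Real.pi * (Nat.factorial k : ℝ)) := by
  rw [polar (n := 2) (by norm_num) _ (by fun_prop)]
  have h1 : ∀ᵐ w ∂(sg 2), ∫⁻ r in Ioi (0 : ℝ), ENNReal.ofReal (r ^ (2 - 1)) *
      ENNReal.ofReal (‖r • w‖ ^ (2 * k) * Real.exp (-‖r • w‖ ^ 2)) =
      ENNReal.ofReal ((Nat.factorial k : ℝ) / 2) := by
    filter_upwards [sg_ae 2] with w hw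
    rw [← radial_gamma]
    refine setLIntegral_congr_fun measurableSet_Ioi fun r hr => ?_
    have hr0 : (0 : ℝ) < r := hr
    rw [norm_smul, hw, mul_one, Real.norm_of_nonneg hr0.le, ← ENNReal.ofReal_mul (by positivity)]
    congr 1
    ring
  rw [lintegral_congr_ae h1, lintegral_const, sg_two_univ, ← ENNReal.ofReal_mul (by positivity)]
  congr 1
  ring

theorem gauss_moment {k' m : ℕ} (hn : 2 + k' = 2 * m) (J : E (2 + k') →ₗᵢ[ℝ] E (2 + k'))
    (hJ : ∀ x, J (J x) = -x) (ζ : E (2 + k')) (hζ : ‖ζ‖ = 1) (k : ℕ) :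
    ∫⁻ x : E (2 + k'), ENNReal.ofReal (‖co J ζ x‖ ^ (2 * k) * Real.exp (-‖x‖ ^ 2)) =
      ENNReal.ofReal (Real.pi ^ m * (Nat.factorial k : ℝ)) := by
  set i0 : Fin (2 + k') := Fin.castAdd k' 0 with hi0
  set i1 : Fin (2 + k') := Fin.castAdd k' 1 with hi1
  have hne : i0 ≠ i1 := by
    rw [hi0, hi1, Ne, Fin.ext_iff]
    simp
  -- an orthonormal basis containing `ζ, J ζ`
  set v : Fin (2 + k') → E (2 + k') := fun i => if i = i0 then ζ else J ζ with hv
  have h12 := inner_self_J hJ ζ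
  have hon : Orthonormal ℝ (({i0, i1} : Set (Fin (2 + k'))).domRestrict v) := by
    rw [orthonormal_iff_ite]
    rintro ⟨a, ha⟩ ⟨b, hb⟩
    simp only [mem_insert_iff, mem_singleton_iff] at ha hb
    have hζζ : (⟪ζ, ζ⟫ : ℝ) = 1 := by rw [real_inner_self_eq_norm_sq, hζ]; norm_num
    have hJJ : (⟪J ζ, J ζ⟫ : ℝ) = 1 := by rw [J.inner_map_map, hζζ]
    have hJ1 : (⟪J ζ, ζ⟫ : ℝ) = 0 := by rw [real_inner_comm]; exact h12
    rcases ha with rfl | rfl <;> rcases hb with rfl | rfl <;>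
      simp [hv, hne, hne.symm, hζ, hJ1, h12]
  obtain ⟨b, hb⟩ := hon.exists_orthonormalBasis_extension_of_card_eq
    (by rw [finrank_euclideanSpace_fin, Fintype.card_fin])
  have hb0 : b i0 = ζ := by
    rw [hb i0 (by simp)]
    simp [hv]
  have hb1 : b i1 = J ζ := by
    rw [hb i1 (by simp)]
    simp [hv, hne.symm]
  have hco : ∀ x, ‖co J ζ x‖ ^ 2 = (b.repr x i0) ^ 2 + (b.repr x i1) ^ 2 := by
    intro x
    rw [norm_co_sq, b.repr_apply_apply, b.repr_apply_apply, hb0, hb1]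
  have e1 : ∀ x, ENNReal.ofReal (‖co J ζ x‖ ^ (2 * k) * Real.exp (-‖x‖ ^ 2)) =
      (fun y : E (2 + k') => ENNReal.ofReal (((y i0) ^ 2 + (y i1) ^ 2) ^ k *
        Real.exp (-‖y‖ ^ 2))) (b.repr x) := by
    intro x
    simp only
    rw [pow_mul, hco, LinearIsometryEquiv.norm_map]
  simp_rw [e1]
  have hmeas : Measurable fun y : E (2 + k') => ENNReal.ofReal (((y i0) ^ 2 + (y i1) ^ 2) ^ k *
        Real.exp (-‖y‖ ^ 2)) := by fun_prop
  rw [b.repr.measurePreserving.lintegral_comp hmeas]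
  rw [← (Pool.Agent.H438R2.BR.J_mp 2 k').lintegral_comp hmeas]
  have e2 : ∀ p : E 2 × E k', ENNReal.ofReal
      ((((Pool.Agent.H438R2.BR.J p.1 p.2 : E (2 + k')) i0) ^ 2 +
        ((Pool.Agent.H438R2.BR.J p.1 p.2 : E (2 + k')) i1) ^ 2) ^ k *
        Real.exp (-‖(Pool.Agent.H438R2.BR.J p.1 p.2 : E (2 + k'))‖ ^ 2)) =
      ENNReal.ofReal (‖p.1‖ ^ (2 * k) * Real.exp (-‖p.1‖ ^ 2)) *
        ENNReal.ofReal (Real.exp (-1 * ‖(0 : E k') - p.2‖ ^ 2)) := by
    intro p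
    rw [← ENNReal.ofReal_mul (by positivity)]
    congr 1
    have h1 : ‖(Pool.Agent.H438R2.BR.J p.1 p.2 : E (2 + k'))‖ ^ 2 = ‖p.1‖ ^ 2 + ‖p.2‖ ^ 2 := by
      rw [← real_inner_self_eq_norm_sq, Pool.Agent.H438R2.BR.J_inner, real_inner_self_eq_norm_sq,
        real_inner_self_eq_norm_sq]
    have h2 : ((Pool.Agent.H438R2.BR.J p.1 p.2 : E (2 + k')) i0) ^ 2 +
        ((Pool.Agent.H438R2.BR.J p.1 p.2 : E (2 + k')) i1) ^ 2 = ‖p.1‖ ^ 2 := by
      rw [EuclideanSpace.norm_sq_eq]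
      simp [Pool.Agent.H438R2.BR.J, hi0, hi1, Fin.append_left]
    rw [h1, h2, pow_mul, zero_sub, norm_neg, neg_add, Real.exp_add]
    ring_nf
  simp_rw [e2]
  rw [lintegral_prod_mul
    (f := fun u : E 2 => ENNReal.ofReal (‖u‖ ^ (2 * k) * Real.exp (-‖u‖ ^ 2)))
    (g := fun u : E k' => ENNReal.ofReal (Real.exp (-1 * ‖(0 : E k') - u‖ ^ 2)))
    (by fun_prop) (by fun_prop), planar_moment,
    gauss_lintegral k' 1 one_pos 0, ← ENNReal.ofReal_mul (by positivity)]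
  congr 1
  have h3 : ((k' : ℝ) / 2) = ((m - 1 : ℕ) : ℝ) := by
    have : 1 ≤ m := by omega
    have h4 : (k' : ℝ) = 2 * ((m - 1 : ℕ) : ℝ) := by
      have : k' = 2 * (m - 1) := by omega
      exact_mod_cast this
    rw [h4]; ring
  rw [h3, div_one, Real.rpow_natCast]
  obtain ⟨q, rfl⟩ : ∃ q, m = q + 1 := ⟨m - 1, by omega⟩
  rw [Nat.add_sub_cancel]
  ring

theorem norm_co_le {n : ℕ} {J : E n →ₗᵢ[ℝ] E n} (hJ : ∀ x, J (J x) = -x) (ζ : E n)
    (hζ : ‖ζ‖ = 1) (w : E n) (hw : ‖w‖ = 1) : ‖co J ζ w‖ ≤ 1 := by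
  obtain ⟨h5, h6⟩ := decomp hJ ζ hζ w
  set v := w - cm J (co J ζ w) ζ with hv
  have h9 : ‖w‖ ^ 2 = ‖cm J (co J ζ w) ζ‖ ^ 2 + ‖v‖ ^ 2 := by
    have h10 : (⟪cm J (co J ζ w) ζ, v⟫ : ℝ) = 0 := by
      unfold cm
      rw [inner_add_left, real_inner_smul_left, real_inner_smul_left, h5, h6]
      ring
    conv_lhs => rw [show w = cm J (co J ζ w) ζ + v by rw [hv]; abel]
    rw [norm_add_sq_real, h10]
    ring
  rw [hw, norm_cm hJ, hζ, mul_one] at h9
  have h10 : ‖co J ζ w‖ ^ 2 ≤ 1 := by nlinarith [sq_nonneg ‖v‖]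
  exact (sq_le_one_iff₀ (norm_nonneg _)).1 h10

theorem moment {n m : ℕ} (hn : n = 2 * m) (hm : 1 ≤ m) (J : E n →ₗᵢ[ℝ] E n)
    (hJ : ∀ x, J (J x) = -x) (ζ : E n) (hζ : ‖ζ‖ = 1) (k : ℕ) :
    ∫ w, ‖co J ζ w‖ ^ (2 * k) ∂(sg n) =
      2 * Real.pi ^ m * (Nat.factorial k : ℝ) / (Nat.factorial (k + m - 1) : ℝ) := by
  obtain ⟨k', rfl⟩ : ∃ k', n = 2 + k' := ⟨n - 2, by omega⟩
  have h1 := gauss_moment hn J hJ ζ hζ k
  have hcont : Continuous fun x : E (2 + k') => co J ζ x := by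
    unfold co
    fun_prop
  rw [polar (by omega) _ (by fun_prop)] at h1
  have h2 : ∀ᵐ w ∂(sg (2 + k')), ∫⁻ r in Ioi (0 : ℝ), ENNReal.ofReal (r ^ (2 + k' - 1)) *
      ENNReal.ofReal (‖co J ζ (r • w)‖ ^ (2 * k) * Real.exp (-‖r • w‖ ^ 2)) =
      ENNReal.ofReal (‖co J ζ w‖ ^ (2 * k)) *
        ENNReal.ofReal ((Nat.factorial (k + m - 1) : ℝ) / 2) := by
    filter_upwards [sg_ae (2 + k')] with w hw
    rw [← radial_gamma, ← lintegral_const_mul' _ _ ENNReal.ofReal_ne_top]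
    refine setLIntegral_congr_fun measurableSet_Ioi fun r hr => ?_
    have hr0 : (0 : ℝ) < r := hr
    rw [co_smul, norm_mul, Complex.norm_real, norm_smul, hw, mul_one,
      Real.norm_of_nonneg hr0.le, ← ENNReal.ofReal_mul (by positivity),
      ← ENNReal.ofReal_mul (by positivity)]
    congr 1
    have h3 : 2 * (k + m - 1) + 1 = (2 + k' - 1) + 2 * k := by omega
    rw [h3, pow_add]
    ring
  rw [lintegral_congr_ae h2, lintegral_mul_const _ (by fun_prop)] at h1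
  have hfin := sg_finite (2 + k')
  have hint : Integrable (fun w => ‖co J ζ w‖ ^ (2 * k)) (sg (2 + k')) := by
    refine Integrable.of_bound (by fun_prop) 1 ?_
    filter_upwards [sg_ae (2 + k')] with w hw
    have h4 : ‖co J ζ w‖ ≤ 1 := by
      exact norm_co_le hJ ζ hζ w hw
    rw [Real.norm_of_nonneg (by positivity)]
    exact pow_le_one₀ (norm_nonneg _) h4
  have h5 : ENNReal.ofReal (∫ w, ‖co J ζ w‖ ^ (2 * k) ∂(sg (2 + k'))) *
      ENNReal.ofReal ((Nat.factorial (k + m - 1) : ℝ) / 2) =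
      ENNReal.ofReal (Real.pi ^ m * (Nat.factorial k : ℝ)) := by
    rw [ofReal_integral_eq_lintegral_ofReal hint]
    · exact h1
    · exact Filter.Eventually.of_forall fun w => by positivity
  have hI0 : 0 ≤ ∫ w, ‖co J ζ w‖ ^ (2 * k) ∂(sg (2 + k')) := integral_nonneg fun w => by positivity
  rw [← ENNReal.ofReal_mul hI0, ENNReal.ofReal_eq_ofReal_iff (by positivity) (by positivity)] at h5
  have hf : (0 : ℝ) < (Nat.factorial (k + m - 1) : ℝ) := by positivity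
  rw [eq_div_iff hf.ne']
  linarith

end Pool.Agent.Y251.HR
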