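import Mathlib
import Pool.Agent.Y251.HR.A2
set_option autoImplicit false

/-! The sphere integral of a power series in the complex coordinate against an exponential. -/

namespace Pool.Agent.Y251.HR

open MeasureTheory Set Complex
open scoped ENNReal RealInnerProductSpace ComplexConjugate
open Pool.Agent.H789R2.FR (E sg sg_finite sg_ae sg_inv)

variable {n m : ℕ}

theorem cont_co (J : E n →ₗᵢ[ℝ] E n) (ζ : E n) : Continuous (co J ζ) := by
  unfold co
  fun_prop

theorem int_bdd {f : E n → ℂ} (hf : Measurable f) {C : ℝ} (hC : ∀ w, ‖w‖ = 1 → ‖f w‖ ≤ C) :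
    Integrable f (sg n) := by
  have := sg_finite n
  refine Integrable.of_bound hf.aestronglyMeasurable C ?_
  filter_upwards [sg_ae n] with w hw
  exact hC w hw

/-- orthogonality of the monomials -/
theorem orth (hn : n = 2 * m) (hm : 1 ≤ m) (J : E n →ₗᵢ[ℝ] E n)
    (hJ : ∀ x, J (J x) = -x) (ζ : E n) (hζ : ‖ζ‖ = 1) (k l : ℕ) :
    ∫ w, co J ζ w ^ k * conj (co J ζ w) ^ l ∂(sg n) =
      if k = l then ((2 * Real.pi ^ m * (Nat.factorial k : ℝ) /
        (Nat.factorial (k + m - 1) : ℝ) : ℝ) : ℂ) else 0 := by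
  split_ifs with h
  · subst h
    rw [← moment hn hm J hJ ζ hζ k, ← integral_complex_ofReal]
    refine integral_congr_ae (Filter.Eventually.of_forall fun w => ?_)
    simp only
    rw [← mul_pow, Complex.mul_conj, ← Complex.ofReal_pow, Complex.normSq_eq_norm_sq, ← pow_mul]
  · -- rotation
    have hkl : (k : ℝ) - l ≠ 0 := by
      intro h0
      apply h
      have : (k : ℝ) = l := by linarith
      exact_mod_cast this
    set z : ℂ := Complex.exp (((Real.pi / ((k : ℝ) - l) : ℝ) : ℂ) * I) with hz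
    have hz1 : ‖z‖ = 1 := Complex.norm_exp_ofReal_mul_I _
    have hzk : z ^ k * conj z ^ l = -1 := by
      rw [hz, ← Complex.exp_conj, ← Complex.exp_nat_mul, ← Complex.exp_nat_mul, ← Complex.exp_add]
      rw [map_mul, Complex.conj_ofReal, Complex.conj_I]
      have : (k : ℂ) * (((Real.pi / ((k : ℝ) - l) : ℝ) : ℂ) * I) +
          (l : ℂ) * (((Real.pi / ((k : ℝ) - l) : ℝ) : ℂ) * -I) = Real.pi * I := by
        have h1 : ((k : ℂ) - l) ≠ 0 := by
          have : (((k : ℝ) - l : ℝ) : ℂ) ≠ 0 := by exact_mod_cast hkl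
          simpa using this
        push_cast
        field_simp
        ring
      rw [this, Complex.exp_pi_mul_I]
    have hmp := sg_inv (rotE hJ z hz1)
    have h1 := hmp.integral_comp (rotE hJ z hz1).toHomeomorph.measurableEmbedding
      (fun w => co J ζ w ^ k * conj (co J ζ w) ^ l)
    have h2 : ∀ w, co J ζ (rotE hJ z hz1 w) ^ k * conj (co J ζ (rotE hJ z hz1 w)) ^ l =
        -(co J ζ w ^ k * conj (co J ζ w) ^ l) := by
      intro w
      rw [rotE_apply, co_cm hJ, map_mul, mul_pow, mul_pow]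
      linear_combination (co J ζ w ^ k * conj (co J ζ w) ^ l) * hzk
    simp_rw [h2] at h1
    rw [integral_neg] at h1
    have h3 : (2 : ℂ) * ∫ w, co J ζ w ^ k * conj (co J ζ w) ^ l ∂(sg n) = 0 := by
      linear_combination -h1
    simpa using h3

/-- one monomial against an exponential -/
theorem mono_exp (hn : n = 2 * m) (hm : 1 ≤ m) (J : E n →ₗᵢ[ℝ] E n)
    (hJ : ∀ x, J (J x) = -x) (ζ : E n) (hζ : ‖ζ‖ = 1) (k : ℕ) (b : ℂ) :
    ∫ w, co J ζ w ^ k * Complex.exp (b * conj (co J ζ w)) ∂(sg n) =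
      ((2 * Real.pi ^ m : ℝ) : ℂ) * b ^ k / (Nat.factorial (k + m - 1) : ℂ) := by
  have hfin := sg_finite n
  set F : ℕ → E n → ℂ := fun l w =>
    (b ^ l / (Nat.factorial l : ℂ)) * (co J ζ w ^ k * conj (co J ζ w) ^ l) with hF
  have hc := cont_co J ζ
  have hFm : ∀ l, Measurable (F l) := by
    intro l
    have : Continuous (F l) := by
      rw [hF]
      have h1 : Continuous fun w => conj (co J ζ w) := Complex.continuous_conj.comp hc
      exact continuous_const.mul ((hc.pow k).mul (h1.pow l))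
    exact this.measurable
  have hFb : ∀ l w, ‖w‖ = 1 → ‖F l w‖ ≤ ‖b‖ ^ l / (Nat.factorial l : ℝ) := by
    intro l w hw
    have h1 := norm_co_le hJ ζ hζ w hw
    rw [hF]
    simp only [norm_mul, norm_div, norm_pow, Complex.norm_natCast, RCLike.norm_conj]
    have h2 : ‖co J ζ w‖ ^ k * ‖co J ζ w‖ ^ l ≤ 1 := by
      rw [← pow_add]
      exact pow_le_one₀ (norm_nonneg _) h1
    calc ‖b‖ ^ l / (Nat.factorial l : ℝ) * (‖co J ζ w‖ ^ k * ‖co J ζ w‖ ^ l)
        ≤ ‖b‖ ^ l / (Nat.factorial l : ℝ) * 1 := by gcongr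
      _ = _ := mul_one _
  have hFi : ∀ l, Integrable (F l) (sg n) := fun l => int_bdd (hFm l) (hFb l)
  have hsum : Summable fun l => ∫ w, ‖F l w‖ ∂(sg n) := by
    have h1 : Summable fun l : ℕ => ‖b‖ ^ l / (Nat.factorial l : ℝ) * (sg n).real univ :=
      (Real.summable_pow_div_factorial ‖b‖).mul_right _
    refine Summable.of_nonneg_of_le (fun l => integral_nonneg fun w => norm_nonneg _) ?_ h1
    intro l
    have h2 : ∫ w, ‖F l w‖ ∂(sg n) ≤ ∫ _w, ‖b‖ ^ l / (Nat.factorial l : ℝ) ∂(sg n) := by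
      refine integral_mono_ae (hFi l).norm (integrable_const _) ?_
      filter_upwards [sg_ae n] with w hw
      exact hFb l w hw
    refine h2.trans (le_of_eq ?_)
    rw [integral_const, smul_eq_mul, mul_comm]
  have h1 := hasSum_integral_of_summable_integral_norm hFi hsum
  have h2 : ∀ w, ∑' l, F l w = co J ζ w ^ k * Complex.exp (b * conj (co J ζ w)) := by
    intro w
    have h3 : HasSum (fun l => (b * conj (co J ζ w)) ^ l / (Nat.factorial l : ℂ))
        (Complex.exp (b * conj (co J ζ w))) := by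
      rw [Complex.exp_eq_exp_ℂ]
      exact NormedSpace.expSeries_div_hasSum_exp _
    have h4 := (h3.mul_left (co J ζ w ^ k)).tsum_eq
    rw [← h4]
    refine tsum_congr fun l => ?_
    rw [hF]
    simp only [mul_pow]
    ring
  simp_rw [h2] at h1
  rw [← h1.tsum_eq]
  have h5 : ∀ l, ∫ w, F l w ∂(sg n) = if l = k then
      ((2 * Real.pi ^ m : ℝ) : ℂ) * b ^ k / (Nat.factorial (k + m - 1) : ℂ) else 0 := by
    intro l
    rw [hF]
    simp only
    rw [integral_const_mul, orth hn hm J hJ ζ hζ k l]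
    by_cases hlk : l = k
    · subst hlk
      simp only [if_true]
      have hl : (Nat.factorial l : ℂ) ≠ 0 := by exact_mod_cast Nat.factorial_ne_zero l
      push_cast
      field_simp
    · rw [if_neg (fun h => hlk h.symm), if_neg hlk, mul_zero]
  simp_rw [h5]
  rw [tsum_ite_eq]

/-- a power series against an exponential -/
theorem series_exp (hn : n = 2 * m) (hm : 1 ≤ m) (J : E n →ₗᵢ[ℝ] E n)
    (hJ : ∀ x, J (J x) = -x) (ζ : E n) (hζ : ‖ζ‖ = 1) (b : ℂ) (H : ℂ → ℂ) (c : ℕ → ℂ) (j : ℕ)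
    (hc : Summable fun k => ‖c k‖) (hH : ∀ z : ℂ, ‖z‖ ≤ 1 → HasSum (fun k => c k * z ^ (k + j)) (H z)) :
    HasSum (fun k => c k * (((2 * Real.pi ^ m : ℝ) : ℂ) * b ^ (k + j) /
      (Nat.factorial (k + j + m - 1) : ℂ)))
      (∫ w, H (co J ζ w) * Complex.exp (b * conj (co J ζ w)) ∂(sg n)) := by
  have hfin := sg_finite n
  have hco := cont_co J ζ
  set F : ℕ → E n → ℂ := fun k w =>
    c k * (co J ζ w ^ (k + j) * Complex.exp (b * conj (co J ζ w))) with hF
  have hFm : ∀ l, Measurable (F l) := by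
    intro l
    have : Continuous (F l) := by
      rw [hF]
      have h1 : Continuous fun w => conj (co J ζ w) := Complex.continuous_conj.comp hco
      exact continuous_const.mul ((hco.pow _).mul
        (Complex.continuous_exp.comp (continuous_const.mul h1)))
    exact this.measurable
  have hFb : ∀ l w, ‖w‖ = 1 → ‖F l w‖ ≤ ‖c l‖ * Real.exp ‖b‖ := by
    intro l w hw
    have h1 := norm_co_le hJ ζ hζ w hw
    rw [hF]
    simp only [norm_mul, norm_pow]
    have h2 : ‖co J ζ w‖ ^ (l + j) ≤ 1 := pow_le_one₀ (norm_nonneg _) h1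
    have h3 : ‖Complex.exp (b * conj (co J ζ w))‖ ≤ Real.exp ‖b‖ := by
      refine (Complex.norm_exp_le_exp_norm _).trans ?_
      apply Real.exp_le_exp.2
      rw [norm_mul, RCLike.norm_conj]
      calc ‖b‖ * ‖co J ζ w‖ ≤ ‖b‖ * 1 := by gcongr
        _ = _ := mul_one _
    calc ‖c l‖ * (‖co J ζ w‖ ^ (l + j) * ‖Complex.exp (b * conj (co J ζ w))‖)
        ≤ ‖c l‖ * (1 * Real.exp ‖b‖) := by gcongr
      _ = _ := by rw [one_mul]
  have hFi : ∀ l, Integrable (F l) (sg n) := fun l => int_bdd (hFm l) (hFb l)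
  have hsum : Summable fun l => ∫ w, ‖F l w‖ ∂(sg n) := by
    have h1 : Summable fun l : ℕ => ‖c l‖ * Real.exp ‖b‖ * (sg n).real univ :=
      (hc.mul_right _).mul_right _
    refine Summable.of_nonneg_of_le (fun l => integral_nonneg fun w => norm_nonneg _) ?_ h1
    intro l
    have h2 : ∫ w, ‖F l w‖ ∂(sg n) ≤ ∫ _w, ‖c l‖ * Real.exp ‖b‖ ∂(sg n) := by
      refine integral_mono_ae (hFi l).norm (integrable_const _) ?_
      filter_upwards [sg_ae n] with w hw
      exact hFb l w hw
    refine h2.trans (le_of_eq ?_)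
    rw [integral_const, smul_eq_mul, mul_comm]
  have h1 := hasSum_integral_of_summable_integral_norm hFi hsum
  have h2 : ∫ w, ∑' l, F l w ∂(sg n) =
      ∫ w, H (co J ζ w) * Complex.exp (b * conj (co J ζ w)) ∂(sg n) := by
    refine integral_congr_ae ?_
    filter_upwards [sg_ae n] with w hw
    have h3 := (hH _ (norm_co_le hJ ζ hζ w hw)).mul_right (Complex.exp (b * conj (co J ζ w)))
    rw [← h3.tsum_eq]
    refine tsum_congr fun l => ?_
    rw [hF]
    ring
  rw [h2] at h1
  refine h1.congr_fun ?_ |> fun h => h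
  intro k
  rw [hF]
  simp only
  rw [integral_const_mul, mono_exp hn hm J hJ ζ hζ (k + j) b]

end Pool.Agent.Y251.HR
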