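import Mathlib
import Pool.Agent.Y251.HR.A3
set_option autoImplicit false

/-! The slice identity for functions of one complex coordinate. -/

namespace Pool.Agent.Y251.HR

open MeasureTheory Set Complex Metric
open scoped ENNReal RealInnerProductSpace ComplexConjugate NNReal
open Pool.Agent.H789R2.FR (E sg sg_finite sg_ae sg_inv)

variable {n m : ℕ}

/-- Taylor coefficients -/
theorem power_series (H : ℂ → ℂ) (ρ : ℝ) (hρ : 1 < ρ) (hH : DifferentiableOn ℂ H (ball 0 ρ)) :
    ∃ c : ℕ → ℂ, (Summable fun k => ‖c k‖) ∧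
      ∀ z : ℂ, ‖z‖ ≤ 1 → HasSum (fun k => c k * z ^ k) (H z) := by
  set R : ℝ≥0 := ⟨(1 + ρ) / 2, by linarith⟩ with hR
  have hR1 : (1 : ℝ) < R := by
    change (1 : ℝ) < (1 + ρ) / 2
    linarith
  have hR2 : (R : ℝ) < ρ := by
    change (1 + ρ) / 2 < ρ
    linarith
  have hd : DifferentiableOn ℂ H (closedBall 0 R) :=
    hH.mono (closedBall_subset_ball hR2)
  have h1 := hd.hasFPowerSeriesOnBall (by
    have : (0 : ℝ) < R := by linarith
    exact_mod_cast this)
  set p := cauchyPowerSeries H 0 R with hp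
  refine ⟨fun k => p.coeff k, ?_, ?_⟩
  · have h2 : ((1 : ℝ≥0) : ℝ≥0∞) < p.radius := by
      refine lt_of_lt_of_le ?_ h1.r_le
      have : (1 : ℝ≥0) < R := by exact_mod_cast hR1
      exact_mod_cast this
    have h3 := p.summable_norm_mul_pow h2
    refine Summable.of_nonneg_of_le (fun k => norm_nonneg _) (fun k => ?_) h3
    simp only [NNReal.coe_one, one_pow, mul_one]
    rw [← FormalMultilinearSeries.norm_apply_eq_norm_coef]
  · intro z hz
    have h2 : z ∈ eball (0 : ℂ) R := by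
      rw [mem_eball, edist_zero_right, ← ofReal_norm, ← ENNReal.ofReal_coe_nnreal]
      exact (ENNReal.ofReal_lt_ofReal_iff (by linarith)).2 (by linarith)
    have h3 := h1.hasSum h2
    rw [zero_add] at h3
    refine h3.congr_fun ?_ |> fun h => h
    intro k
    rw [FormalMultilinearSeries.apply_eq_pow_smul_coeff, smul_eq_mul, mul_comm]

/-- the standard complex structure of the plane -/
noncomputable def J0 : E 2 →ₗᵢ[ℝ] E 2 :=
  { toFun := fun y => !₂[-y 1, y 0]
    map_add' := by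
      intro x y
      ext i
      fin_cases i <;> simp
      ring
    map_smul' := by
      intro r x
      ext i
      fin_cases i <;> simp
    norm_map' := by
      intro x
      change ‖(!₂[-x 1, x 0] : E 2)‖ = ‖x‖
      rw [EuclideanSpace.norm_eq, EuclideanSpace.norm_eq]
      simp
      rw [add_comm] }

theorem J0_apply (y : E 2) : J0 y = !₂[-y 1, y 0] := rfl

theorem hJ0 : ∀ x, J0 (J0 x) = -x := by
  intro x
  rw [J0_apply, J0_apply]
  ext i
  fin_cases i <;> simp

/-- first basis vector of the plane -/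
noncomputable def e2 : E 2 := !₂[1, 0]

theorem norm_e2 : ‖e2‖ = 1 := by
  rw [e2, EuclideanSpace.norm_eq]
  simp

/-- complex coordinate in the plane -/
noncomputable def c2 (y : E 2) : ℂ := (y 0 : ℂ) + (y 1 : ℂ) * I

theorem co_e2 (y : E 2) : co J0 e2 y = c2 y := by
  unfold co c2
  rw [J0_apply]
  simp [e2, PiLp.inner_apply]

theorem c2_cont : Continuous c2 := by
  unfold c2
  fun_prop

/-- the constant `-i r / 2` -/
noncomputable def bb (r : ℝ) : ℂ := -((r / 2 : ℝ) : ℂ) * I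

theorem exp_split (r : ℝ) (z : ℂ) :
    Complex.exp (bb r * z) * Complex.exp (bb r * conj z) =
      Complex.exp (-((r * z.re : ℝ) : ℂ) * I) := by
  rw [← Complex.exp_add]
  congr 1
  unfold bb
  have h : z + conj z = ((2 * z.re : ℝ) : ℂ) := by
    rw [Complex.add_conj]
  calc -((r / 2 : ℝ) : ℂ) * I * z + -((r / 2 : ℝ) : ℂ) * I * conj z
      = -((r / 2 : ℝ) : ℂ) * I * (z + conj z) := by ring
    _ = _ := by
      rw [h]
      push_cast
      ring

theorem slice1 (hn : n = 2 * m) (hm : 1 ≤ m) (J : E n →ₗᵢ[ℝ] E n)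
    (hJ : ∀ x, J (J x) = -x) (ζ : E n) (hζ : ‖ζ‖ = 1) (f : ℂ → ℂ) (ρ : ℝ) (hρ : 1 < ρ)
    (hf : DifferentiableOn ℂ f (ball 0 ρ)) (r : ℝ) :
    bb r ^ (m - 1) * ∫ w, f (co J ζ w) * Complex.exp (-((r * ⟪ζ, w⟫ : ℝ) : ℂ) * I) ∂(sg n) =
      (Real.pi : ℂ) ^ (m - 1) *
        ∫ y, f (c2 y) * c2 y ^ (m - 1) * Complex.exp (-((r * y 0 : ℝ) : ℂ) * I) ∂(sg 2) := by
  have hH : DifferentiableOn ℂ (fun z => f z * Complex.exp (bb r * z)) (ball 0 ρ) :=
    hf.mul (by fun_prop)
  obtain ⟨c, hc, hs⟩ := power_series _ ρ hρ hH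
  have h1 := series_exp hn hm J hJ ζ hζ (bb r) (fun z => f z * Complex.exp (bb r * z)) c 0 hc
    (fun z hz => by simpa using hs z hz)
  have h2 := series_exp (n := 2) (m := 1) (by norm_num) le_rfl J0 hJ0 e2 norm_e2 (bb r)
    (fun z => z ^ (m - 1) * (f z * Complex.exp (bb r * z))) c (m - 1) hc
    (fun z hz => by
      have h3 := (hs z hz).mul_left (z ^ (m - 1))
      refine h3.congr_fun ?_ |> fun h => h
      intro k
      rw [pow_add]
      ring)
  have e1 : ∫ w, f (co J ζ w) * Complex.exp (bb r * co J ζ w) *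
      Complex.exp (bb r * conj (co J ζ w)) ∂(sg n) =
      ∫ w, f (co J ζ w) * Complex.exp (-((r * ⟪ζ, w⟫ : ℝ) : ℂ) * I) ∂(sg n) := by
    refine integral_congr_ae (Filter.Eventually.of_forall fun w => ?_)
    simp only
    rw [mul_assoc, exp_split]
    congr 3
    simp [co]
  have e3 : ∫ w, co J0 e2 w ^ (m - 1) * (f (co J0 e2 w) * Complex.exp (bb r * co J0 e2 w)) *
      Complex.exp (bb r * conj (co J0 e2 w)) ∂(sg 2) =
      ∫ y, f (c2 y) * c2 y ^ (m - 1) * Complex.exp (-((r * y 0 : ℝ) : ℂ) * I) ∂(sg 2) := by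
    refine integral_congr_ae (Filter.Eventually.of_forall fun w => ?_)
    simp only
    rw [mul_assoc, mul_assoc, exp_split, co_e2]
    have : (c2 w).re = w 0 := by simp [c2]
    rw [this]
    ring
  rw [e1] at h1
  rw [e3] at h2
  have h3 := (h1.mul_left (bb r ^ (m - 1))).unique ((h2.mul_left ((Real.pi : ℂ) ^ (m - 1))).congr_fun
    (fun k => ?_) |> fun h => h)
  · exact h3
  · obtain ⟨q, rfl⟩ : ∃ q, m = q + 1 := ⟨m - 1, by omega⟩
    have e4 : k + 0 + (q + 1) - 1 = k + (q + 1 - 1) + 1 - 1 := by omega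
    rw [e4]
    simp only [Nat.add_sub_cancel, add_zero]
    push_cast
    rw [pow_add, pow_succ]
    ring

end Pool.Agent.Y251.HR
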