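import Mathlib
import Pool.Agent.Y251.HR.A4
import Pool.Agent.H438R2.PD.Core
set_option autoImplicit false

/-! Holomorphic functions with respect to an orthogonal complex structure; the slice identity. -/

namespace Pool.Agent.Y251.HR

open MeasureTheory Set Complex Metric
open scoped ENNReal RealInnerProductSpace ComplexConjugate NNReal
open Pool.Agent.H789R2.FR (E sg sg_finite sg_ae sg_inv T)

variable {n m : ℕ}

/-- `F` is holomorphic in the ball of radius `ρ` with respect to the complex structure `J`. -/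
def Hol (J : E n →ₗᵢ[ℝ] E n) (ρ : ℝ) (F : E n → ℂ) : Prop :=
  ∀ x ∈ ball (0 : E n) ρ, ∃ L : E n →L[ℝ] ℂ, HasFDerivAt F L x ∧ ∀ v, L (J v) = I * L v

variable {J : E n →ₗᵢ[ℝ] E n}

theorem Hol.continuousOn {ρ : ℝ} {F : E n → ℂ} (h : Hol J ρ F) : ContinuousOn F (ball 0 ρ) := by
  intro x hx
  obtain ⟨L, hL, -⟩ := h x hx
  exact hL.continuousAt.continuousWithinAt

theorem Hol.mono {ρ ρ' : ℝ} {F : E n → ℂ} (h : Hol J ρ F) (hρ : ρ' ≤ ρ) : Hol J ρ' F :=
  fun x hx => h x (ball_subset_ball hρ hx)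

theorem Hol.congr {ρ : ℝ} {F G : E n → ℂ} (h : Hol J ρ F) (hFG : ∀ x ∈ ball (0 : E n) ρ, G x = F x) :
    Hol J ρ G := by
  intro x hx
  obtain ⟨L, hL, hL2⟩ := h x hx
  refine ⟨L, hL.congr_of_eventuallyEq ?_, hL2⟩
  filter_upwards [isOpen_ball.mem_nhds hx] with y hy
  exact hFG y hy

/-- restriction to complex lines -/
theorem Hol.line {ρ : ℝ} {F : E n → ℂ} (h : Hol J ρ F) (p v : E n) (z : ℂ)
    (hz : p + cm J z v ∈ ball (0 : E n) ρ) :
    DifferentiableAt ℂ (fun w : ℂ => F (p + cm J w v)) z := by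
  obtain ⟨L, hL, hL2⟩ := h _ hz
  set A : ℂ →L[ℝ] E n := Complex.reCLM.smulRight v + Complex.imCLM.smulRight (J v) with hA
  have hAz : ∀ w : ℂ, A w = cm J w v := by
    intro w
    simp [hA, cm]
  have h1 : HasFDerivAt (fun w : ℂ => p + cm J w v) A z := by
    have h2 : HasFDerivAt (fun w : ℂ => A w) A z := A.hasFDerivAt
    have h3 := h2.const_add p
    refine h3.congr_of_eventuallyEq (Filter.Eventually.of_forall fun w => ?_)
    simp only
    rw [hAz]
  have h2 : HasFDerivAt (fun w : ℂ => F (p + cm J w v)) (L.comp A) z := hL.comp z h1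
  have h3 : (ContinuousLinearMap.toSpanSingleton ℂ (L v)).restrictScalars ℝ = L.comp A := by
    ext μ
    simp only [ContinuousLinearMap.coe_restrictScalars', ContinuousLinearMap.comp_apply]
    rw [hAz, ContinuousLinearMap.toSpanSingleton_apply]
    unfold cm
    rw [map_add, map_smul, map_smul, hL2, smul_eq_mul, Complex.real_smul, Complex.real_smul]
    conv_lhs => rw [← Complex.re_add_im μ]
    ring
  exact (hasFDerivAt_of_restrictScalars ℝ h2 h3).differentiableAt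

theorem cont_cm (v : E n) : Continuous fun z : ℂ => cm J z v := by
  unfold cm
  fun_prop

theorem cont_cm2 : Continuous fun p : ℂ × E n => cm J p.1 p.2 := by
  unfold cm
  fun_prop

section

variable (hJ : ∀ x, J (J x) = -x)

include hJ

theorem norm_sq_add (ζ : E n) (hζ : ‖ζ‖ = 1) (w : E n) (hw : ‖w‖ = 1) (z : ℂ) :
    ‖cm J (co J ζ w) ζ + cm J z (w - cm J (co J ζ w) ζ)‖ ^ 2 ≤ (max 1 ‖z‖) ^ 2 := by
  obtain ⟨h1, h2⟩ := decomp hJ ζ hζ w
  set v := w - cm J (co J ζ w) ζ with hv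
  have h3 : (⟪ζ, J v⟫ : ℝ) = 0 := by
    have := inner_J hJ ζ v
    linarith
  have h4 : (⟪J ζ, J v⟫ : ℝ) = 0 := by rw [J.inner_map_map, h1]
  have key : ∀ u : ℂ, (⟪cm J (co J ζ w) ζ, cm J u v⟫ : ℝ) = 0 := by
    intro u
    unfold cm
    rw [inner_add_left, inner_add_right, inner_add_right]
    simp only [real_inner_smul_left, real_inner_smul_right, h1, h2, h3, h4]
    ring
  have hww : ‖cm J (co J ζ w) ζ‖ ^ 2 + ‖v‖ ^ 2 = 1 := by
    have e2 : ‖w‖ ^ 2 = ‖cm J (co J ζ w) ζ‖ ^ 2 + ‖v‖ ^ 2 := by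
      have hw' : w = cm J (co J ζ w) ζ + cm J 1 v := by
        rw [cm_one, hv]
        abel
      conv_lhs => rw [hw']
      rw [norm_add_sq_real, key 1, norm_cm_sq hJ 1 v]
      simp
    rw [← e2, hw]
    norm_num
  rw [norm_add_sq_real, key z, norm_cm_sq hJ z v]
  have h5 : 1 ≤ (max 1 ‖z‖) ^ 2 := one_le_pow₀ (le_max_left _ _)
  have h6 : ‖z‖ ^ 2 ≤ (max 1 ‖z‖) ^ 2 := pow_le_pow_left₀ (norm_nonneg _) (le_max_right _ _) 2
  nlinarith [sq_nonneg ‖v‖, sq_nonneg ‖cm J (co J ζ w) ζ‖]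

/-- the mean value property along the complement of a complex line -/
theorem mean_line (ρ : ℝ) (hρ : 1 < ρ) {F : E n → ℂ} (h : Hol J ρ F) (ζ : E n) (hζ : ‖ζ‖ = 1)
    (w : E n) (hw : ‖w‖ = 1) :
    (2 * Real.pi)⁻¹ • ∫ θ in (0 : ℝ)..2 * Real.pi, F (cm J (co J ζ w) ζ +
      cm J (Complex.exp (θ * I)) (w - cm J (co J ζ w) ζ)) = F (cm J (co J ζ w) ζ) := by
  set p := cm J (co J ζ w) ζ with hp
  set v := w - p with hv
  have h1 : ∀ z : ℂ, ‖z‖ < ρ → DifferentiableAt ℂ (fun w : ℂ => F (p + cm J w v)) z := by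
    intro z hz
    refine h.line p v z ?_
    rw [mem_ball_zero_iff]
    have h2 := norm_sq_add hJ ζ hζ w hw z
    have h3 : ‖p + cm J z v‖ ≤ max 1 ‖z‖ :=
      (sq_le_sq₀ (norm_nonneg _) (by positivity)).1 h2
    exact h3.trans_lt (max_lt hρ hz)
  have h2 : DiffContOnCl ℂ (fun w : ℂ => F (p + cm J w v)) (ball 0 |1|) := by
    apply DifferentiableOn.diffContOnCl
    intro z hz
    rw [abs_one, closure_ball _ one_ne_zero, mem_closedBall, dist_zero_right] at hz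
    exact (h1 z (by linarith)).differentiableWithinAt
  have h3 := h2.circleAverage
  rw [Real.circleAverage_def] at h3
  simp only [cm_zero, add_zero] at h3
  rw [← h3]
  congr 1
  refine intervalIntegral.integral_congr fun θ _ => ?_
  congr 3
  simp [circleMap]

theorem reduce (ρ : ℝ) (hρ : 1 < ρ) {F : E n → ℂ} (h : Hol J ρ F) (hFm : Measurable F) (M : ℝ)
    (hFb : ∀ x, ‖F x‖ ≤ M) (ζ : E n) (hζ : ‖ζ‖ = 1) (ψ : ℝ → ℂ) (hψ : Continuous ψ)
    (hψb : ∀ t, ‖ψ t‖ ≤ 1) :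
    ∫ w, F w * ψ ⟪ζ, w⟫ ∂(sg n) = ∫ w, F (cm J (co J ζ w) ζ) * ψ ⟪ζ, w⟫ ∂(sg n) := by
  have hfin := sg_finite n
  have hM : 0 ≤ M := (norm_nonneg _).trans (hFb 0)
  set μ : Measure ℝ := volume.restrict (Ioc 0 (2 * Real.pi)) with hμ
  set K : E n → ℝ → ℂ := fun w θ => F (cm J (co J ζ w) ζ +
      cm J (Complex.exp (θ * I)) (w - cm J (co J ζ w) ζ)) * ψ ⟪ζ, w⟫ with hK
  have hinvar : ∀ θ : ℝ, ∫ w, K w θ ∂(sg n) = ∫ w, F w * ψ ⟪ζ, w⟫ ∂(sg n) := by
    intro θ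
    have hz1 : ‖Complex.exp (θ * I)‖ = 1 := Complex.norm_exp_ofReal_mul_I _
    have hmp := sg_inv (rotC hJ ζ hζ _ hz1)
    have h1 := hmp.integral_comp (rotC hJ ζ hζ _ hz1).toHomeomorph.measurableEmbedding
      (fun w => F w * ψ ⟪ζ, w⟫)
    rw [← h1]
    refine integral_congr_ae (Filter.Eventually.of_forall fun w => ?_)
    have h2 := congrArg Complex.re (co_rotC hJ ζ hζ _ hz1 w)
    have h3 : ∀ w, (co J ζ w).re = ⟪ζ, w⟫ := by
      intro w
      simp [co]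
    rw [h3, h3] at h2
    simp only
    rw [h2, rotC_apply]
  have hKm : Measurable (Function.uncurry K) := by
    have h1 : Continuous fun q : E n × ℝ => cm J (co J ζ q.1) ζ +
      cm J (Complex.exp (q.2 * I)) (q.1 - cm J (co J ζ q.1) ζ) := by
      have h2 := cont_cm2 (J := J)
      have h3 : Continuous fun q : E n × ℝ => cm J (co J ζ q.1) ζ :=
        h2.comp (((cont_co J ζ).comp continuous_fst).prodMk continuous_const)
      refine h3.add ?_
      have h4 : Continuous fun q : E n × ℝ => ((Complex.exp (q.2 * I), q.1 - cm J (co J ζ q.1) ζ)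
          : ℂ × E n) := by
        refine Continuous.prodMk (by fun_prop) (continuous_fst.sub h3)
      exact h2.comp h4
    have h5 : Continuous fun q : E n × ℝ => ψ ⟪ζ, q.1⟫ := by fun_prop
    exact (hFm.comp h1.measurable).mul h5.measurable
  have hμf : IsFiniteMeasure μ := by
    rw [hμ]
    infer_instance
  have hKi : Integrable (Function.uncurry K) ((sg n).prod μ) := by
    refine Integrable.of_bound hKm.aestronglyMeasurable M (Filter.Eventually.of_forall ?_)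
    rintro ⟨w, θ⟩
    change ‖F _ * ψ _‖ ≤ M
    rw [norm_mul]
    calc _ ≤ M * 1 := mul_le_mul (hFb _) (hψb _) (norm_nonneg _) hM
      _ = M := mul_one _
  have h1 : ∫ w, (∫ θ, K w θ ∂μ) ∂(sg n) = ∫ θ, (∫ w, K w θ ∂(sg n)) ∂μ :=
    integral_integral_swap hKi
  simp_rw [hinvar] at h1
  have h2 : ∀ᵐ w ∂(sg n), ∫ θ, K w θ ∂μ = (2 * Real.pi) • (F (cm J (co J ζ w) ζ) * ψ ⟪ζ, w⟫) := by
    filter_upwards [sg_ae n] with w hw
    have h3 := mean_line hJ ρ hρ h ζ hζ w hw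
    rw [← h3, hK]
    simp only
    rw [integral_mul_const, hμ, ← intervalIntegral.integral_of_le (by positivity)]
    rw [smul_mul_assoc, smul_smul, mul_inv_cancel₀ (by positivity), one_smul]
  rw [integral_congr_ae h2, integral_smul, integral_const, hμ] at h1
  have h4 : (volume.restrict (Ioc 0 (2 * Real.pi))).real univ = 2 * Real.pi := by
    simp [measureReal_def, Real.pi_pos.le]
  rw [h4] at h1
  have h5 : (2 * Real.pi) ≠ 0 := by positivity
  exact (smul_right_injective ℂ h5 h1).symm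

theorem T_slice (hn : n = 2 * m) (hm : 1 ≤ m) (ρ : ℝ) (hρ : 1 < ρ) {F : E n → ℂ}
    (h : Hol J ρ F) (hFm : Measurable F) (M : ℝ)
    (hFb : ∀ x, ‖F x‖ ≤ M) (ζ : E n) (hζ : ‖ζ‖ = 1) (r : ℝ) :
    bb r ^ (m - 1) * T F (r • ζ) = (Real.pi : ℂ) ^ (m - 1) *
        ∫ y, F (cm J (c2 y) ζ) * c2 y ^ (m - 1) * Complex.exp (-((r * y 0 : ℝ) : ℂ) * I) ∂(sg 2) := by
  have h1 := reduce hJ ρ hρ h hFm M hFb ζ hζ (fun t => Complex.exp (-((r * t : ℝ) : ℂ) * I))
    (by fun_prop) (fun t => by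
      rw [show -((r * t : ℝ) : ℂ) * I = ((-(r * t) : ℝ) : ℂ) * I by push_cast; ring,
        Complex.norm_exp_ofReal_mul_I])
  have h2 : T F (r • ζ) = ∫ w, F w * Complex.exp (-((r * ⟪ζ, w⟫ : ℝ) : ℂ) * I) ∂(sg n) := by
    unfold T
    refine integral_congr_ae (Filter.Eventually.of_forall fun w => ?_)
    simp only
    rw [real_inner_smul_left, mul_comm]
  rw [h2, h1]
  refine slice1 hn hm J hJ ζ hζ (fun z => F (cm J z ζ)) ρ hρ ?_ r
  intro z hz
  have h3 := h.line 0 ζ z (by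
    rw [zero_add, mem_ball_zero_iff, norm_cm hJ, hζ, mul_one]
    simpa using hz)
  simp only [zero_add] at h3
  exact h3.differentiableWithinAt

/-- slices -/
theorem T_slice2 (hn : n = 2 * m) (hm : 1 ≤ m) (ρ : ℝ) (hρ : 1 < ρ) {F : E n → ℂ}
    (h : Hol J ρ F) (hFm : Measurable F) (M : ℝ)
    (hFb : ∀ x, ‖F x‖ ≤ M) (ζ : E n) (hζ : ‖ζ‖ = 1) (x : E 2) (hx : x ≠ 0) :
    (‖x‖ / 2) ^ (m - 1) * ‖T F (cm J (c2 x) ζ)‖ = Real.pi ^ (m - 1) *
        ‖T (fun y => F (cm J (c2 y) ζ) * c2 y ^ (m - 1)) x‖ := by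
  have hx0 : 0 < ‖x‖ := norm_pos_iff.2 hx
  have hxn : ‖c2 x‖ = ‖x‖ := by
    have h1 : ‖c2 x‖ ^ 2 = ‖x‖ ^ 2 := by
      rw [← Complex.normSq_eq_norm_sq, Complex.normSq_apply, EuclideanSpace.norm_sq_eq]
      simp [c2]
      ring
    exact (sq_eq_sq₀ (norm_nonneg _) (norm_nonneg _)).1 h1
  set z : ℂ := ((‖x‖⁻¹ : ℝ) : ℂ) * c2 x with hz
  have hz1 : ‖z‖ = 1 := by
    rw [hz, norm_mul, Complex.norm_real, Real.norm_of_nonneg (by positivity), hxn,
      inv_mul_cancel₀ hx0.ne']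
  have hcx : c2 x = (‖x‖ : ℂ) * z := by
    rw [hz, ← mul_assoc, ← Complex.ofReal_mul, mul_inv_cancel₀ hx0.ne', Complex.ofReal_one, one_mul]
  have hζ' : ‖cm J z ζ‖ = 1 := by rw [norm_cm hJ, hz1, hζ, one_mul]
  have h1 := T_slice hJ hn hm ρ hρ h hFm M hFb (cm J z ζ) hζ' ‖x‖
  have h2 : ‖x‖ • cm J z ζ = cm J (c2 x) ζ := by
    rw [hcx]
    exact (smul_cm z ‖x‖ ζ).symm
  rw [h2] at h1
  -- rotate
  have hzb : ‖conj z‖ = 1 := by rw [RCLike.norm_conj, hz1]
  have hzz : conj z * z = 1 := by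
    rw [mul_comm, Complex.mul_conj, Complex.normSq_eq_norm_sq, hz1]
    norm_num
  have hc2rot : ∀ y : E 2, c2 (rotE hJ0 z hz1 y) = z * c2 y := by
    intro y
    rw [← co_e2, ← co_e2, rotE_apply, co_cm hJ0]
  have hmp := sg_inv (rotE hJ0 z hz1)
  have h3 := hmp.integral_comp (rotE hJ0 z hz1).toHomeomorph.measurableEmbedding
    (fun y => Complex.exp (-((⟪x, y⟫ : ℝ) : ℂ) * I) * (F (cm J (c2 y) ζ) * c2 y ^ (m - 1)))
  have h4 : ∀ y, Complex.exp (-((⟪x, rotE hJ0 z hz1 y⟫ : ℝ) : ℂ) * I) *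
      (F (cm J (c2 (rotE hJ0 z hz1 y)) ζ) * c2 (rotE hJ0 z hz1 y) ^ (m - 1)) =
      z ^ (m - 1) * (F (cm J (c2 y) (cm J z ζ)) * c2 y ^ (m - 1) *
        Complex.exp (-((‖x‖ * y 0 : ℝ) : ℂ) * I)) := by
    intro y
    have h5 : (⟪x, rotE hJ0 z hz1 y⟫ : ℝ) = ‖x‖ * y 0 := by
      have h6 : x = rotE hJ0 z hz1 (‖x‖ • e2) := by
        have h7 : ∀ u v : E 2, c2 u = c2 v → u = v := by
          intro u v huv
          have hr := congrArg Complex.re huv
          have hi := congrArg Complex.im huv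
          simp [c2] at hr hi
          ext i
          fin_cases i
          · exact hr
          · exact hi
        apply h7
        rw [hc2rot, hcx]
        have : c2 (‖x‖ • e2) = (‖x‖ : ℂ) := by
          simp [c2, e2]
        rw [this, mul_comm]
      conv_lhs => rw [h6]
      rw [LinearIsometryEquiv.inner_map_map, real_inner_smul_left]
      congr 1
      simp [e2, PiLp.inner_apply]
    rw [h5, hc2rot, cm_cm hJ, mul_pow, mul_comm z (c2 y)]
    ring
  simp_rw [h4] at h3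
  rw [integral_const_mul] at h3
  have h5 : T (fun y => F (cm J (c2 y) ζ) * c2 y ^ (m - 1)) x = z ^ (m - 1) *
      ∫ y, F (cm J (c2 y) (cm J z ζ)) * c2 y ^ (m - 1) *
        Complex.exp (-((‖x‖ * y 0 : ℝ) : ℂ) * I) ∂(sg 2) := by
    rw [h3]
    rfl
  have h6 := congrArg norm h1
  rw [norm_mul, norm_mul, norm_pow, norm_pow] at h6
  have h7 : ‖bb ‖x‖‖ = ‖x‖ / 2 := by
    unfold bb
    rw [norm_mul, norm_neg, Complex.norm_I, mul_one, Complex.norm_real,
      Real.norm_of_nonneg (by positivity)]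
  have h8 : ‖(Real.pi : ℂ)‖ = Real.pi := by
    rw [Complex.norm_real, Real.norm_of_nonneg Real.pi_pos.le]
  rw [h7, h8] at h6
  rw [h6, h5, norm_mul, norm_pow, hz1, one_pow, one_mul]

end

end Pool.Agent.Y251.HR
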