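import Mathlib
import Pool.Agent.H789R2.FR.L2
set_option autoImplicit false

/-! A weighted `L^2` identity and Schur's test for superpositions of plane waves. -/

namespace Pool.Agent.Y251.HR

open MeasureTheory Set Complex Metric
open scoped ENNReal RealInnerProductSpace ComplexConjugate NNReal
open Pool.Agent.H789R2.FR (E sg sg_finite sg_ae sg_inv T)
open Pool.Agent.H789R2.FR.L2

variable {n : ℕ} {Ω : Type*} [MeasurableSpace Ω]

/-- the Gaussian kernel on the frequency side -/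
noncomputable def gk (l : ℝ) (v : E n) : ℝ := Real.exp (-(l ^ 2 / 2 / 2) * ‖v‖ ^ 2)

theorem gk_pos (l : ℝ) (v : E n) : 0 < gk l v := Real.exp_pos _

theorem gk_le (l : ℝ) (v : E n) : gk l v ≤ 1 := by
  unfold gk
  rw [Real.exp_le_one_iff]
  have : 0 ≤ (l ^ 2 / 2 / 2) * ‖v‖ ^ 2 := by positivity
  linarith

theorem gk_cont (l : ℝ) : Continuous (gk l : E n → ℝ) := by
  unfold gk
  fun_prop

theorem gk_neg (l : ℝ) (u v : E n) : gk l (u - v) = gk l (v - u) := by
  unfold gk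
  rw [norm_sub_rev]

/-- the Fourier transform of the Gaussian weight -/
theorem K_eq {l : ℝ} (hl : 0 < l) (v : E n) :
    ∫ x, ((W l x : ℝ) : ℂ) * ph x v =
      (((Real.pi * l ^ 2) ^ ((n : ℝ) / 2) * gk l v : ℝ) : ℂ) := by
  have hl2 : (0 : ℝ) < l ^ 2 := by positivity
  have hb : 0 < ((1 / l ^ 2 : ℝ) : ℂ).re := by
    rw [Complex.ofReal_re]
    positivity
  have h := GaussianFourier.integral_cexp_neg_mul_sq_norm_add hb (-I) v
  have h1 : ∀ x : E n, ((W l x : ℝ) : ℂ) * ph x v =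
      cexp (-((1 / l ^ 2 : ℝ) : ℂ) * (‖x‖ : ℂ) ^ 2 + -I * (⟪v, x⟫ : ℝ)) := by
    intro x
    unfold W ph
    rw [Complex.ofReal_exp, ← Complex.exp_add, real_inner_comm]
    congr 1
    push_cast
    ring
  rw [integral_congr_ae (Filter.Eventually.of_forall h1), h, Complex.ofReal_mul]
  congr 1
  · rw [show ((Real.pi : ℂ) / ((1 / l ^ 2 : ℝ) : ℂ)) = ((Real.pi * l ^ 2 : ℝ) : ℂ) by
      push_cast
      field_simp]
    rw [Complex.ofReal_cpow (by positivity), finrank_euclideanSpace, Fintype.card_fin]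
    congr 1
    push_cast
    ring
  · unfold gk
    rw [Complex.ofReal_exp]
    congr 1
    push_cast
    have hlc : (l : ℂ) ≠ 0 := by exact_mod_cast hl.ne'
    rw [neg_sq, Complex.I_sq]
    field_simp
    ring

/-- the weighted `L^2` norm of a superposition of plane waves -/
theorem l2_eq (ν : Measure Ω) [IsFiniteMeasure ν] (Φ : Ω → E n) (hΦ : Measurable Φ) (H : Ω → ℂ)
    (hH : Measurable H) (M : ℝ) (hM : ∀ x, ‖H x‖ ≤ M) {l : ℝ} (hl : 0 < l) :
    ((∫ x, W l x * ‖∫ ω, ph x (Φ ω) * H ω ∂ν‖ ^ 2 : ℝ) : ℂ) =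
      ∫ p : Ω × Ω, (((Real.pi * l ^ 2) ^ ((n : ℝ) / 2) * gk l (Φ p.1 - Φ p.2) : ℝ) : ℂ) *
        (H p.1 * conj (H p.2)) ∂(ν.prod ν) := by
  by_cases hne : Nonempty Ω
  swap
  · have h0 : ν = 0 := by
      have : IsEmpty Ω := not_nonempty_iff.1 hne
      exact Subsingleton.elim _ _
    simp [h0]
  obtain ⟨ω0⟩ := hne
  have hM0 : 0 ≤ M := (norm_nonneg _).trans (hM ω0)
  let F : E n → Ω × Ω → ℂ := fun x p =>
    ((W l x : ℝ) : ℂ) * ((ph x (Φ p.1) * H p.1) * conj (ph x (Φ p.2) * H p.2))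
  have hFm : Measurable (Function.uncurry F) := by
    have h1 : Measurable fun q : E n × (Ω × Ω) => ((W l q.1 : ℝ) : ℂ) :=
      Complex.measurable_ofReal.comp ((continuous_W l).measurable.comp measurable_fst)
    have h2 : Measurable fun q : E n × (Ω × Ω) => ph q.1 (Φ q.2.1) * H q.2.1 :=
      (continuous_ph.measurable.comp (measurable_fst.prodMk
        (hΦ.comp (measurable_fst.comp measurable_snd)))).mul
        (hH.comp (measurable_fst.comp measurable_snd))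
    have h3 : Measurable fun q : E n × (Ω × Ω) => ph q.1 (Φ q.2.2) * H q.2.2 :=
      (continuous_ph.measurable.comp (measurable_fst.prodMk
        (hΦ.comp (measurable_snd.comp measurable_snd)))).mul
        (hH.comp (measurable_snd.comp measurable_snd))
    exact h1.mul (h2.mul (Complex.continuous_conj.measurable.comp h3))
  have hFb : ∀ x p, ‖F x p‖ ≤ W l x * M ^ 2 := by
    intro x p
    simp only [F, norm_mul, norm_ph, one_mul, RCLike.norm_conj, Complex.norm_real, Real.norm_eq_abs,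
      abs_of_pos (W_pos l x)]
    apply mul_le_mul_of_nonneg_left _ (W_pos l x).le
    rw [sq]
    exact mul_le_mul (hM _) (hM _) (norm_nonneg _) hM0
  have hFi : Integrable (Function.uncurry F) (volume.prod (ν.prod ν)) := by
    have h1 : Integrable (fun q : E n × (Ω × Ω) => W l q.1 * (fun _ => M ^ 2) q.2)
        (volume.prod (ν.prod ν)) :=
      (integrable_W hl).mul_prod (integrable_const (M ^ 2))
    exact h1.mono' hFm.aestronglyMeasurable (Filter.Eventually.of_forall fun q => hFb q.1 q.2)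
  have h1 : ((∫ x, W l x * ‖∫ ω, ph x (Φ ω) * H ω ∂ν‖ ^ 2 : ℝ) : ℂ) =
      ∫ x, ∫ p, F x p ∂(ν.prod ν) := by
    rw [← integral_complex_ofReal]
    apply integral_congr_ae
    refine Filter.Eventually.of_forall fun x => ?_
    simp only [F]
    rw [integral_const_mul, integral_prod_mul (fun w => ph x (Φ w) * H w)
      (fun w => conj (ph x (Φ w) * H w)), integral_conj, Complex.mul_conj,
      Complex.normSq_eq_norm_sq]
    push_cast
    rfl
  have h2 : ∫ x, ∫ p, F x p ∂(ν.prod ν) = ∫ p, (∫ x, F x p) ∂(ν.prod ν) :=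
    integral_integral_swap hFi
  rw [h1, h2]
  refine integral_congr_ae (Filter.Eventually.of_forall fun p => ?_)
  have h4 : ∀ x, F x p = (((W l x : ℝ) : ℂ) * ph x (Φ p.1 - Φ p.2)) *
      (H p.1 * conj (H p.2)) := by
    intro x
    simp only [F]
    rw [← ph_mul_conj, map_mul]
    ring
  simp only
  rw [integral_congr_ae (Filter.Eventually.of_forall h4), integral_mul_const, K_eq hl]

theorem gk_int (ν : Measure Ω) [IsFiniteMeasure ν] (Φ : Ω → E n) (hΦ : Measurable Φ) (l : ℝ)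
    (u : Ω × Ω → ℝ) (hu : Measurable u) (M : ℝ) (hM : ∀ p, |u p| ≤ M) :
    Integrable (fun p : Ω × Ω => u p * gk l (Φ p.1 - Φ p.2)) (ν.prod ν) := by
  refine Integrable.of_bound (hu.mul ((gk_cont l).measurable.comp
    ((hΦ.comp measurable_fst).sub (hΦ.comp measurable_snd)))).aestronglyMeasurable M
    (Filter.Eventually.of_forall fun p => ?_)
  rw [norm_mul, Real.norm_eq_abs, Real.norm_eq_abs, abs_of_pos (gk_pos l _)]
  calc |u p| * gk l (Φ p.1 - Φ p.2) ≤ M * 1 :=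
        mul_le_mul (hM p) (gk_le l _) (gk_pos l _).le ((abs_nonneg _).trans (hM p))
    _ = M := mul_one _

/-- Schur's test -/
theorem schur (ν : Measure Ω) [IsFiniteMeasure ν] (Φ : Ω → E n) (hΦ : Measurable Φ) (H : Ω → ℂ)
    (hH : Measurable H) (M : ℝ) (hM : ∀ x, ‖H x‖ ≤ M) {l : ℝ} (hl : 0 < l) :
    ∫ x, W l x * ‖∫ ω, ph x (Φ ω) * H ω ∂ν‖ ^ 2 ≤
      (Real.pi * l ^ 2) ^ ((n : ℝ) / 2) *
        ∫ ω, ‖H ω‖ ^ 2 * (∫ ω', gk l (Φ ω - Φ ω') ∂ν) ∂ν := by
  set P : ℝ := (Real.pi * l ^ 2) ^ ((n : ℝ) / 2) with hP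
  have hP0 : 0 ≤ P := by positivity
  have h1 := l2_eq ν Φ hΦ H hH M hM hl
  have hint1 : Integrable (fun p : Ω × Ω => ‖H p.1‖ ^ 2 * gk l (Φ p.1 - Φ p.2)) (ν.prod ν) :=
    gk_int ν Φ hΦ l _ ((hH.comp measurable_fst).norm.pow_const 2) (M ^ 2) (fun p => by
      rw [abs_of_nonneg (by positivity)]
      exact pow_le_pow_left₀ (norm_nonneg _) (hM _) 2)
  have hint2 : Integrable (fun p : Ω × Ω => ‖H p.2‖ ^ 2 * gk l (Φ p.1 - Φ p.2)) (ν.prod ν) :=
    gk_int ν Φ hΦ l _ ((hH.comp measurable_snd).norm.pow_const 2) (M ^ 2) (fun p => by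
      rw [abs_of_nonneg (by positivity)]
      exact pow_le_pow_left₀ (norm_nonneg _) (hM _) 2)
  have hI : ∫ p : Ω × Ω, ‖H p.1‖ ^ 2 * gk l (Φ p.1 - Φ p.2) ∂(ν.prod ν) =
      ∫ ω, ‖H ω‖ ^ 2 * (∫ ω', gk l (Φ ω - Φ ω') ∂ν) ∂ν := by
    rw [integral_prod _ hint1]
    apply integral_congr_ae
    refine Filter.Eventually.of_forall fun w => ?_
    simp only
    rw [integral_const_mul]
  have hI2 : ∫ p : Ω × Ω, ‖H p.2‖ ^ 2 * gk l (Φ p.1 - Φ p.2) ∂(ν.prod ν) =
      ∫ ω, ‖H ω‖ ^ 2 * (∫ ω', gk l (Φ ω - Φ ω') ∂ν) ∂ν := by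
    rw [← hI, ← integral_prod_swap]
    apply integral_congr_ae
    refine Filter.Eventually.of_forall fun p => ?_
    simp only [Prod.fst_swap, Prod.snd_swap]
    rw [gk_neg]
  calc ∫ x, W l x * ‖∫ ω, ph x (Φ ω) * H ω ∂ν‖ ^ 2
      ≤ ‖((∫ x, W l x * ‖∫ ω, ph x (Φ ω) * H ω ∂ν‖ ^ 2 : ℝ) : ℂ)‖ := by
        rw [Complex.norm_real]
        exact le_abs_self _
    _ ≤ ∫ p : Ω × Ω, ‖((P * gk l (Φ p.1 - Φ p.2) : ℝ) : ℂ) * (H p.1 * conj (H p.2))‖
          ∂(ν.prod ν) := by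
        rw [h1]
        exact norm_integral_le_integral_norm _
    _ ≤ ∫ p : Ω × Ω, ((P / 2) * (‖H p.1‖ ^ 2 * gk l (Φ p.1 - Φ p.2)) +
          (P / 2) * (‖H p.2‖ ^ 2 * gk l (Φ p.1 - Φ p.2))) ∂(ν.prod ν) := by
        apply integral_mono_of_nonneg
        · exact Filter.Eventually.of_forall fun p => norm_nonneg _
        · exact (hint1.const_mul _).add (hint2.const_mul _)
        · refine Filter.Eventually.of_forall fun p => ?_
          simp only
          have h5 := gk_pos l (Φ p.1 - Φ p.2)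
          rw [norm_mul, norm_mul, RCLike.norm_conj, Complex.norm_real,
            Real.norm_of_nonneg (by positivity)]
          have h6 : 0 ≤ P * gk l (Φ p.1 - Φ p.2) := by positivity
          nlinarith [mul_nonneg h6 (sq_nonneg (‖H p.1‖ - ‖H p.2‖))]
    _ = P * ∫ ω, ‖H ω‖ ^ 2 * (∫ ω', gk l (Φ ω - Φ ω') ∂ν) ∂ν := by
        rw [integral_add (hint1.const_mul _) (hint2.const_mul _), integral_const_mul,
          integral_const_mul, hI, hI2]
        ring

/-- the case `H = 1` -/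
theorem l2_one (ν : Measure Ω) [IsFiniteMeasure ν] (Φ : Ω → E n) (hΦ : Measurable Φ)
    {l : ℝ} (hl : 0 < l) :
    (Real.pi * l ^ 2) ^ ((n : ℝ) / 2) * ∫ ω, (∫ ω', gk l (Φ ω - Φ ω') ∂ν) ∂ν =
      ∫ x, W l x * ‖∫ ω, ph x (Φ ω) ∂ν‖ ^ 2 := by
  have h1 := l2_eq ν Φ hΦ (fun _ => 1) measurable_const 1 (fun _ => by simp) hl
  simp only [mul_one, map_one] at h1
  rw [integral_complex_ofReal] at h1
  have h2 : ∫ x, W l x * ‖∫ ω, ph x (Φ ω) ∂ν‖ ^ 2 =
      ∫ p : Ω × Ω, (Real.pi * l ^ 2) ^ ((n : ℝ) / 2) * gk l (Φ p.1 - Φ p.2) ∂(ν.prod ν) := by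
    exact_mod_cast h1
  rw [h2, integral_const_mul]
  congr 1
  have hint : Integrable (fun p : Ω × Ω => gk l (Φ p.1 - Φ p.2)) (ν.prod ν) := by
    have := gk_int ν Φ hΦ l (fun _ => 1) measurable_const 1 (fun _ => by simp)
    simpa using this
  rw [integral_prod _ hint]

end Pool.Agent.Y251.HR
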