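import Mathlib
import Pool.Agent.Y251.HR.B1
set_option autoImplicit false

/-! The majorant principle for `L^4`. -/

namespace Pool.Agent.Y251.HR

open MeasureTheory Set Complex Metric
open scoped ENNReal RealInnerProductSpace ComplexConjugate NNReal
open Pool.Agent.H789R2.FR (E sg sg_finite sg_ae sg_inv T)
open Pool.Agent.H789R2.FR.L2

variable {n : ℕ}

theorem ph_add_right (x u w : E n) : ph x (u + w) = ph x u * ph x w := by
  unfold ph
  rw [← Complex.exp_add, inner_add_right]
  congr 1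
  push_cast
  ring

/-- the square of the extension as an integral over pairs -/
theorem T_sq (g : E n → ℂ) (x : E n) :
    T g x ^ 2 = ∫ p : E n × E n, ph x (p.1 + p.2) * (g p.1 * g p.2) ∂((sg n).prod (sg n)) := by
  have hfin := sg_finite n
  rw [sq, T_eq, ← integral_prod_mul]
  refine integral_congr_ae (Filter.Eventually.of_forall fun p => ?_)
  simp only
  rw [ph_add_right]
  ring

noncomputable def QQ (l : ℝ) (p : E n × E n) : ℝ :=
  ∫ q : E n × E n, gk l ((p.1 + p.2) - (q.1 + q.2)) ∂((sg n).prod (sg n))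

noncomputable def NN (l : ℝ) (y : E n) : ℝ := ∫ z, QQ l (y, z) ∂(sg n)

theorem QQ_cont_meas (l : ℝ) : StronglyMeasurable (QQ l : E n × E n → ℝ) := by
  have hfin := sg_finite n
  unfold QQ
  have h : Continuous fun r : (E n × E n) × (E n × E n) =>
      gk l ((r.1.1 + r.1.2) - (r.2.1 + r.2.2)) := (gk_cont l).comp (by fun_prop)
  exact h.measurable.stronglyMeasurable.integral_prod_right

theorem QQ_nonneg (l : ℝ) (p : E n × E n) : 0 ≤ QQ l p :=
  integral_nonneg fun _ => (gk_pos l _).le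

theorem QQ_le (l : ℝ) (p : E n × E n) : QQ l p ≤ ((sg n).prod (sg n)).real univ := by
  have hfin := sg_finite n
  have h := norm_integral_le_of_norm_le_const (μ := (sg n).prod (sg n))
    (f := fun q : E n × E n => gk l ((p.1 + p.2) - (q.1 + q.2))) (C := 1)
    (Filter.Eventually.of_forall fun q => by
      rw [Real.norm_of_nonneg (gk_pos l _).le]
      exact gk_le l _)
  rw [one_mul] at h
  exact (le_abs_self _).trans h

theorem QQ_rot (l : ℝ) (U : E n ≃ₗᵢ[ℝ] E n) (y z : E n) : QQ l (U y, U z) = QQ l (y, z) := by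
  have hfin := sg_finite n
  unfold QQ
  have hmp : MeasurePreserving (fun q : E n × E n => (U q.1, U q.2)) ((sg n).prod (sg n))
      ((sg n).prod (sg n)) := (sg_inv U).prod (sg_inv U)
  have hemb : MeasurableEmbedding (fun q : E n × E n => (U q.1, U q.2)) :=
    (MeasurableEquiv.prodCongr U.toHomeomorph.toMeasurableEquiv
      U.toHomeomorph.toMeasurableEquiv).measurableEmbedding
  rw [← hmp.integral_comp hemb]
  refine integral_congr_ae (Filter.Eventually.of_forall fun q => ?_)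
  simp only
  unfold gk
  rw [← map_add, ← map_add, ← map_sub, LinearIsometryEquiv.norm_map]

theorem NN_rot (l : ℝ) (U : E n ≃ₗᵢ[ℝ] E n) (y : E n) : NN l (U y) = NN l y := by
  unfold NN
  rw [← (sg_inv U).integral_comp U.toHomeomorph.measurableEmbedding]
  refine integral_congr_ae (Filter.Eventually.of_forall fun z => ?_)
  simp only
  exact QQ_rot l U y z

theorem NN_const (l : ℝ) (y y' : E n) (hy : ‖y‖ = 1) (hy' : ‖y'‖ = 1) : NN l y = NN l y' := by
  set U : E n ≃ₗᵢ[ℝ] E n := (ℝ ∙ (y - y'))ᗮ.reflection with hU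
  have hUy : U y = y' := Submodule.reflection_sub (by rw [hy, hy'])
  rw [← hUy, NN_rot]

theorem QQ_int (l : ℝ) (u : E n × E n → ℝ) (hu : Measurable u) (M : ℝ) (hM : ∀ p, |u p| ≤ M) :
    Integrable (fun p : E n × E n => u p * QQ l p) ((sg n).prod (sg n)) := by
  have hfin := sg_finite n
  refine Integrable.of_bound (hu.stronglyMeasurable.mul (QQ_cont_meas l)).aestronglyMeasurable
    (M * ((sg n).prod (sg n)).real univ) (Filter.Eventually.of_forall fun p => ?_)
  rw [norm_mul, Real.norm_eq_abs, Real.norm_of_nonneg (QQ_nonneg l p)]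
  exact mul_le_mul (hM p) (QQ_le l p) (QQ_nonneg l p) ((abs_nonneg _).trans (hM p))

/-- **Majorant principle.** -/
theorem four (g : E n → ℂ) (hg : Measurable g) (M : ℝ) (hM : ∀ x, ‖g x‖ ≤ M) {l : ℝ}
    (hl : 0 < l) : (sg n).real univ * ∫ x, W l x * ‖T g x‖ ^ 4 ≤
      (∫ w, ‖g w‖ ^ 4 ∂(sg n)) * ∫ x, W l x * ‖T (fun _ : E n => (1 : ℂ)) x‖ ^ 4 := by
  have hfin := sg_finite n
  have hM0 : 0 ≤ M := (norm_nonneg _).trans (hM 0)
  set ν := (sg n).prod (sg n) with hν
  set Φ : E n × E n → E n := fun p => p.1 + p.2 with hΦ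
  have hΦm : Measurable Φ := by fun_prop
  set P : ℝ := (Real.pi * l ^ 2) ^ ((n : ℝ) / 2) with hP
  have hP0 : 0 ≤ P := by positivity
  have hHm : Measurable fun p : E n × E n => g p.1 * g p.2 :=
    (hg.comp measurable_fst).mul (hg.comp measurable_snd)
  have hHb : ∀ p : E n × E n, ‖g p.1 * g p.2‖ ≤ M * M := by
    intro p
    rw [norm_mul]
    exact mul_le_mul (hM _) (hM _) (norm_nonneg _) hM0
  have h1 := schur ν Φ hΦm (fun p => g p.1 * g p.2) hHm (M * M) hHb hl
  have e1 : ∫ x, W l x * ‖∫ ω, ph x (Φ ω) * (g ω.1 * g ω.2) ∂ν‖ ^ 2 =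
      ∫ x, W l x * ‖T g x‖ ^ 4 := by
    refine integral_congr_ae (Filter.Eventually.of_forall fun x => ?_)
    simp only
    rw [hΦ, hν]
    simp only
    rw [← T_sq, norm_pow, ← pow_mul]
  have e2 : ∫ x, W l x * ‖∫ ω, ph x (Φ ω) ∂ν‖ ^ 2 =
      ∫ x, W l x * ‖T (fun _ : E n => (1 : ℂ)) x‖ ^ 4 := by
    refine integral_congr_ae (Filter.Eventually.of_forall fun x => ?_)
    simp only
    have h2 := T_sq (fun _ : E n => (1 : ℂ)) x
    simp only [mul_one] at h2
    rw [hΦ, hν]
    simp only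
    rw [← h2, norm_pow, ← pow_mul]
  have h2 := l2_one ν Φ hΦm hl
  rw [e2] at h2
  rw [e1] at h1
  have e3 : ∀ ω : E n × E n, ∫ ω', gk l (Φ ω - Φ ω') ∂ν = QQ l ω := fun ω => rfl
  simp_rw [e3] at h1 h2
  -- the average of `NN`
  have hQi : Integrable (QQ l : E n × E n → ℝ) ν := by
    have := QQ_int (n := n) l (fun _ => 1) measurable_const 1 (fun _ => by simp)
    simpa using this
  have e4 : ∫ ω, QQ l ω ∂ν = ∫ y, NN l y ∂(sg n) := by
    rw [hν, integral_prod _ hQi]
    rfl
  rw [e4] at h2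
  -- the bound for the quadratic form
  have hgi4 : ∀ i : E n × E n → E n, Measurable i →
      Integrable (fun p : E n × E n => ‖g (i p)‖ ^ 4 * QQ l p) ν := by
    intro i hi
    refine QQ_int l _ ((hg.comp hi).norm.pow_const 4) (M ^ 4) fun p => ?_
    rw [abs_of_nonneg (by positivity)]
    exact pow_le_pow_left₀ (norm_nonneg _) (hM _) 4
  have e5 : ∫ ω : E n × E n, ‖g ω.1 * g ω.2‖ ^ 2 * QQ l ω ∂ν ≤
      ∫ y, ‖g y‖ ^ 4 * NN l y ∂(sg n) := by
    have e6 : ∫ ω : E n × E n, ‖g ω.1‖ ^ 4 * QQ l ω ∂ν = ∫ y, ‖g y‖ ^ 4 * NN l y ∂(sg n) := by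
      rw [hν, integral_prod _ (hgi4 _ measurable_fst)]
      refine integral_congr_ae (Filter.Eventually.of_forall fun y => ?_)
      simp only
      rw [integral_const_mul]
      rfl
    have e7 : ∫ ω : E n × E n, ‖g ω.2‖ ^ 4 * QQ l ω ∂ν = ∫ ω : E n × E n, ‖g ω.1‖ ^ 4 * QQ l ω ∂ν := by
      rw [hν, ← integral_prod_swap]
      refine integral_congr_ae (Filter.Eventually.of_forall fun p => ?_)
      simp only [Prod.fst_swap, Prod.snd_swap]
      congr 1
      unfold QQ
      simp only [Prod.fst_swap, Prod.snd_swap]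
      refine integral_congr_ae (Filter.Eventually.of_forall fun q => ?_)
      simp only
      rw [add_comm p.2 p.1]
    calc ∫ ω : E n × E n, ‖g ω.1 * g ω.2‖ ^ 2 * QQ l ω ∂ν
        ≤ ∫ ω : E n × E n, ((1 / 2) * (‖g ω.1‖ ^ 4 * QQ l ω) +
            (1 / 2) * (‖g ω.2‖ ^ 4 * QQ l ω)) ∂ν := by
          apply integral_mono_of_nonneg
          · exact Filter.Eventually.of_forall fun p => mul_nonneg (by positivity) (QQ_nonneg l p)
          · exact ((hgi4 _ measurable_fst).const_mul _).add ((hgi4 _ measurable_snd).const_mul _)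
          · refine Filter.Eventually.of_forall fun p => ?_
            simp only
            rw [norm_mul]
            have h6 := QQ_nonneg l p
            have h7 : (‖g p.1‖ * ‖g p.2‖) ^ 2 ≤ (1 / 2) * ‖g p.1‖ ^ 4 + (1 / 2) * ‖g p.2‖ ^ 4 := by
              nlinarith [sq_nonneg (‖g p.1‖ ^ 2 - ‖g p.2‖ ^ 2)]
            calc (‖g p.1‖ * ‖g p.2‖) ^ 2 * QQ l p
                ≤ ((1 / 2) * ‖g p.1‖ ^ 4 + (1 / 2) * ‖g p.2‖ ^ 4) * QQ l p := by gcongr
              _ = _ := by ring
      _ = ∫ y, ‖g y‖ ^ 4 * NN l y ∂(sg n) := by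
          rw [integral_add ((hgi4 _ measurable_fst).const_mul _)
            ((hgi4 _ measurable_snd).const_mul _), integral_const_mul, integral_const_mul, e7, e6]
          ring
  by_cases hS : ∃ y0 : E n, ‖y0‖ = 1
  · obtain ⟨y0, hy0⟩ := hS
    have e8 : ∫ y, NN l y ∂(sg n) = (sg n).real univ * NN l y0 := by
      have : ∫ y, NN l y ∂(sg n) = ∫ _y, NN l y0 ∂(sg n) := by
        refine integral_congr_ae ?_
        filter_upwards [sg_ae n] with y hy
        exact NN_const l y y0 hy hy0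
      rw [this, integral_const, smul_eq_mul]
    have e9 : ∫ y, ‖g y‖ ^ 4 * NN l y ∂(sg n) = (∫ y, ‖g y‖ ^ 4 ∂(sg n)) * NN l y0 := by
      rw [← integral_mul_const]
      refine integral_congr_ae ?_
      filter_upwards [sg_ae n] with y hy
      rw [NN_const l y y0 hy hy0]
    rw [e8] at h2
    rw [e9] at e5
    calc (sg n).real univ * ∫ x, W l x * ‖T g x‖ ^ 4
        ≤ (sg n).real univ * (P * ((∫ y, ‖g y‖ ^ 4 ∂(sg n)) * NN l y0)) := by
          gcongr
          exact h1.trans (by gcongr)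
      _ = (∫ y, ‖g y‖ ^ 4 ∂(sg n)) * (P * ((sg n).real univ * NN l y0)) := by ring
      _ = _ := by rw [h2]
  · have h0 : sg n = 0 := by
      have h3 := sg_ae n
      rw [ae_iff] at h3
      have h4 : {a : E n | ¬‖a‖ = 1} = univ := by
        ext a
        simp only [mem_setOf_eq, mem_univ, iff_true]
        exact fun h => hS ⟨a, h⟩
      rw [h4] at h3
      exact Measure.measure_univ_eq_zero.1 h3
    simp [h0]

end Pool.Agent.Y251.HR
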