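import Mathlib
import Pool.Agent.Y251.HR.B2
import Pool.Agent.H789R2.FR.Smooth
set_option autoImplicit false

/-! The planar `L^4` estimate. -/

namespace Pool.Agent.Y251.HR

open MeasureTheory Set Complex Metric
open scoped ENNReal RealInnerProductSpace ComplexConjugate NNReal
open Pool.Agent.H789R2.FR (E sg sg_finite sg_ae sg_inv T decay)
open Pool.Agent.H789R2.FR.L2

theorem exp_le_pow (a s : ℝ) (ha : 0 < a) (ha1 : a ≤ 1) (hs : 0 < s) :
    Real.exp (-s) ≤ s ^ (-a) := by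
  rw [Real.rpow_neg hs.le, ← one_div, le_div_iff₀ (by positivity)]
  rcases le_total s 1 with h | h
  · calc Real.exp (-s) * s ^ a ≤ 1 * 1 := by
          apply mul_le_mul _ (Real.rpow_le_one hs.le h ha.le) (by positivity) zero_le_one
          rw [Real.exp_le_one_iff]
          linarith
      _ = 1 := one_mul _
  · calc Real.exp (-s) * s ^ a ≤ Real.exp (-s) * s := by
          gcongr
          calc s ^ a ≤ s ^ (1 : ℝ) := Real.rpow_le_rpow_of_exponent_le h ha1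
            _ = s := Real.rpow_one _
      _ ≤ Real.exp (-s) * Real.exp s := by
          gcongr
          linarith [Real.add_one_le_exp s]
      _ = 1 := by rw [← Real.exp_add]; simp

/-- pointwise bound -/
theorem one_pt (δ : ℝ) (hδ : 0 < δ) (hδ1 : δ ≤ 1) : ∃ C : ℝ, 0 < C ∧ ∀ l : ℝ, 1 ≤ l → ∀ x : E 2,
    W l x * ‖T (fun _ : E 2 => (1 : ℂ)) x‖ ^ 4 ≤ C * l ^ δ * (1 + ‖x‖) ^ (-(2 + δ)) := by
  obtain ⟨C, hC, hdec⟩ := decay 2 le_rfl
  have hfin := sg_finite 2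
  set A := (sg 2).real univ with hA
  have hA0 : 0 ≤ A := by positivity
  refine ⟨8 * (A ^ 4 + C ^ 4), by positivity, fun l hl x => ?_⟩
  have hl0 : 0 < l := by linarith
  have hld : 1 ≤ l ^ δ := Real.one_le_rpow hl hδ.le
  have hW1 : W l x ≤ 1 := by
    unfold W
    rw [Real.exp_le_one_iff]
    rw [neg_div]
    have : 0 ≤ ‖x‖ ^ 2 / l ^ 2 := by positivity
    linarith
  rcases le_total ‖x‖ 1 with h | h
  · have h1 : ‖T (fun _ : E 2 => (1 : ℂ)) x‖ ≤ A := by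
      have := norm_T_le (fun _ : E 2 => (1 : ℂ)) 1 (fun _ => by simp) x
      simpa using this
    have h2 : (2 : ℝ) ^ (-(3 : ℝ)) ≤ (1 + ‖x‖) ^ (-(2 + δ)) := by
      have h3 : (1 + ‖x‖) ^ (2 + δ) ≤ (2 : ℝ) ^ (3 : ℝ) := by
        calc (1 + ‖x‖) ^ (2 + δ) ≤ (2 : ℝ) ^ (2 + δ) :=
              Real.rpow_le_rpow (by positivity) (by linarith) (by linarith)
          _ ≤ (2 : ℝ) ^ (3 : ℝ) :=
              Real.rpow_le_rpow_of_exponent_le (by norm_num) (by linarith)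
      rw [Real.rpow_neg (by norm_num), Real.rpow_neg (by positivity)]
      exact inv_anti₀ (by positivity) h3
    have h4 : (2 : ℝ) ^ (-(3 : ℝ)) = 1 / 8 := by
      rw [Real.rpow_neg (by norm_num)]
      norm_num
    rw [h4] at h2
    calc W l x * ‖T (fun _ : E 2 => (1 : ℂ)) x‖ ^ 4 ≤ 1 * A ^ 4 := by
          gcongr
      _ = 8 * A ^ 4 * 1 * (1 / 8) := by ring
      _ ≤ 8 * (A ^ 4 + C ^ 4) * l ^ δ * (1 + ‖x‖) ^ (-(2 + δ)) := by
          gcongr
          have : 0 ≤ C ^ 4 := by positivity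
          linarith
  · have hx0 : 0 < ‖x‖ := by linarith
    have hxne : x ≠ 0 := norm_pos_iff.1 hx0
    have h1 : ‖T (fun _ : E 2 => (1 : ℂ)) x‖ ^ 4 ≤ C ^ 4 * ‖x‖ ^ (-2 : ℝ) := by
      have h2 := hdec x hxne
      have h3 : (-(((2 : ℕ) : ℝ) - 1) / 2) = (-(1 / 2) : ℝ) := by norm_num
      rw [h3] at h2
      calc ‖T (fun _ : E 2 => (1 : ℂ)) x‖ ^ 4 ≤ (C * ‖x‖ ^ (-(1 / 2) : ℝ)) ^ 4 := by gcongr
        _ = C ^ 4 * ‖x‖ ^ (-2 : ℝ) := by
            rw [mul_pow, ← Real.rpow_natCast (‖x‖ ^ (-(1 / 2) : ℝ)), ← Real.rpow_mul hx0.le]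
            norm_num
    have h2 : W l x ≤ l ^ δ * ‖x‖ ^ (-δ) := by
      unfold W
      rw [neg_div]
      have h3 := exp_le_pow (δ / 2) (‖x‖ ^ 2 / l ^ 2) (by linarith) (by linarith) (by positivity)
      refine h3.trans (le_of_eq ?_)
      rw [← div_pow, ← Real.rpow_natCast, ← Real.rpow_mul (by positivity),
        Real.div_rpow hx0.le hl0.le]
      have h4 : ((2 : ℕ) : ℝ) * -(δ / 2) = -δ := by push_cast; ring
      rw [h4, Real.rpow_neg hl0.le, div_inv_eq_mul, mul_comm]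
    have h5 : ‖x‖ ^ (-(2 + δ)) ≤ 8 * (1 + ‖x‖) ^ (-(2 + δ)) := by
      have h6 : (1 + ‖x‖) ^ (2 + δ) ≤ 8 * ‖x‖ ^ (2 + δ) := by
        calc (1 + ‖x‖) ^ (2 + δ) ≤ (2 * ‖x‖) ^ (2 + δ) :=
              Real.rpow_le_rpow (by positivity) (by linarith) (by linarith)
          _ = (2 : ℝ) ^ (2 + δ) * ‖x‖ ^ (2 + δ) := Real.mul_rpow (by norm_num) hx0.le
          _ ≤ (2 : ℝ) ^ (3 : ℝ) * ‖x‖ ^ (2 + δ) := by
              gcongr
              · norm_num
              · linarith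
          _ = 8 * ‖x‖ ^ (2 + δ) := by norm_num
      rw [Real.rpow_neg hx0.le, Real.rpow_neg (by positivity), ← div_eq_mul_inv,
        inv_eq_one_div, div_le_div_iff₀ (by positivity) (by positivity)]
      linarith
    calc W l x * ‖T (fun _ : E 2 => (1 : ℂ)) x‖ ^ 4
        ≤ (l ^ δ * ‖x‖ ^ (-δ)) * (C ^ 4 * ‖x‖ ^ (-2 : ℝ)) :=
          mul_le_mul h2 h1 (by positivity) (by positivity)
      _ = C ^ 4 * l ^ δ * ‖x‖ ^ (-(2 + δ)) := by
          rw [show -(2 + δ) = -δ + (-2 : ℝ) by ring, Real.rpow_add hx0]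
          ring
      _ ≤ C ^ 4 * l ^ δ * (8 * (1 + ‖x‖) ^ (-(2 + δ))) := by gcongr
      _ = 8 * C ^ 4 * l ^ δ * (1 + ‖x‖) ^ (-(2 + δ)) := by ring
      _ ≤ 8 * (A ^ 4 + C ^ 4) * l ^ δ * (1 + ‖x‖) ^ (-(2 + δ)) := by
          gcongr
          have : 0 ≤ A ^ 4 := by positivity
          linarith

theorem one_int (δ : ℝ) (hδ : 0 < δ) (hδ1 : δ ≤ 1) : ∃ C : ℝ, 0 < C ∧ ∀ l : ℝ, 1 ≤ l →
    ∫ x : E 2, W l x * ‖T (fun _ : E 2 => (1 : ℂ)) x‖ ^ 4 ≤ C * l ^ δ := by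
  obtain ⟨C, hC, h⟩ := one_pt δ hδ hδ1
  have hint : Integrable (fun x : E 2 => (1 + ‖x‖) ^ (-(2 + δ))) := by
    apply integrable_one_add_norm
    rw [finrank_euclideanSpace_fin]
    push_cast
    linarith
  set B := ∫ x : E 2, (1 + ‖x‖) ^ (-(2 + δ)) with hB
  have hB0 : 0 ≤ B := integral_nonneg fun x => by positivity
  refine ⟨C * (B + 1), by positivity, fun l hl => ?_⟩
  have hl0 : 0 < l := by linarith
  calc ∫ x : E 2, W l x * ‖T (fun _ : E 2 => (1 : ℂ)) x‖ ^ 4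
      ≤ ∫ x : E 2, C * l ^ δ * (1 + ‖x‖) ^ (-(2 + δ)) := by
        apply integral_mono_of_nonneg
        · exact Filter.Eventually.of_forall fun x => mul_nonneg (W_pos l x).le (by positivity)
        · exact hint.const_mul _
        · exact Filter.Eventually.of_forall fun x => h l hl x
    _ = C * l ^ δ * B := by rw [integral_const_mul]
    _ ≤ C * l ^ δ * (B + 1) := by gcongr; linarith
    _ = _ := by ring

theorem planar4 (δ : ℝ) (hδ : 0 < δ) (hδ1 : δ ≤ 1) : ∃ C : ℝ, 0 < C ∧ ∀ g : E 2 → ℂ,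
    Measurable g → ∀ M : ℝ, (∀ x, ‖g x‖ ≤ M) → ∀ l : ℝ, 1 ≤ l →
    ∫ x : E 2, W l x * ‖T g x‖ ^ 4 ≤ C * l ^ δ * ∫ w, ‖g w‖ ^ 4 ∂(sg 2) := by
  obtain ⟨C, hC, h⟩ := one_int δ hδ hδ1
  have hfin := sg_finite 2
  have hA : 0 < (sg 2).real univ := by
    have hne : Nontrivial (E 2) := inferInstance
    rw [measureReal_def]
    apply ENNReal.toReal_pos _ (measure_ne_top _ _)
    rw [Pool.Agent.H789R2.FR.sg_apply MeasurableSet.univ, preimage_univ, Ne, Measure.measure_univ_eq_zero]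
    exact Measure.toSphere_ne_zero _
  refine ⟨C / (sg 2).real univ, by positivity, fun g hg M hM l hl => ?_⟩
  have hl0 : 0 < l := by linarith
  have h1 := four g hg M hM hl0
  have hI0 : 0 ≤ ∫ w, ‖g w‖ ^ 4 ∂(sg 2) := integral_nonneg fun w => by positivity
  rw [← mul_le_mul_iff_right₀ hA]
  calc (sg 2).real univ * ∫ x : E 2, W l x * ‖T g x‖ ^ 4
      ≤ (∫ w, ‖g w‖ ^ 4 ∂(sg 2)) * ∫ x, W l x * ‖T (fun _ : E 2 => (1 : ℂ)) x‖ ^ 4 := h1
    _ ≤ (∫ w, ‖g w‖ ^ 4 ∂(sg 2)) * (C * l ^ δ) := by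
        gcongr
        exact h l hl
    _ = _ := by
        field_simp

/-- the form used below -/
theorem planar_ball (δ : ℝ) (hδ : 0 < δ) (hδ1 : δ ≤ 1) : ∃ C : ℝ, 0 < C ∧ ∀ g : E 2 → ℂ,
    Measurable g → ∀ M : ℝ, (∀ x, ‖g x‖ ≤ M) → ∀ R : ℝ, 1 ≤ R →
    ∫⁻ x in closedBall (0 : E 2) (2 * R), ‖T g x‖ₑ ^ 4 ≤
      ENNReal.ofReal (C * R ^ δ) * ∫⁻ w, ‖g w‖ₑ ^ 4 ∂(sg 2) := by
  obtain ⟨C, hC, h⟩ := planar4 δ hδ hδ1
  have hfin := sg_finite 2
  refine ⟨Real.exp 4 * C, by positivity, fun g hg M hM R hR => ?_⟩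
  have hR0 : 0 < R := by linarith
  have h1 := h g hg M hM R hR
  have hTm := (measurable_T g hg).measurable
  have hTb := norm_T_le g M hM
  have hint : Integrable (fun x : E 2 => W R x * ‖T g x‖ ^ 4) := by
    refine Integrable.mono' ((integrable_W hR0).mul_const ((M * (sg 2).real univ) ^ 4))
      ((continuous_W R).measurable.mul (hTm.norm.pow_const 4)).aestronglyMeasurable
      (Filter.Eventually.of_forall fun x => ?_)
    rw [Real.norm_of_nonneg (mul_nonneg (W_pos R x).le (by positivity))]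
    exact mul_le_mul_of_nonneg_left (pow_le_pow_left₀ (norm_nonneg _) (hTb x) 4) (W_pos R x).le
  have e1 : ∫⁻ w, ‖g w‖ₑ ^ 4 ∂(sg 2) = ENNReal.ofReal (∫ w, ‖g w‖ ^ 4 ∂(sg 2)) := by
    rw [ofReal_integral_eq_lintegral_ofReal]
    · refine lintegral_congr fun w => ?_
      rw [← ofReal_norm, ENNReal.ofReal_pow (norm_nonneg _)]
    · refine Integrable.of_bound (hg.norm.pow_const 4).aestronglyMeasurable (M ^ 4)
        (Filter.Eventually.of_forall fun x => ?_)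
      rw [Real.norm_of_nonneg (by positivity)]
      exact pow_le_pow_left₀ (norm_nonneg _) (hM x) 4
    · exact Filter.Eventually.of_forall fun x => by positivity
  rw [e1, ← ENNReal.ofReal_mul (by positivity)]
  calc ∫⁻ x in closedBall (0 : E 2) (2 * R), ‖T g x‖ₑ ^ 4
      ≤ ∫⁻ x in closedBall (0 : E 2) (2 * R),
          ENNReal.ofReal (Real.exp 4 * (W R x * ‖T g x‖ ^ 4)) := by
        refine setLIntegral_mono' measurableSet_closedBall fun x hx => ?_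
        rw [← ofReal_norm, ← ENNReal.ofReal_pow (norm_nonneg _)]
        apply ENNReal.ofReal_le_ofReal
        rw [mem_closedBall_zero_iff] at hx
        have h2 : 1 ≤ Real.exp 4 * W R x := by
          unfold W
          rw [← Real.exp_add, Real.one_le_exp_iff, neg_div]
          have h3 : ‖x‖ ^ 2 / R ^ 2 ≤ 4 := by
            rw [div_le_iff₀ (by positivity)]
            calc ‖x‖ ^ 2 ≤ (2 * R) ^ 2 := by gcongr
              _ = 4 * R ^ 2 := by ring
          linarith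
        calc ‖T g x‖ ^ 4 = 1 * ‖T g x‖ ^ 4 := (one_mul _).symm
          _ ≤ (Real.exp 4 * W R x) * ‖T g x‖ ^ 4 := by gcongr
          _ = _ := by ring
    _ ≤ ∫⁻ x, ENNReal.ofReal (Real.exp 4 * (W R x * ‖T g x‖ ^ 4)) := setLIntegral_le_lintegral _ _
    _ = ENNReal.ofReal (∫ x, Real.exp 4 * (W R x * ‖T g x‖ ^ 4)) := by
        rw [ofReal_integral_eq_lintegral_ofReal (hint.const_mul _)]
        exact Filter.Eventually.of_forall fun x =>
          mul_nonneg (Real.exp_pos _).le (mul_nonneg (W_pos R x).le (by positivity))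
    _ ≤ ENNReal.ofReal (Real.exp 4 * C * R ^ δ * ∫ w, ‖g w‖ ^ 4 ∂(sg 2)) := by
        apply ENNReal.ofReal_le_ofReal
        rw [integral_const_mul]
        calc Real.exp 4 * ∫ x, W R x * ‖T g x‖ ^ 4
            ≤ Real.exp 4 * (C * R ^ δ * ∫ w, ‖g w‖ ^ 4 ∂(sg 2)) := by gcongr
          _ = _ := by ring

end Pool.Agent.Y251.HR
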