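import Mathlib
import Pool.Agent.Y251.HR.A5
import Pool.Agent.Y251.HR.B3
set_option autoImplicit false

/-! The `L^4` estimate on shells for holomorphic densities. -/

namespace Pool.Agent.Y251.HR

open MeasureTheory Set Complex Metric
open scoped ENNReal RealInnerProductSpace ComplexConjugate NNReal
open Pool.Agent.H789R2.FR (E sg sg_finite sg_ae sg_inv T polar)
open Pool.Agent.H789R2.FR.L2 (measurable_T norm_T_le)

variable {n m : ℕ} {J : E n →ₗᵢ[ℝ] E n}

/-- dyadic shell -/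
def shell (n : ℕ) (R : ℝ) : Set (E n) := {x | R < ‖x‖ ∧ ‖x‖ ≤ 2 * R}

theorem shell_meas (R : ℝ) : MeasurableSet (shell n R) :=
  (measurableSet_lt measurable_const measurable_norm).inter
    (measurableSet_le measurable_norm measurable_const)

theorem norm_c2 (x : E 2) : ‖c2 x‖ = ‖x‖ := by
  have h1 : ‖c2 x‖ ^ 2 = ‖x‖ ^ 2 := by
    rw [← Complex.normSq_eq_norm_sq, Complex.normSq_apply, EuclideanSpace.norm_sq_eq]
    simp [c2]
    ring
  exact (sq_eq_sq₀ (norm_nonneg _) (norm_nonneg _)).1 h1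

theorem c2_smul (r : ℝ) (y : E 2) : c2 (r • y) = (r : ℂ) * c2 y := by
  simp [c2]
  ring

/-- averaging over circles -/
theorem circle_avg (hJ : ∀ x, J (J x) = -x) (f : E n → ℝ≥0∞) (hf : Measurable f) :
    ∫⁻ ζ, (∫⁻ y, f (cm J (c2 y) ζ) ∂(sg 2)) ∂(sg n) = sg 2 univ * ∫⁻ ζ, f ζ ∂(sg n) := by
  have hfin := sg_finite n
  have hfin2 := sg_finite 2
  have hm1 : Measurable fun p : E n × E 2 => f (cm J (c2 p.2) p.1) := by
    refine hf.comp ?_
    exact (cont_cm2.comp ((c2_cont.comp continuous_snd).prodMk continuous_fst)).measurable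
  rw [lintegral_lintegral_swap hm1.aemeasurable]
  have h1 : ∀ᵐ y ∂(sg 2), ∫⁻ ζ, f (cm J (c2 y) ζ) ∂(sg n) = ∫⁻ ζ, f ζ ∂(sg n) := by
    filter_upwards [sg_ae 2] with y hy
    have hz : ‖c2 y‖ = 1 := by rw [norm_c2, hy]
    have hmp := sg_inv (rotE hJ (c2 y) hz)
    exact hmp.lintegral_comp hf
  rw [lintegral_congr_ae h1, lintegral_const, mul_comm]

theorem shell4_aux (hJ : ∀ x, J (J x) = -x) (hn : n = 2 * m) (hm : 1 ≤ m) (ρ : ℝ) (hρ : 1 < ρ)
    {F : E n → ℂ} (h : Hol J ρ F) (hFm : Measurable F) (M : ℝ) (hFb : ∀ x, ‖F x‖ ≤ M)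
    (R : ℝ) (hR : 1 ≤ R) :
    sg 2 univ * ∫⁻ x in shell n R, ‖T F x‖ₑ ^ 4 ≤
      ENNReal.ofReal ((2 * Real.pi) ^ (4 * (m - 1)) * R ^ (-(2 * ((m : ℝ) - 1)))) *
        ∫⁻ ζ, (∫⁻ x in closedBall (0 : E 2) (2 * R),
          ‖T (fun y => F (cm J (c2 y) ζ) * c2 y ^ (m - 1)) x‖ₑ ^ 4) ∂(sg n) := by
  have hfin := sg_finite n
  have hfin2 := sg_finite 2
  have hR0 : 0 < R := by linarith
  have hn0 : 0 < n := by omega
  have hTm : Measurable (T F) := (measurable_T F hFm).measurable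
  set f : E n → ℝ≥0∞ := (shell n R).indicator fun x => ‖T F x‖ₑ ^ 4 with hf
  have hfm : Measurable f := (hTm.enorm.pow_const 4).indicator (shell_meas R)
  have h1 : ∫⁻ x in shell n R, ‖T F x‖ₑ ^ 4 = ∫⁻ x, f x := by
    rw [hf, lintegral_indicator (shell_meas R)]
  set φ : E n → ℝ≥0∞ := fun w => ∫⁻ r in Ioi (0 : ℝ), ENNReal.ofReal (r ^ (n - 1)) * f (r • w)
    with hφ
  have hφm : Measurable φ := by
    rw [hφ]
    apply Measurable.lintegral_prod_right'
      (f := fun p : E n × ℝ => ENNReal.ofReal (p.2 ^ (n - 1)) * f (p.2 • p.1))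
    refine Measurable.mul (by fun_prop) (hfm.comp ?_)
    exact (continuous_snd.smul continuous_fst).measurable
  rw [h1, polar hn0 f hfm, ← circle_avg hJ φ hφm, ← lintegral_const_mul' _ _ ENNReal.ofReal_ne_top]
  refine lintegral_mono_ae ?_
  filter_upwards [sg_ae n] with ζ hζ
  -- planar polar coordinates
  set g : E 2 → ℂ := fun y => F (cm J (c2 y) ζ) * c2 y ^ (m - 1) with hg
  have hcm : Measurable fun y : E 2 => cm J (c2 y) ζ := ((cont_cm ζ).comp c2_cont).measurable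
  have hgm : Measurable g := by
    rw [hg]
    exact (hFm.comp hcm).mul (c2_cont.measurable.pow_const _)
  have hTg : Measurable (T g) := (measurable_T g hgm).measurable
  set k : E 2 → ℝ≥0∞ := (closedBall (0 : E 2) (2 * R)).indicator fun x => ‖T g x‖ₑ ^ 4 with hk
  have hkm : Measurable k := (hTg.enorm.pow_const 4).indicator measurableSet_closedBall
  have h2 : ∫⁻ x in closedBall (0 : E 2) (2 * R), ‖T g x‖ₑ ^ 4 = ∫⁻ x, k x := by
    rw [hk, lintegral_indicator measurableSet_closedBall]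
  rw [h2, polar (n := 2) (by norm_num) k hkm, ← lintegral_const_mul' _ _ ENNReal.ofReal_ne_top]
  refine lintegral_mono_ae ?_
  filter_upwards [sg_ae 2] with y hy
  rw [hφ]
  simp only
  rw [← lintegral_const_mul' _ _ ENNReal.ofReal_ne_top]
  refine setLIntegral_mono' measurableSet_Ioi fun r hr => ?_
  have hr0 : (0 : ℝ) < r := hr
  have hcy : ‖c2 y‖ = 1 := by rw [norm_c2, hy]
  have hpt : r • cm J (c2 y) ζ = cm J (c2 (r • y)) ζ := by
    rw [c2_smul, smul_cm]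
  have hnorm : ‖r • cm J (c2 y) ζ‖ = r := by
    rw [norm_smul, norm_cm hJ, hcy, hζ, Real.norm_of_nonneg hr0.le]
    ring
  by_cases hsh : R < r ∧ r ≤ 2 * R
  · have hin : r • cm J (c2 y) ζ ∈ shell n R := by
      change R < ‖_‖ ∧ ‖_‖ ≤ 2 * R
      rw [hnorm]
      exact hsh
    have hin2 : r • y ∈ closedBall (0 : E 2) (2 * R) := by
      rw [mem_closedBall_zero_iff, norm_smul, hy, mul_one, Real.norm_of_nonneg hr0.le]
      exact hsh.2
    rw [hf, indicator_of_mem hin, hk, indicator_of_mem hin2, hpt]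
    have hry : ‖r • y‖ = r := by rw [norm_smul, hy, mul_one, Real.norm_of_nonneg hr0.le]
    have hne : r • y ≠ 0 := by
      rw [← norm_pos_iff, hry]
      exact hr0
    have h3 := T_slice2 hJ hn hm ρ hρ h hFm M hFb ζ hζ (r • y) hne
    rw [hry] at h3
    have h4 : ‖T F (cm J (c2 (r • y)) ζ)‖ = (2 * Real.pi / r) ^ (m - 1) * ‖T g (r • y)‖ := by
      have h5 : (r / 2) ^ (m - 1) * ‖T F (cm J (c2 (r • y)) ζ)‖ =
          Real.pi ^ (m - 1) * ‖T g (r • y)‖ := h3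
      have h6 : (r / 2) ^ (m - 1) ≠ 0 := by positivity
      have h7 : (2 * Real.pi / r) ^ (m - 1) = Real.pi ^ (m - 1) / (r / 2) ^ (m - 1) := by
        rw [← div_pow]
        congr 1
        field_simp
      rw [h7, div_mul_eq_mul_div, eq_div_iff h6]
      linarith
    rw [← ofReal_norm, h4, ENNReal.ofReal_mul (by positivity), ofReal_norm, mul_pow]
    have h8 : ENNReal.ofReal (r ^ (n - 1)) * ENNReal.ofReal ((2 * Real.pi / r) ^ (m - 1)) ^ 4 ≤
        ENNReal.ofReal ((2 * Real.pi) ^ (4 * (m - 1)) * R ^ (-(2 * ((m : ℝ) - 1)))) *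
          ENNReal.ofReal (r ^ (2 - 1)) := by
      rw [← ENNReal.ofReal_pow (by positivity), ← ENNReal.ofReal_mul (by positivity),
        ← ENNReal.ofReal_mul (by positivity)]
      apply ENNReal.ofReal_le_ofReal
      have h9 : R ^ (-(2 * ((m : ℝ) - 1))) = (R ^ (2 * (m - 1)))⁻¹ := by
        rw [Real.rpow_neg hR0.le, ← Real.rpow_natCast]
        congr 2
        push_cast [Nat.cast_sub hm]
        ring
      have h10 : r ^ (n - 1) = r ^ (2 * (m - 1)) * r ^ (2 - 1) := by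
        rw [← pow_add]
        congr 1
        omega
      rw [h9, h10, ← pow_mul, div_pow, mul_comm (m - 1) 4]
      have h11 : r ^ (4 * (m - 1)) = r ^ (2 * (m - 1)) * r ^ (2 * (m - 1)) := by
        rw [← pow_add]
        congr 1
        ring
      have h12 : (R ^ (2 * (m - 1))) ≤ r ^ (2 * (m - 1)) := by
        gcongr
        exact hsh.1.le
      rw [h11]
      have h13 : 0 < r ^ (2 * (m - 1)) := by positivity
      have h14 : 0 < R ^ (2 * (m - 1)) := by positivity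
      have h15 : (r ^ (2 * (m - 1)))⁻¹ ≤ (R ^ (2 * (m - 1)))⁻¹ := inv_anti₀ h14 h12
      calc r ^ (2 * (m - 1)) * r ^ (2 - 1) *
            ((2 * Real.pi) ^ (4 * (m - 1)) / (r ^ (2 * (m - 1)) * r ^ (2 * (m - 1))))
          = (2 * Real.pi) ^ (4 * (m - 1)) * (r ^ (2 * (m - 1)))⁻¹ * r ^ (2 - 1) := by
            field_simp
        _ ≤ (2 * Real.pi) ^ (4 * (m - 1)) * (R ^ (2 * (m - 1)))⁻¹ * r ^ (2 - 1) := by gcongr
    calc ENNReal.ofReal (r ^ (n - 1)) *
          (ENNReal.ofReal ((2 * Real.pi / r) ^ (m - 1)) ^ 4 * ‖T g (r • y)‖ₑ ^ 4)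
        = (ENNReal.ofReal (r ^ (n - 1)) * ENNReal.ofReal ((2 * Real.pi / r) ^ (m - 1)) ^ 4) *
            ‖T g (r • y)‖ₑ ^ 4 := by rw [mul_assoc]
      _ ≤ (ENNReal.ofReal ((2 * Real.pi) ^ (4 * (m - 1)) * R ^ (-(2 * ((m : ℝ) - 1)))) *
          ENNReal.ofReal (r ^ (2 - 1))) * ‖T g (r • y)‖ₑ ^ 4 := by gcongr
      _ = _ := by rw [mul_assoc]
  · have hout : r • cm J (c2 y) ζ ∉ shell n R := by
      intro hc
      change R < ‖_‖ ∧ ‖_‖ ≤ 2 * R at hc
      rw [hnorm] at hc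
      exact hsh hc
    rw [hf, indicator_of_notMem hout, mul_zero]
    exact zero_le

/-- **The `L^4` estimate on shells.** -/
theorem shell4 (m : ℕ) (hm : 1 ≤ m) (δ : ℝ) (hδ : 0 < δ) (hδ1 : δ ≤ 1) : ∃ C : ℝ, 0 < C ∧
    ∀ (J : E (2 * m) →ₗᵢ[ℝ] E (2 * m)), (∀ x, J (J x) = -x) → ∀ (ρ : ℝ), 1 < ρ →
    ∀ (F : E (2 * m) → ℂ), Hol J ρ F → Measurable F → ∀ M : ℝ, (∀ x, ‖F x‖ ≤ M) →
    ∀ R : ℝ, 1 ≤ R → ∫⁻ x in shell (2 * m) R, ‖T F x‖ₑ ^ 4 ≤
      ENNReal.ofReal (C * R ^ (δ - 2 * ((m : ℝ) - 1))) * ∫⁻ w, ‖F w‖ₑ ^ 4 ∂(sg (2 * m)) := by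
  obtain ⟨C, hC, hpl⟩ := planar_ball δ hδ hδ1
  refine ⟨(2 * Real.pi) ^ (4 * (m - 1)) * C, by positivity, ?_⟩
  intro J hJ ρ hρ F h hFm M hFb R hR
  have hfin := sg_finite (2 * m)
  have hfin2 := sg_finite 2
  have hM0 : 0 ≤ M := (norm_nonneg _).trans (hFb 0)
  have hR0 : 0 < R := by linarith
  have h1 := shell4_aux hJ rfl hm ρ hρ h hFm M hFb R hR
  have h2 : ∫⁻ ζ, (∫⁻ x in closedBall (0 : E 2) (2 * R),
      ‖T (fun y => F (cm J (c2 y) ζ) * c2 y ^ (m - 1)) x‖ₑ ^ 4) ∂(sg (2 * m)) ≤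
      ENNReal.ofReal (C * R ^ δ) * (sg 2 univ * ∫⁻ ζ, ‖F ζ‖ₑ ^ 4 ∂(sg (2 * m))) := by
    rw [← circle_avg hJ (fun ζ => ‖F ζ‖ₑ ^ 4) (hFm.enorm.pow_const 4),
      ← lintegral_const_mul' _ _ ENNReal.ofReal_ne_top]
    refine lintegral_mono fun ζ => ?_
    -- truncate the monomial outside the unit ball
    set g : E 2 → ℂ := fun y => F (cm J (c2 y) ζ) * c2 y ^ (m - 1) with hg
    set g' : E 2 → ℂ := (closedBall (0 : E 2) 1).indicator g with hg'
    have hcm : Measurable fun y : E 2 => cm J (c2 y) ζ := ((cont_cm ζ).comp c2_cont).measurable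
    have hgm : Measurable g := by
      rw [hg]
      exact (hFm.comp hcm).mul (c2_cont.measurable.pow_const _)
    have hgm' : Measurable g' := hgm.indicator measurableSet_closedBall
    have hgb' : ∀ y, ‖g' y‖ ≤ M := by
      intro y
      rw [hg']
      by_cases hy : y ∈ closedBall (0 : E 2) 1
      · rw [indicator_of_mem hy, hg]
        rw [mem_closedBall_zero_iff] at hy
        simp only [norm_mul, norm_pow]
        rw [norm_c2]
        calc _ ≤ M * 1 := mul_le_mul (hFb _) (pow_le_one₀ (norm_nonneg _) hy) (by positivity) hM0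
          _ = M := mul_one _
      · rw [indicator_of_notMem hy, norm_zero]
        exact hM0
    have hTT : T g = T g' := by
      funext x
      unfold T
      refine integral_congr_ae ?_
      filter_upwards [sg_ae 2] with y hy
      rw [hg', indicator_of_mem (by rw [mem_closedBall_zero_iff, hy])]
    rw [hTT]
    refine (hpl g' hgm' M hgb' R hR).trans (mul_le_mul' le_rfl ?_)
    refine lintegral_mono_ae ?_
    filter_upwards [sg_ae 2] with y hy
    rw [hg', indicator_of_mem (by rw [mem_closedBall_zero_iff, hy]), hg]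
    simp only
    rw [← ofReal_norm, norm_mul, norm_pow, norm_c2, hy, one_pow, mul_one, ofReal_norm]
  have hA : sg 2 univ ≠ 0 := by
    rw [sg_two_univ]
    have : 0 < 2 * Real.pi := by positivity
    simpa using this
  have hA' : sg 2 univ ≠ ⊤ := measure_ne_top _ _
  have h3 : sg 2 univ * ∫⁻ x in shell (2 * m) R, ‖T F x‖ₑ ^ 4 ≤
      sg 2 univ * (ENNReal.ofReal ((2 * Real.pi) ^ (4 * (m - 1)) * C *
        R ^ (δ - 2 * ((m : ℝ) - 1))) * ∫⁻ w, ‖F w‖ₑ ^ 4 ∂(sg (2 * m))) := by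
    refine h1.trans ((mul_le_mul_right h2 _).trans (le_of_eq ?_))
    have e1 : (2 * Real.pi) ^ (4 * (m - 1)) * C * R ^ (δ - 2 * ((m : ℝ) - 1)) =
        ((2 * Real.pi) ^ (4 * (m - 1)) * R ^ (-(2 * ((m : ℝ) - 1)))) * (C * R ^ δ) := by
      rw [show δ - 2 * ((m : ℝ) - 1) = -(2 * ((m : ℝ) - 1)) + δ by ring, Real.rpow_add hR0]
      ring
    rw [e1, ENNReal.ofReal_mul (p := (2 * Real.pi) ^ (4 * (m - 1)) * R ^ (-(2 * ((m : ℝ) - 1))))
      (by positivity)]
    ring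
  exact (ENNReal.mul_le_mul_iff_right hA hA').1 h3

end Pool.Agent.Y251.HR
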