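import Mathlib
import Pool.Agent.Y251.HR.B4
set_option autoImplicit false

/-! The `L^p` estimate for holomorphic densities. -/

namespace Pool.Agent.Y251.HR

open MeasureTheory Set Complex Metric
open scoped ENNReal RealInnerProductSpace ComplexConjugate NNReal
open Pool.Agent.H789R2.FR (E sg sg_finite sg_ae sg_inv T polar L2_bound)
open Pool.Agent.H789R2.FR.L2 (measurable_T norm_T_le W W_pos continuous_W integrable_W)

/-- the `L^2` estimate on shells -/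
theorem shell2 (n : ℕ) (hn : 2 ≤ n) : ∃ C : ℝ, 0 < C ∧ ∀ g : E n → ℂ, Measurable g →
    ∀ M : ℝ, (∀ x, ‖g x‖ ≤ M) → ∀ R : ℝ, 1 ≤ R →
    ∫⁻ x in shell n R, ‖T g x‖ₑ ^ 2 ≤ ENNReal.ofReal (C * R) * ∫⁻ w, ‖g w‖ₑ ^ 2 ∂(sg n) := by
  obtain ⟨C, hC, h⟩ := L2_bound n hn
  have hfin := sg_finite n
  refine ⟨Real.exp 4 * C, by positivity, fun g hg M hM R hR => ?_⟩
  have hR0 : 0 < R := by linarith
  have h1 := h g hg ⟨M, hM⟩ R hR0 0
  simp only [sub_zero] at h1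
  have hTm := (measurable_T g hg).measurable
  have hTb := norm_T_le g M hM
  have hint : Integrable (fun x : E n => W R x * ‖T g x‖ ^ 2) := by
    refine Integrable.mono' ((integrable_W hR0).mul_const ((M * (sg n).real univ) ^ 2))
      ((continuous_W R).measurable.mul (hTm.norm.pow_const 2)).aestronglyMeasurable
      (Filter.Eventually.of_forall fun x => ?_)
    rw [Real.norm_of_nonneg (mul_nonneg (W_pos R x).le (by positivity))]
    exact mul_le_mul_of_nonneg_left (pow_le_pow_left₀ (norm_nonneg _) (hTb x) 2) (W_pos R x).le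
  have e1 : ∫⁻ w, ‖g w‖ₑ ^ 2 ∂(sg n) = ENNReal.ofReal (∫ w, ‖g w‖ ^ 2 ∂(sg n)) := by
    rw [ofReal_integral_eq_lintegral_ofReal]
    · refine lintegral_congr fun w => ?_
      rw [← ofReal_norm, ENNReal.ofReal_pow (norm_nonneg _)]
    · refine Integrable.of_bound (hg.norm.pow_const 2).aestronglyMeasurable (M ^ 2)
        (Filter.Eventually.of_forall fun x => ?_)
      rw [Real.norm_of_nonneg (by positivity)]
      exact pow_le_pow_left₀ (norm_nonneg _) (hM x) 2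
    · exact Filter.Eventually.of_forall fun x => by positivity
  rw [e1, ← ENNReal.ofReal_mul (by positivity)]
  calc ∫⁻ x in shell n R, ‖T g x‖ₑ ^ 2
      ≤ ∫⁻ x in shell n R, ENNReal.ofReal (Real.exp 4 * (W R x * ‖T g x‖ ^ 2)) := by
        refine setLIntegral_mono' (shell_meas R) fun x hx => ?_
        rw [← ofReal_norm, ← ENNReal.ofReal_pow (norm_nonneg _)]
        apply ENNReal.ofReal_le_ofReal
        have h2 : 1 ≤ Real.exp 4 * W R x := by
          unfold W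
          rw [← Real.exp_add, Real.one_le_exp_iff, neg_div]
          have h3 : ‖x‖ ^ 2 / R ^ 2 ≤ 4 := by
            rw [div_le_iff₀ (by positivity)]
            calc ‖x‖ ^ 2 ≤ (2 * R) ^ 2 := by
                  gcongr
                  exact hx.2
              _ = 4 * R ^ 2 := by ring
          linarith
        calc ‖T g x‖ ^ 2 = 1 * ‖T g x‖ ^ 2 := (one_mul _).symm
          _ ≤ (Real.exp 4 * W R x) * ‖T g x‖ ^ 2 := by gcongr
          _ = _ := by ring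
    _ ≤ ∫⁻ x, ENNReal.ofReal (Real.exp 4 * (W R x * ‖T g x‖ ^ 2)) := setLIntegral_le_lintegral _ _
    _ = ENNReal.ofReal (∫ x, Real.exp 4 * (W R x * ‖T g x‖ ^ 2)) := by
        rw [ofReal_integral_eq_lintegral_ofReal (hint.const_mul _)]
        exact Filter.Eventually.of_forall fun x =>
          mul_nonneg (Real.exp_pos _).le (mul_nonneg (W_pos R x).le (by positivity))
    _ ≤ ENNReal.ofReal (Real.exp 4 * C * R * ∫ w, ‖g w‖ ^ 2 ∂(sg n)) := by
        apply ENNReal.ofReal_le_ofReal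
        rw [integral_const_mul]
        calc Real.exp 4 * ∫ x, W R x * ‖T g x‖ ^ 2
            ≤ Real.exp 4 * (C * R * ∫ w, ‖g w‖ ^ 2 ∂(sg n)) := by
              gcongr
              exact h1
          _ = _ := by ring

/-- Cauchy-Schwarz on the sphere -/
theorem two_four (n : ℕ) (g : E n → ℂ) (hg : Measurable g) :
    ∫⁻ w, ‖g w‖ₑ ^ 2 ∂(sg n) ≤ (sg n univ) ^ (1 / 2 : ℝ) *
      (∫⁻ w, ‖g w‖ₑ ^ 4 ∂(sg n)) ^ (1 / 2 : ℝ) := by
  have h := ENNReal.lintegral_mul_norm_pow_le (μ := sg n) (f := fun _ => (1 : ℝ≥0∞))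
    (g := fun w => ‖g w‖ₑ ^ 4) aemeasurable_const (hg.enorm.pow_const 4).aemeasurable
    (by norm_num : (0 : ℝ) ≤ 1 / 2) (by norm_num : (0 : ℝ) ≤ 1 / 2) (by norm_num)
  simp only [ENNReal.one_rpow, one_mul, lintegral_const] at h
  refine le_trans (le_of_eq ?_) h
  refine lintegral_congr fun w => ?_
  rw [← ENNReal.rpow_natCast, ← ENNReal.rpow_natCast, ← ENNReal.rpow_mul]
  norm_num

theorem one_four (n : ℕ) (g : E n → ℂ) (hg : Measurable g) :
    ∫⁻ w, ‖g w‖ₑ ∂(sg n) ≤ (sg n univ) ^ (3 / 4 : ℝ) *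
      (∫⁻ w, ‖g w‖ₑ ^ 4 ∂(sg n)) ^ (1 / 4 : ℝ) := by
  have h := ENNReal.lintegral_mul_norm_pow_le (μ := sg n) (f := fun _ => (1 : ℝ≥0∞))
    (g := fun w => ‖g w‖ₑ ^ 4) aemeasurable_const (hg.enorm.pow_const 4).aemeasurable
    (by norm_num : (0 : ℝ) ≤ 3 / 4) (by norm_num : (0 : ℝ) ≤ 1 / 4) (by norm_num)
  simp only [ENNReal.one_rpow, one_mul, lintegral_const] at h
  refine le_trans (le_of_eq ?_) h
  refine lintegral_congr fun w => ?_
  rw [← ENNReal.rpow_natCast, ← ENNReal.rpow_mul]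
  norm_num

/-- interpolation on one shell -/
theorem shell_p (m : ℕ) (hm : 2 ≤ m) (p : ℝ) (hp2 : 2 < p) (hp4 : p < 4) (δ : ℝ) (hδ : 0 < δ)
    (hδ1 : δ ≤ 1) : ∃ C : ℝ, 0 < C ∧
    ∀ (J : E (2 * m) →ₗᵢ[ℝ] E (2 * m)), (∀ x, J (J x) = -x) → ∀ (ρ : ℝ), 1 < ρ →
    ∀ (F : E (2 * m) → ℂ), Hol J ρ F → Measurable F → ∀ M : ℝ, (∀ x, ‖F x‖ ≤ M) →
    ∀ R : ℝ, 1 ≤ R → ∫⁻ x in shell (2 * m) R, ‖T F x‖ₑ ^ p ≤
      ENNReal.ofReal (C * R ^ ((4 - p) / 2 + (δ - 2 * ((m : ℝ) - 1)) * ((p - 2) / 2))) *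
        (∫⁻ w, ‖F w‖ₑ ^ 4 ∂(sg (2 * m))) ^ (p / 4) := by
  obtain ⟨C4, hC4, h4⟩ := shell4 m (by omega) δ hδ hδ1
  obtain ⟨C2, hC2, h2⟩ := shell2 (2 * m) (by omega)
  have hfin := sg_finite (2 * m)
  set A := (sg (2 * m)).real univ with hA
  have hA0 : 0 ≤ A := by positivity
  have hAe : sg (2 * m) univ = ENNReal.ofReal A := by
    rw [hA, measureReal_def, ENNReal.ofReal_toReal (measure_ne_top _ _)]
  refine ⟨(C2 * (A + 1) ^ (1 / 2 : ℝ)) ^ ((4 - p) / 2) * C4 ^ ((p - 2) / 2), by positivity, ?_⟩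
  intro J hJ ρ hρ F hF hFm M hFb R hR
  have hR0 : 0 < R := by linarith
  set B := ∫⁻ w, ‖F w‖ₑ ^ 4 ∂(sg (2 * m)) with hB
  have hTm : Measurable (T F) := (measurable_T F hFm).measurable
  have e2 := (h2 F hFm M hFb R hR).trans (mul_le_mul' le_rfl (two_four (2 * m) F hFm))
  have e4 := h4 J hJ ρ hρ F hF hFm M hFb R hR
  rw [← hB] at e2 e4
  have hin := ENNReal.lintegral_mul_norm_pow_le (μ := volume.restrict (shell (2 * m) R))
    (f := fun x => ‖T F x‖ₑ ^ 2) (g := fun x => ‖T F x‖ₑ ^ 4)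
    (hTm.enorm.pow_const 2).aemeasurable (hTm.enorm.pow_const 4).aemeasurable
    (by linarith : (0 : ℝ) ≤ (4 - p) / 2) (by linarith : (0 : ℝ) ≤ (p - 2) / 2) (by ring)
  have e1 : ∫⁻ x in shell (2 * m) R, ‖T F x‖ₑ ^ p =
      ∫⁻ x in shell (2 * m) R, (‖T F x‖ₑ ^ 2) ^ ((4 - p) / 2) * (‖T F x‖ₑ ^ 4) ^ ((p - 2) / 2) := by
    refine lintegral_congr fun x => ?_
    rw [← ENNReal.rpow_natCast, ← ENNReal.rpow_natCast, ← ENNReal.rpow_mul, ← ENNReal.rpow_mul,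
      ← ENNReal.rpow_add_of_nonneg _ _ (by push_cast; linarith) (by push_cast; linarith)]
    congr 1
    push_cast
    ring
  rw [e1]
  refine hin.trans ?_
  have e5 : (∫⁻ x in shell (2 * m) R, ‖T F x‖ₑ ^ 2) ^ ((4 - p) / 2) ≤
      ENNReal.ofReal ((C2 * (A + 1) ^ (1 / 2 : ℝ)) ^ ((4 - p) / 2) * R ^ ((4 - p) / 2)) *
        B ^ ((4 - p) / 4) := by
    refine (ENNReal.rpow_le_rpow e2 (by linarith)).trans ?_
    rw [ENNReal.mul_rpow_of_nonneg _ _ (by linarith), ENNReal.mul_rpow_of_nonneg _ _ (by linarith),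
      ← ENNReal.rpow_mul, ← ENNReal.rpow_mul, hAe,
      ENNReal.ofReal_rpow_of_nonneg (by positivity) (by linarith),
      ENNReal.ofReal_rpow_of_nonneg (by positivity) (by linarith), ← mul_assoc,
      ← ENNReal.ofReal_mul (by positivity)]
    have e6 : (1 / 2 : ℝ) * ((4 - p) / 2) = (4 - p) / 4 := by ring
    rw [e6]
    refine mul_le_mul' (ENNReal.ofReal_le_ofReal ?_) le_rfl
    rw [Real.mul_rpow hC2.le hR0.le, Real.mul_rpow hC2.le (by positivity),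
      ← Real.rpow_mul (by positivity), e6]
    have : A ^ ((4 - p) / 4) ≤ (A + 1) ^ ((4 - p) / 4) :=
      Real.rpow_le_rpow hA0 (by linarith) (by linarith)
    calc C2 ^ ((4 - p) / 2) * R ^ ((4 - p) / 2) * A ^ ((4 - p) / 4)
        ≤ C2 ^ ((4 - p) / 2) * R ^ ((4 - p) / 2) * (A + 1) ^ ((4 - p) / 4) := by gcongr
      _ = _ := by ring
  have e7 : (∫⁻ x in shell (2 * m) R, ‖T F x‖ₑ ^ 4) ^ ((p - 2) / 2) ≤
      ENNReal.ofReal (C4 ^ ((p - 2) / 2) * R ^ ((δ - 2 * ((m : ℝ) - 1)) * ((p - 2) / 2))) *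
        B ^ ((p - 2) / 2) := by
    refine (ENNReal.rpow_le_rpow e4 (by linarith)).trans ?_
    rw [ENNReal.mul_rpow_of_nonneg _ _ (by linarith),
      ENNReal.ofReal_rpow_of_nonneg (by positivity) (by linarith),
      Real.mul_rpow hC4.le (by positivity), ← Real.rpow_mul hR0.le]
  refine (mul_le_mul' e5 e7).trans (le_of_eq ?_)
  rw [Real.rpow_add hR0]
  have e8 : B ^ (p / 4) = B ^ ((4 - p) / 4) * B ^ ((p - 2) / 2) := by
    rw [← ENNReal.rpow_add_of_nonneg _ _ (by linarith) (by linarith)]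
    congr 1
    ring
  rw [e8]
  have e9 : (C2 * (A + 1) ^ (1 / 2 : ℝ)) ^ ((4 - p) / 2) * C4 ^ ((p - 2) / 2) *
      (R ^ ((4 - p) / 2) * R ^ ((δ - 2 * ((m : ℝ) - 1)) * ((p - 2) / 2))) =
      ((C2 * (A + 1) ^ (1 / 2 : ℝ)) ^ ((4 - p) / 2) * R ^ ((4 - p) / 2)) *
      (C4 ^ ((p - 2) / 2) * R ^ ((δ - 2 * ((m : ℝ) - 1)) * ((p - 2) / 2))) := by ring
  rw [e9, ENNReal.ofReal_mul (p := (C2 * (A + 1) ^ (1 / 2 : ℝ)) ^ ((4 - p) / 2) *
    R ^ ((4 - p) / 2)) (by positivity)]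
  ring

/-- **The `L^p` estimate for holomorphic densities.** -/
theorem hol_p (m : ℕ) (hm : 2 ≤ m) (p : ℝ) (hp : 4 * (m : ℝ) / (2 * m - 1) < p) (hp4 : p < 4) :
    ∃ C : ℝ, 0 < C ∧
    ∀ (J : E (2 * m) →ₗᵢ[ℝ] E (2 * m)), (∀ x, J (J x) = -x) → ∀ (ρ : ℝ), 1 < ρ →
    ∀ (F : E (2 * m) → ℂ), Hol J ρ F → Measurable F → ∀ M : ℝ, (∀ x, ‖F x‖ ≤ M) →
    ∫⁻ x, ‖T F x‖ₑ ^ p ≤ ENNReal.ofReal C * (∫⁻ w, ‖F w‖ₑ ^ 4 ∂(sg (2 * m))) ^ (p / 4) := by
  have hm' : (2 : ℝ) ≤ m := by exact_mod_cast hm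
  have hp2 : 2 < p := by
    refine lt_of_le_of_lt ?_ hp
    rw [le_div_iff₀ (by linarith)]
    linarith
  rw [div_lt_iff₀ (by linarith)] at hp
  -- the gain
  set κ0 : ℝ := (p * (2 * m - 1) - 4 * m) / 2 with hκ0
  have hκ0p : 0 < κ0 := by rw [hκ0]; linarith
  set δ : ℝ := min 1 (κ0 / 2) with hδ
  have hδ0 : 0 < δ := lt_min one_pos (by linarith)
  have hδ1 : δ ≤ 1 := min_le_left _ _
  have hδ2 : δ ≤ κ0 / 2 := min_le_right _ _
  obtain ⟨C, hC, h⟩ := shell_p m hm p hp2 hp4 δ hδ0 hδ1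
  have hfin := sg_finite (2 * m)
  set e : ℝ := (4 - p) / 2 + (δ - 2 * ((m : ℝ) - 1)) * ((p - 2) / 2) with he
  have he1 : e ≤ -(κ0 / 2) := by
    have h1 : e = -κ0 + δ * ((p - 2) / 2) := by
      rw [he, hκ0]
      ring
    have h2 : δ * ((p - 2) / 2) ≤ κ0 / 2 * 1 :=
      mul_le_mul hδ2 (by linarith) (by linarith) (by linarith)
    linarith
  have he0 : e < 0 := by linarith
  -- the ball
  set A := (sg (2 * m)).real univ with hA
  have hA0 : 0 ≤ A := by positivity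
  have hAe : sg (2 * m) univ = ENNReal.ofReal A := by
    rw [hA, measureReal_def, ENNReal.ofReal_toReal (measure_ne_top _ _)]
  set V := (volume : Measure (E (2 * m))).real (closedBall 0 1) with hV
  have hVe : volume (closedBall (0 : E (2 * m)) 1) = ENNReal.ofReal V := by
    rw [hV, measureReal_def, ENNReal.ofReal_toReal measure_closedBall_lt_top.ne]
  have hV0 : 0 ≤ V := measureReal_nonneg
  have hgeo : Summable fun j : ℕ => ((2 : ℝ) ^ e) ^ j := by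
    apply summable_geometric_of_lt_one (by positivity)
    exact Real.rpow_lt_one_of_one_lt_of_neg (by norm_num) he0
  set G := ∑' j : ℕ, ((2 : ℝ) ^ e) ^ j with hG
  have hG0 : 0 ≤ G := tsum_nonneg fun j => by positivity
  refine ⟨C * G + V * A ^ (3 * p / 4) + 1, by positivity, ?_⟩
  intro J hJ ρ hρ F hF hFm M hFb
  set B := ∫⁻ w, ‖F w‖ₑ ^ 4 ∂(sg (2 * m)) with hB
  have hTm : Measurable (T F) := (measurable_T F hFm).measurable
  have hcover : (univ : Set (E (2 * m))) ⊆ closedBall 0 1 ∪ ⋃ j : ℕ, shell (2 * m) ((2 : ℝ) ^ j) := by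
    intro x _
    by_cases hx : ‖x‖ ≤ 1
    · exact Or.inl (mem_closedBall_zero_iff.2 hx)
    · right
      push Not at hx
      -- the largest power of two below the norm
      obtain ⟨j, hj1, hj2⟩ := exists_nat_pow_near hx.le (by norm_num : (1 : ℝ) < 2)
      -- `2^j ≤ ‖x‖ < 2^(j+1)`
      rw [mem_iUnion]
      rcases hj1.eq_or_lt with h0 | h0
      · rcases Nat.eq_zero_or_pos j with hj0 | hj0
        · subst hj0
          rw [pow_zero] at h0
          linarith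
        · refine ⟨j - 1, ?_, ?_⟩
          · rw [← h0]
            exact pow_lt_pow_right₀ (by norm_num) (by omega)
          · rw [← h0, ← pow_succ']
            apply le_of_eq
            congr 1
            omega
      · refine ⟨j, h0, ?_⟩
        rw [← pow_succ']
        exact hj2.le
  have h1 : ∫⁻ x, ‖T F x‖ₑ ^ p ≤ (∫⁻ x in closedBall 0 1, ‖T F x‖ₑ ^ p) +
      ∑' j : ℕ, ∫⁻ x in shell (2 * m) ((2 : ℝ) ^ j), ‖T F x‖ₑ ^ p := by
    calc ∫⁻ x, ‖T F x‖ₑ ^ p = ∫⁻ x in univ, ‖T F x‖ₑ ^ p := by rw [setLIntegral_univ]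
      _ ≤ ∫⁻ x in closedBall 0 1 ∪ ⋃ j : ℕ, shell (2 * m) ((2 : ℝ) ^ j), ‖T F x‖ₑ ^ p :=
          lintegral_mono_set hcover
      _ ≤ (∫⁻ x in closedBall 0 1, ‖T F x‖ₑ ^ p) +
          ∫⁻ x in ⋃ j : ℕ, shell (2 * m) ((2 : ℝ) ^ j), ‖T F x‖ₑ ^ p :=
          lintegral_union_le (μ := volume) (fun x => ‖T F x‖ₑ ^ p) _ _
      _ ≤ _ := by
          gcongr
          exact lintegral_iUnion_le _ _
  have h2 : ∫⁻ x in closedBall 0 1, ‖T F x‖ₑ ^ p ≤
      ENNReal.ofReal (V * A ^ (3 * p / 4)) * B ^ (p / 4) := by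
    have hpt : ∀ x, ‖T F x‖ₑ ^ p ≤ (ENNReal.ofReal A) ^ (3 * p / 4) * B ^ (p / 4) := by
      intro x
      have h3 : ‖T F x‖ₑ ≤ ∫⁻ w, ‖F w‖ₑ ∂(sg (2 * m)) := by
        unfold T
        refine (enorm_integral_le_lintegral_enorm _).trans (le_of_eq ?_)
        refine lintegral_congr fun w => ?_
        rw [enorm_mul]
        have : ‖Complex.exp (-((⟪x, w⟫ : ℝ) : ℂ) * I)‖ₑ = 1 := by
          rw [← ofReal_norm, show -((⟪x, w⟫ : ℝ) : ℂ) * I = ((-⟪x, w⟫ : ℝ) : ℂ) * I by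
            push_cast; ring, Complex.norm_exp_ofReal_mul_I, ENNReal.ofReal_one]
        rw [this, one_mul]
      have h4 := h3.trans (one_four (2 * m) F hFm)
      rw [← hB, hAe] at h4
      refine (ENNReal.rpow_le_rpow h4 (by linarith)).trans (le_of_eq ?_)
      rw [ENNReal.mul_rpow_of_nonneg _ _ (by linarith), ← ENNReal.rpow_mul, ← ENNReal.rpow_mul]
      congr 2
      · ring
      · ring
    calc ∫⁻ x in closedBall 0 1, ‖T F x‖ₑ ^ p
        ≤ ∫⁻ _x in closedBall (0 : E (2 * m)) 1, (ENNReal.ofReal A) ^ (3 * p / 4) * B ^ (p / 4) :=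
          lintegral_mono fun x => hpt x
      _ = (ENNReal.ofReal A) ^ (3 * p / 4) * B ^ (p / 4) * ENNReal.ofReal V := by
          rw [lintegral_const, Measure.restrict_apply_univ, hVe]
      _ = _ := by
          rw [ENNReal.ofReal_rpow_of_nonneg hA0 (by linarith), ENNReal.ofReal_mul hV0]
          ring
  have h3 : ∑' j : ℕ, ∫⁻ x in shell (2 * m) ((2 : ℝ) ^ j), ‖T F x‖ₑ ^ p ≤
      ENNReal.ofReal (C * G) * B ^ (p / 4) := by
    calc ∑' j : ℕ, ∫⁻ x in shell (2 * m) ((2 : ℝ) ^ j), ‖T F x‖ₑ ^ p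
        ≤ ∑' j : ℕ, ENNReal.ofReal (C * ((2 : ℝ) ^ e) ^ j) * B ^ (p / 4) := by
          refine ENNReal.tsum_le_tsum fun j => ?_
          have h4 := h J hJ ρ hρ F hF hFm M hFb ((2 : ℝ) ^ j) (one_le_pow₀ (by norm_num))
          have h5 : ((2 : ℝ) ^ j) ^ e = ((2 : ℝ) ^ e) ^ j := by
            rw [← Real.rpow_natCast, ← Real.rpow_natCast, ← Real.rpow_mul (by norm_num),
              ← Real.rpow_mul (by norm_num), mul_comm]
          rw [h5] at h4
          exact h4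
      _ = _ := by
          rw [ENNReal.tsum_mul_right, ← ENNReal.ofReal_tsum_of_nonneg (fun j => by positivity)
            (hgeo.mul_left C), tsum_mul_left]
  refine h1.trans ((add_le_add h2 h3).trans ?_)
  rw [← add_mul, ← ENNReal.ofReal_add (by positivity) (by positivity)]
  exact mul_le_mul' (ENNReal.ofReal_le_ofReal (by linarith)) le_rfl

end Pool.Agent.Y251.HR
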