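import Mathlib
import Pool.Agent.Y251.HR.B5
set_option autoImplicit false

/-! Algebra of holomorphic functions, mean values and the `L^4` inequality of M. Riesz. -/

namespace Pool.Agent.Y251.HR

open MeasureTheory Set Complex Metric
open scoped ENNReal RealInnerProductSpace ComplexConjugate NNReal
open Pool.Agent.H789R2.FR (E sg sg_finite sg_ae sg_inv T)

variable {n : ℕ} {J : E n →ₗᵢ[ℝ] E n}

theorem Hol.const (ρ : ℝ) (c : ℂ) : Hol J ρ (fun _ => c) := by
  intro x _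
  exact ⟨0, hasFDerivAt_const c x, fun v => by simp⟩

theorem Hol.add {ρ : ℝ} {F G : E n → ℂ} (hF : Hol J ρ F) (hG : Hol J ρ G) :
    Hol J ρ (fun x => F x + G x) := by
  intro x hx
  obtain ⟨L, hL, hL2⟩ := hF x hx
  obtain ⟨K, hK, hK2⟩ := hG x hx
  refine ⟨L + K, hL.add hK, fun v => ?_⟩
  rw [add_apply, add_apply, hL2, hK2]
  ring

theorem Hol.mul {ρ : ℝ} {F G : E n → ℂ} (hF : Hol J ρ F) (hG : Hol J ρ G) :
    Hol J ρ (fun x => F x * G x) := by
  intro x hx
  obtain ⟨L, hL, hL2⟩ := hF x hx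
  obtain ⟨K, hK, hK2⟩ := hG x hx
  refine ⟨F x • K + G x • L, hL.mul hK, fun v => ?_⟩
  simp only [add_apply, smul_apply, smul_eq_mul]
  rw [hL2, hK2]
  ring

theorem Hol.sub {ρ : ℝ} {F G : E n → ℂ} (hF : Hol J ρ F) (hG : Hol J ρ G) :
    Hol J ρ (fun x => F x - G x) := by
  intro x hx
  obtain ⟨L, hL, hL2⟩ := hF x hx
  obtain ⟨K, hK, hK2⟩ := hG x hx
  refine ⟨L - K, hL.sub hK, fun v => ?_⟩
  rw [sub_apply, sub_apply, hL2, hK2]
  ring

theorem Hol.scale {ρ s : ℝ} (hs : 0 < s) {F : E n → ℂ} (hF : Hol J ρ F) :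
    Hol J (ρ / s) (fun x => F (s • x)) := by
  intro x hx
  have h1 : s • x ∈ ball (0 : E n) ρ := by
    rw [mem_ball_zero_iff] at hx ⊢
    rw [norm_smul, Real.norm_of_nonneg hs.le, mul_comm]
    exact (lt_div_iff₀ hs).1 hx
  obtain ⟨L, hL, hL2⟩ := hF _ h1
  set A : E n →L[ℝ] E n := s • ContinuousLinearMap.id ℝ (E n) with hA
  have h2 : HasFDerivAt (fun y : E n => s • y) A x := by
    have := (hasFDerivAt_id (𝕜 := ℝ) x).const_smul s
    exact this
  refine ⟨L.comp A, hL.comp x h2, fun v => ?_⟩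
  simp only [ContinuousLinearMap.comp_apply, hA, smul_apply,
    ContinuousLinearMap.id_apply, map_smul, hL2, Complex.real_smul]
  ring

/-- mean value over the circles -/
theorem mean_circle (ρ : ℝ) (hρ : 1 < ρ) (hJ : ∀ x, J (J x) = -x) {F : E n → ℂ} (h : Hol J ρ F)
    (w : E n) (hw : ‖w‖ = 1) :
    ∫ θ in (0 : ℝ)..2 * Real.pi, F (cm J (Complex.exp (θ * I)) w) = (2 * Real.pi) • F 0 := by
  have h1 : ∀ z : ℂ, ‖z‖ < ρ → DifferentiableAt ℂ (fun u : ℂ => F (0 + cm J u w)) z := by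
    intro z hz
    refine h.line 0 w z ?_
    rw [mem_ball_zero_iff, zero_add, norm_cm hJ, hw, mul_one]
    exact hz
  have h2 : DiffContOnCl ℂ (fun u : ℂ => F (0 + cm J u w)) (ball 0 |1|) := by
    apply DifferentiableOn.diffContOnCl
    intro z hz
    rw [abs_one, closure_ball _ one_ne_zero, mem_closedBall, dist_zero_right] at hz
    exact (h1 z (by linarith)).differentiableWithinAt
  have h3 := h2.circleAverage
  rw [Real.circleAverage_def] at h3
  simp only [cm_zero, add_zero, zero_add] at h3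
  rw [← h3, smul_smul, mul_inv_cancel₀ (by positivity), one_smul]
  refine intervalIntegral.integral_congr fun θ _ => ?_
  congr 2
  simp [circleMap]

theorem mean_sphere (ρ : ℝ) (hρ : 1 < ρ) (hJ : ∀ x, J (J x) = -x) {F : E n → ℂ} (h : Hol J ρ F)
    (hFm : Measurable F) (M : ℝ) (hFb : ∀ x, ‖F x‖ ≤ M) :
    ∫ w, F w ∂(sg n) = (sg n).real univ • F 0 := by
  have hfin := sg_finite n
  have hM : 0 ≤ M := (norm_nonneg _).trans (hFb 0)
  set μ : Measure ℝ := volume.restrict (Ioc 0 (2 * Real.pi)) with hμ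
  set K : E n → ℝ → ℂ := fun w θ => F (cm J (Complex.exp (θ * I)) w) with hK
  have hinvar : ∀ θ : ℝ, ∫ w, K w θ ∂(sg n) = ∫ w, F w ∂(sg n) := by
    intro θ
    have hz1 : ‖Complex.exp (θ * I)‖ = 1 := Complex.norm_exp_ofReal_mul_I _
    have hmp := sg_inv (rotE hJ _ hz1)
    exact hmp.integral_comp (rotE hJ _ hz1).toHomeomorph.measurableEmbedding F
  have hKm : Measurable (Function.uncurry K) := by
    have h1 : Continuous fun q : E n × ℝ => cm J (Complex.exp (q.2 * I)) q.1 := by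
      have h4 : Continuous fun q : E n × ℝ => ((Complex.exp (q.2 * I), q.1) : ℂ × E n) :=
        Continuous.prodMk (by fun_prop) continuous_fst
      exact (cont_cm2 (J := J)).comp h4
    exact hFm.comp h1.measurable
  have hμf : IsFiniteMeasure μ := by
    rw [hμ]
    infer_instance
  have hKi : Integrable (Function.uncurry K) ((sg n).prod μ) :=
    Integrable.of_bound hKm.aestronglyMeasurable M (Filter.Eventually.of_forall fun q => hFb _)
  have h1 : ∫ w, (∫ θ, K w θ ∂μ) ∂(sg n) = ∫ θ, (∫ w, K w θ ∂(sg n)) ∂μ :=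
    integral_integral_swap hKi
  simp_rw [hinvar] at h1
  have h2 : ∀ᵐ w ∂(sg n), ∫ θ, K w θ ∂μ = (2 * Real.pi) • F 0 := by
    filter_upwards [sg_ae n] with w hw
    have h3 := mean_circle ρ hρ hJ h w hw
    rw [← h3, hμ, ← intervalIntegral.integral_of_le (by positivity)]
  rw [integral_congr_ae h2, integral_const, integral_const, hμ] at h1
  have h4 : (volume.restrict (Ioc 0 (2 * Real.pi))).real univ = 2 * Real.pi := by
    simp [measureReal_def, Real.pi_pos.le]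
  rw [h4, smul_comm] at h1
  have h5 : (2 * Real.pi) ≠ 0 := by positivity
  exact (smul_right_injective ℂ h5 h1).symm

theorem pt_re (z : ℂ) : ‖z‖ ^ 4 ≤ 48 * z.re ^ 4 + 2 * (z ^ 4).re := by
  have h1 : ‖z‖ ^ 4 = (z.re ^ 2 + z.im ^ 2) ^ 2 := by
    rw [show ‖z‖ ^ 4 = (‖z‖ ^ 2) ^ 2 by ring, ← Complex.normSq_eq_norm_sq, Complex.normSq_apply]
    ring
  have h2 : (z ^ 4).re = z.re ^ 4 - 6 * z.re ^ 2 * z.im ^ 2 + z.im ^ 4 := by
    simp only [pow_succ, pow_zero, one_mul, Complex.mul_re, Complex.mul_im]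
    ring
  rw [h1, h2]
  nlinarith [sq_nonneg (7 * z.re ^ 2 - z.im ^ 2)]

theorem pt_im (z : ℂ) : ‖z‖ ^ 4 ≤ 48 * z.im ^ 4 + 2 * (z ^ 4).re := by
  have h1 : ‖z‖ ^ 4 = (z.re ^ 2 + z.im ^ 2) ^ 2 := by
    rw [show ‖z‖ ^ 4 = (‖z‖ ^ 2) ^ 2 by ring, ← Complex.normSq_eq_norm_sq, Complex.normSq_apply]
    ring
  have h2 : (z ^ 4).re = z.re ^ 4 - 6 * z.re ^ 2 * z.im ^ 2 + z.im ^ 4 := by
    simp only [pow_succ, pow_zero, one_mul, Complex.mul_re, Complex.mul_im]
    ring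
  rw [h1, h2]
  nlinarith [sq_nonneg (7 * z.im ^ 2 - z.re ^ 2)]

theorem int_of_bdd {f : E n → ℝ} (hf : Measurable f) {C : ℝ} (hC : ∀ w, |f w| ≤ C) :
    Integrable f (sg n) := by
  have hfin := sg_finite n
  exact Integrable.of_bound hf.aestronglyMeasurable C (Filter.Eventually.of_forall hC)

theorem fourth_mean (ρ : ℝ) (hρ : 1 < ρ) (hJ : ∀ x, J (J x) = -x) {F : E n → ℂ} (h : Hol J ρ F)
    (hFm : Measurable F) (M : ℝ) (hFb : ∀ x, ‖F x‖ ≤ M) (h0 : F 0 = 0) :
    ∫ w, (F w ^ 4).re ∂(sg n) = 0 := by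
  have hfin := sg_finite n
  have h1 : Hol J ρ (fun x => F x ^ 4) := by
    have h2 := (h.mul h).mul (h.mul h)
    refine h2.congr fun x _ => ?_
    ring
  have h2 := mean_sphere ρ hρ hJ h1 (hFm.pow_const 4) (M ^ 4) (fun x => by
    rw [norm_pow]
    exact pow_le_pow_left₀ (norm_nonneg _) (hFb x) 4)
  rw [h0] at h2
  have h3 : Integrable (fun w => F w ^ 4) (sg n) :=
    Integrable.of_bound (hFm.pow_const 4).aestronglyMeasurable (M ^ 4)
      (Filter.Eventually.of_forall fun x => by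
        rw [norm_pow]
        exact pow_le_pow_left₀ (norm_nonneg _) (hFb x) 4)
  have h4 := integral_re h3
  simp only [RCLike.re_eq_complex_re] at h4
  rw [h4, h2]
  simp

/-- M. Riesz's inequality, exponent four, real part -/
theorem riesz_re (ρ : ℝ) (hρ : 1 < ρ) (hJ : ∀ x, J (J x) = -x) {F : E n → ℂ} (h : Hol J ρ F)
    (hFm : Measurable F) (M : ℝ) (hFb : ∀ x, ‖F x‖ ≤ M) (h0 : F 0 = 0) :
    ∫ w, ‖F w‖ ^ 4 ∂(sg n) ≤ 48 * ∫ w, (F w).re ^ 4 ∂(sg n) := by
  have hM : 0 ≤ M := (norm_nonneg _).trans (hFb 0)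
  have i1 : Integrable (fun w => ‖F w‖ ^ 4) (sg n) := by
    refine int_of_bdd (hFm.norm.pow_const 4) (C := M ^ 4) fun w => ?_
    rw [abs_of_nonneg (by positivity)]
    exact pow_le_pow_left₀ (norm_nonneg _) (hFb w) 4
  have i2 : Integrable (fun w => (F w).re ^ 4) (sg n) := by
    refine int_of_bdd ((Complex.measurable_re.comp hFm).pow_const 4) (C := M ^ 4) fun w => ?_
    rw [abs_pow]
    exact pow_le_pow_left₀ (abs_nonneg _) ((Complex.abs_re_le_norm _).trans (hFb w)) 4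
  have i3 : Integrable (fun w => (F w ^ 4).re) (sg n) := by
    refine int_of_bdd (Complex.measurable_re.comp (hFm.pow_const 4)) (C := M ^ 4) fun w => ?_
    refine (Complex.abs_re_le_norm _).trans ?_
    rw [norm_pow]
    exact pow_le_pow_left₀ (norm_nonneg _) (hFb w) 4
  have h1 : ∫ w, ‖F w‖ ^ 4 ∂(sg n) ≤ ∫ w, (48 * (F w).re ^ 4 + 2 * (F w ^ 4).re) ∂(sg n) :=
    integral_mono i1 ((i2.const_mul 48).add (i3.const_mul 2)) fun w => pt_re (F w)
  rw [integral_add (i2.const_mul 48) (i3.const_mul 2), integral_const_mul, integral_const_mul,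
    fourth_mean ρ hρ hJ h hFm M hFb h0] at h1
  linarith

/-- M. Riesz's inequality, exponent four, imaginary part -/
theorem riesz_im (ρ : ℝ) (hρ : 1 < ρ) (hJ : ∀ x, J (J x) = -x) {F : E n → ℂ} (h : Hol J ρ F)
    (hFm : Measurable F) (M : ℝ) (hFb : ∀ x, ‖F x‖ ≤ M) (h0 : F 0 = 0) :
    ∫ w, ‖F w‖ ^ 4 ∂(sg n) ≤ 48 * ∫ w, (F w).im ^ 4 ∂(sg n) := by
  have hM : 0 ≤ M := (norm_nonneg _).trans (hFb 0)
  have i1 : Integrable (fun w => ‖F w‖ ^ 4) (sg n) := by
    refine int_of_bdd (hFm.norm.pow_const 4) (C := M ^ 4) fun w => ?_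
    rw [abs_of_nonneg (by positivity)]
    exact pow_le_pow_left₀ (norm_nonneg _) (hFb w) 4
  have i2 : Integrable (fun w => (F w).im ^ 4) (sg n) := by
    refine int_of_bdd ((Complex.measurable_im.comp hFm).pow_const 4) (C := M ^ 4) fun w => ?_
    rw [abs_pow]
    exact pow_le_pow_left₀ (abs_nonneg _) ((Complex.abs_im_le_norm _).trans (hFb w)) 4
  have i3 : Integrable (fun w => (F w ^ 4).re) (sg n) := by
    refine int_of_bdd (Complex.measurable_re.comp (hFm.pow_const 4)) (C := M ^ 4) fun w => ?_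
    refine (Complex.abs_re_le_norm _).trans ?_
    rw [norm_pow]
    exact pow_le_pow_left₀ (norm_nonneg _) (hFb w) 4
  have h1 : ∫ w, ‖F w‖ ^ 4 ∂(sg n) ≤ ∫ w, (48 * (F w).im ^ 4 + 2 * (F w ^ 4).re) ∂(sg n) :=
    integral_mono i1 ((i2.const_mul 48).add (i3.const_mul 2)) fun w => pt_im (F w)
  rw [integral_add (i2.const_mul 48) (i3.const_mul 2), integral_const_mul, integral_const_mul,
    fourth_mean ρ hρ hJ h hFm M hFb h0] at h1
  linarith

end Pool.Agent.Y251.HR
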