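import Mathlib
import Pool.Agent.Y251.HR.C1
set_option autoImplicit false

/-! The estimate for pluriharmonic densities. -/

namespace Pool.Agent.Y251.HR

open MeasureTheory Set Complex Metric
open scoped ENNReal RealInnerProductSpace ComplexConjugate NNReal
open Pool.Agent.H789R2.FR (E sg sg_finite sg_ae sg_inv T)
open Pool.Agent.H789R2.FR.L2 (measurable_T)

variable {n : ℕ} {J : E n →ₗᵢ[ℝ] E n}

theorem pt_convex (a b : ℂ) : ‖a‖ ^ 4 + 4 * ‖a‖ ^ 2 * (conj a * (b - a)).re ≤ ‖b‖ ^ 4 := by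
  have h1 : (conj a * (b - a)).re ≤ ‖a‖ * ‖b‖ - ‖a‖ ^ 2 := by
    have h2 : (conj a * (b - a)).re = (conj a * b).re - ‖a‖ ^ 2 := by
      rw [mul_sub, Complex.sub_re, ← Complex.normSq_eq_norm_sq, Complex.normSq_apply]
      simp
    rw [h2]
    have h3 : (conj a * b).re ≤ ‖a‖ * ‖b‖ := by
      refine (Complex.re_le_norm _).trans ?_
      rw [norm_mul, RCLike.norm_conj]
    linarith
  have h4 := norm_nonneg a
  have h5 := norm_nonneg b
  have h6 : 4 * ‖a‖ ^ 2 * (conj a * (b - a)).re ≤ 4 * ‖a‖ ^ 2 * (‖a‖ * ‖b‖ - ‖a‖ ^ 2) := by gcongr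
  have h7 : 0 ≤ (‖a‖ - ‖b‖) ^ 2 * (3 * ‖a‖ ^ 2 + 2 * ‖a‖ * ‖b‖ + ‖b‖ ^ 2) := by positivity
  nlinarith

theorem pt_add4 (a b : ℂ) : ‖a + b‖ ^ 4 ≤ 8 * ‖a‖ ^ 4 + 8 * ‖b‖ ^ 4 := by
  have h1 : ‖a + b‖ ^ 4 ≤ (‖a‖ + ‖b‖) ^ 4 := by
    gcongr
    exact norm_add_le _ _
  have h2 : (‖a‖ + ‖b‖) ^ 2 ≤ 2 * ‖a‖ ^ 2 + 2 * ‖b‖ ^ 2 := by nlinarith [sq_nonneg (‖a‖ - ‖b‖)]
  have h3 : (‖a‖ + ‖b‖) ^ 4 ≤ (2 * ‖a‖ ^ 2 + 2 * ‖b‖ ^ 2) ^ 2 := by
    calc (‖a‖ + ‖b‖) ^ 4 = ((‖a‖ + ‖b‖) ^ 2) ^ 2 := by ring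
      _ ≤ _ := by gcongr
  nlinarith [sq_nonneg (‖a‖ ^ 2 - ‖b‖ ^ 2)]

theorem int4 {f : E n → ℂ} (hf : Measurable f) {C : ℝ} (hC : ∀ w, ‖f w‖ ≤ C) :
    Integrable (fun w => ‖f w‖ ^ 4) (sg n) := by
  refine int_of_bdd (hf.norm.pow_const 4) (C := C ^ 4) fun w => ?_
  rw [abs_of_nonneg (by positivity)]
  exact pow_le_pow_left₀ (norm_nonneg _) (hC w) 4

/-- The `L^4` bounds for the two holomorphic parts. -/
theorem parts (ρ : ℝ) (hρ : 1 < ρ) (hJ : ∀ x, J (J x) = -x) {F G : E n → ℂ} (hF : Hol J ρ F)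
    (hG : Hol J ρ G) (hFm : Measurable F) (hGm : Measurable G) (M : ℝ) (hFb : ∀ x, ‖F x‖ ≤ M)
    (hGb : ∀ x, ‖G x‖ ≤ M) :
    (∫ w, ‖F w - F 0‖ ^ 4 ∂(sg n) ≤ 768 * ∫ w, ‖F w + conj (G w)‖ ^ 4 ∂(sg n)) ∧
    (∫ w, ‖G w - G 0‖ ^ 4 ∂(sg n) ≤ 768 * ∫ w, ‖F w + conj (G w)‖ ^ 4 ∂(sg n)) ∧
    ∫ _w, ‖F 0 + conj (G 0)‖ ^ 4 ∂(sg n) ≤ ∫ w, ‖F w + conj (G w)‖ ^ 4 ∂(sg n) := by
  have hfin := sg_finite n
  have hM : 0 ≤ M := (norm_nonneg _).trans (hFb 0)
  set u : E n → ℂ := fun w => F w + conj (G w) with hu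
  set u0 : ℂ := F 0 + conj (G 0) with hu0
  have hum : Measurable u := hFm.add (Complex.continuous_conj.measurable.comp hGm)
  have hub : ∀ x, ‖u x‖ ≤ 2 * M := by
    intro x
    refine (norm_add_le _ _).trans ?_
    rw [RCLike.norm_conj]
    linarith [hFb x, hGb x]
  have hu0b : ‖u0‖ ≤ 2 * M := hub 0
  -- the mean
  have iu : Integrable u (sg n) :=
    Integrable.of_bound hum.aestronglyMeasurable (2 * M) (Filter.Eventually.of_forall hub)
  have iF : Integrable F (sg n) :=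
    Integrable.of_bound hFm.aestronglyMeasurable M (Filter.Eventually.of_forall hFb)
  have iG : Integrable G (sg n) :=
    Integrable.of_bound hGm.aestronglyMeasurable M (Filter.Eventually.of_forall hGb)
  have iGc : Integrable (fun w => conj (G w)) (sg n) :=
    Integrable.of_bound (Complex.continuous_conj.measurable.comp hGm).aestronglyMeasurable M
      (Filter.Eventually.of_forall fun x => by
        change ‖conj (G x)‖ ≤ M
        rw [RCLike.norm_conj]
        exact hGb x)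
  have hmean : ∫ w, u w ∂(sg n) = (sg n).real univ • u0 := by
    rw [hu, integral_add iF iGc, mean_sphere ρ hρ hJ hF hFm M hFb, integral_conj,
      mean_sphere ρ hρ hJ hG hGm M hGb, hu0, smul_add]
    congr 1
    rw [Complex.real_smul, Complex.real_smul, map_mul, Complex.conj_ofReal]
  have i4 : Integrable (fun w => ‖u w‖ ^ 4) (sg n) := int4 hum hub
  have h3 : ∫ _w, ‖u0‖ ^ 4 ∂(sg n) ≤ ∫ w, ‖u w‖ ^ 4 ∂(sg n) := by
    have i5 : Integrable (fun w => conj u0 * (u w - u0)) (sg n) :=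
      (iu.sub (integrable_const u0)).const_mul _
    have i6 : Integrable (fun w => (conj u0 * (u w - u0)).re) (sg n) := i5.re
    have h4 : ∫ w, (conj u0 * (u w - u0)).re ∂(sg n) = 0 := by
      have h5 := integral_re i5
      simp only [RCLike.re_eq_complex_re] at h5
      rw [h5, integral_const_mul, integral_sub iu (integrable_const u0), hmean, integral_const,
        sub_self, mul_zero, Complex.zero_re]
    have h6 : ∫ w, (‖u0‖ ^ 4 + 4 * ‖u0‖ ^ 2 * (conj u0 * (u w - u0)).re) ∂(sg n) ≤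
        ∫ w, ‖u w‖ ^ 4 ∂(sg n) :=
      integral_mono ((integrable_const _).add (i6.const_mul _)) i4 fun w => pt_convex u0 (u w)
    rw [integral_add (integrable_const _) (i6.const_mul _), integral_const_mul, h4, mul_zero,
      add_zero] at h6
    exact h6
  -- the difference
  have hdm : Measurable fun w => u w - u0 := hum.sub_const _
  have hdb : ∀ w, ‖u w - u0‖ ≤ 4 * M := by
    intro w
    refine (norm_sub_le _ _).trans ?_
    linarith [hub w]
  have id4 : Integrable (fun w => ‖u w - u0‖ ^ 4) (sg n) := int4 hdm hdb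
  have hd : ∫ w, ‖u w - u0‖ ^ 4 ∂(sg n) ≤ 16 * ∫ w, ‖u w‖ ^ 4 ∂(sg n) := by
    have h4 : ∫ w, ‖u w - u0‖ ^ 4 ∂(sg n) ≤ ∫ w, (8 * ‖u w‖ ^ 4 + 8 * ‖u0‖ ^ 4) ∂(sg n) := by
      refine integral_mono id4 ((i4.const_mul 8).add ((integrable_const _).const_mul 8)) fun w => ?_
      have h5 := pt_add4 (u w) (-u0)
      rw [norm_neg, ← sub_eq_add_neg] at h5
      exact h5
    rw [integral_add (i4.const_mul 8) ((integrable_const _).const_mul 8), integral_const_mul,
      integral_const_mul] at h4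
    linarith
  -- the two combinations
  set A : E n → ℂ := fun w => (F w - F 0) + (G w - G 0) with hA
  set B : E n → ℂ := fun w => (F w - F 0) - (G w - G 0) with hB
  have hF' : Hol J ρ (fun w => F w - F 0) := hF.sub (Hol.const ρ (F 0))
  have hG' : Hol J ρ (fun w => G w - G 0) := hG.sub (Hol.const ρ (G 0))
  have hAm : Measurable A := (hFm.sub_const _).add (hGm.sub_const _)
  have hBm : Measurable B := (hFm.sub_const _).sub (hGm.sub_const _)
  have hFb' : ∀ w, ‖F w - F 0‖ ≤ 2 * M := by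
    intro w
    refine (norm_sub_le _ _).trans ?_
    linarith [hFb w, hFb 0]
  have hGb' : ∀ w, ‖G w - G 0‖ ≤ 2 * M := by
    intro w
    refine (norm_sub_le _ _).trans ?_
    linarith [hGb w, hGb 0]
  have hAb : ∀ w, ‖A w‖ ≤ 4 * M := by
    intro w
    refine (norm_add_le _ _).trans ?_
    linarith [hFb' w, hGb' w]
  have hBb : ∀ w, ‖B w‖ ≤ 4 * M := by
    intro w
    refine (norm_sub_le _ _).trans ?_
    linarith [hFb' w, hGb' w]
  have hA4 := riesz_re ρ hρ hJ (hF'.add hG') hAm (4 * M) hAb (by simp)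
  have hB4 := riesz_im ρ hρ hJ (hF'.sub hG') hBm (4 * M) hBb (by simp)
  have eA : ∀ w, (A w).re = (u w - u0).re := by
    intro w
    simp [hA, hu, hu0]
    ring
  have eB : ∀ w, (B w).im = (u w - u0).im := by
    intro w
    simp [hB, hu, hu0]
    ring
  have hA5 : ∫ w, ‖A w‖ ^ 4 ∂(sg n) ≤ 768 * ∫ w, ‖u w‖ ^ 4 ∂(sg n) := by
    have h4 : ∫ w, (A w).re ^ 4 ∂(sg n) ≤ ∫ w, ‖u w - u0‖ ^ 4 ∂(sg n) := by
      refine integral_mono ?_ id4 fun w => ?_
      · refine int_of_bdd ((Complex.measurable_re.comp hAm).pow_const 4) (C := (4 * M) ^ 4)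
          fun w => ?_
        rw [abs_pow]
        exact pow_le_pow_left₀ (abs_nonneg _) ((Complex.abs_re_le_norm _).trans (hAb w)) 4
      · simp only
        rw [eA, ← Even.pow_abs (by decide : Even 4)]
        exact pow_le_pow_left₀ (abs_nonneg _) (Complex.abs_re_le_norm _) 4
    simp only [hA] at hA4 h4 ⊢
    linarith
  have hB5 : ∫ w, ‖B w‖ ^ 4 ∂(sg n) ≤ 768 * ∫ w, ‖u w‖ ^ 4 ∂(sg n) := by
    have h4 : ∫ w, (B w).im ^ 4 ∂(sg n) ≤ ∫ w, ‖u w - u0‖ ^ 4 ∂(sg n) := by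
      refine integral_mono ?_ id4 fun w => ?_
      · refine int_of_bdd ((Complex.measurable_im.comp hBm).pow_const 4) (C := (4 * M) ^ 4)
          fun w => ?_
        rw [abs_pow]
        exact pow_le_pow_left₀ (abs_nonneg _) ((Complex.abs_im_le_norm _).trans (hBb w)) 4
      · simp only
        rw [eB, ← Even.pow_abs (by decide : Even 4)]
        exact pow_le_pow_left₀ (abs_nonneg _) (Complex.abs_im_le_norm _) 4
    simp only [hB] at hB4 h4 ⊢
    linarith
  have iA : Integrable (fun w => ‖A w‖ ^ 4) (sg n) := int4 hAm hAb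
  have iB : Integrable (fun w => ‖B w‖ ^ 4) (sg n) := int4 hBm hBb
  refine ⟨?_, ?_, h3⟩
  · have h4 : ∫ w, ‖F w - F 0‖ ^ 4 ∂(sg n) ≤ ∫ w, (1 / 2 * ‖A w‖ ^ 4 + 1 / 2 * ‖B w‖ ^ 4) ∂(sg n) := by
      refine integral_mono (int4 (hFm.sub_const _) hFb') ((iA.const_mul _).add (iB.const_mul _))
        fun w => ?_
      have h5 := pt_add4 (A w / 2) (B w / 2)
      have h6 : A w / 2 + B w / 2 = F w - F 0 := by
        simp only [hA, hB]
        ring
      rw [h6, norm_div, norm_div, Complex.norm_ofNat, div_pow, div_pow] at h5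
      simp only
      linarith
    rw [integral_add (iA.const_mul _) (iB.const_mul _), integral_const_mul,
      integral_const_mul] at h4
    linarith
  · have h4 : ∫ w, ‖G w - G 0‖ ^ 4 ∂(sg n) ≤ ∫ w, (1 / 2 * ‖A w‖ ^ 4 + 1 / 2 * ‖B w‖ ^ 4) ∂(sg n) := by
      refine integral_mono (int4 (hGm.sub_const _) hGb') ((iA.const_mul _).add (iB.const_mul _))
        fun w => ?_
      have h5 := pt_add4 (A w / 2) (-(B w / 2))
      have h6 : A w / 2 + -(B w / 2) = G w - G 0 := by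
        simp only [hA, hB]
        ring
      rw [h6, norm_neg, norm_div, norm_div, Complex.norm_ofNat, div_pow, div_pow] at h5
      simp only
      linarith
    rw [integral_add (iA.const_mul _) (iB.const_mul _), integral_const_mul,
      integral_const_mul] at h4
    linarith

theorem lint4 {f : E n → ℂ} (hf : Measurable f) {C : ℝ} (hC : ∀ w, ‖f w‖ ≤ C) :
    ∫⁻ w, ‖f w‖ₑ ^ 4 ∂(sg n) = ENNReal.ofReal (∫ w, ‖f w‖ ^ 4 ∂(sg n)) := by
  rw [ofReal_integral_eq_lintegral_ofReal (int4 hf hC)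
    (Filter.Eventually.of_forall fun x => by positivity)]
  refine lintegral_congr fun w => ?_
  rw [← ofReal_norm, ENNReal.ofReal_pow (norm_nonneg _)]

theorem T_conj (G : E n → ℂ) (x : E n) : T (fun w => conj (G w)) x = conj (T G (-x)) := by
  unfold T
  rw [← integral_conj]
  refine integral_congr_ae (Filter.Eventually.of_forall fun w => ?_)
  simp only [map_mul]
  rw [← Complex.exp_conj]
  congr 2
  simp [inner_neg_left]

theorem three_rpow (a b c : ℝ≥0∞) {p : ℝ} (hp : 0 ≤ p) :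
    (a + b + c) ^ p ≤ ENNReal.ofReal (3 ^ p) * (a ^ p + b ^ p + c ^ p) := by
  have h1 : a + b + c ≤ 3 * max (max a b) c := by
    calc a + b + c ≤ max (max a b) c + max (max a b) c + max (max a b) c := by
          gcongr
          · exact (le_max_left _ _).trans (le_max_left _ _)
          · exact (le_max_right _ _).trans (le_max_left _ _)
          · exact le_max_right _ _
      _ = _ := by ring
  refine (ENNReal.rpow_le_rpow h1 hp).trans ?_
  rw [ENNReal.mul_rpow_of_nonneg _ _ hp, ← ENNReal.ofReal_rpow_of_nonneg (by norm_num) hp,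
    ENNReal.ofReal_ofNat]
  refine mul_le_mul' le_rfl ?_
  rcases max_choice (max a b) c with h | h
  · rw [h]
    rcases max_choice a b with h' | h'
    · rw [h', add_assoc]
      exact le_self_add
    · rw [h', add_assoc, add_comm, add_assoc]
      exact le_self_add
  · rw [h]
    exact le_add_self

/-- **The estimate for pluriharmonic densities which are smooth up to the boundary.** -/
theorem pluri_p (m : ℕ) (hm : 2 ≤ m) (p : ℝ) (hp : 4 * (m : ℝ) / (2 * m - 1) < p) (hp4 : p < 4) :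
    ∃ C : ℝ, 0 < C ∧
    ∀ (J : E (2 * m) →ₗᵢ[ℝ] E (2 * m)), (∀ x, J (J x) = -x) → ∀ (ρ : ℝ), 1 < ρ →
    ∀ (F G : E (2 * m) → ℂ), Hol J ρ F → Hol J ρ G → Measurable F → Measurable G → ∀ M : ℝ,
    (∀ x, ‖F x‖ ≤ M) → (∀ x, ‖G x‖ ≤ M) →
    ∫⁻ x, ‖T (fun w => F w + conj (G w)) x‖ₑ ^ p ≤
      ENNReal.ofReal C * (∫⁻ w, ‖F w + conj (G w)‖ₑ ^ 4 ∂(sg (2 * m))) ^ (p / 4) := by
  obtain ⟨C, hC, h⟩ := hol_p m hm p hp hp4
  have hm' : (2 : ℝ) ≤ m := by exact_mod_cast hm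
  have hp2 : 2 < p := by
    refine lt_of_le_of_lt ?_ hp
    rw [le_div_iff₀ (by linarith)]
    linarith
  have hfin := sg_finite (2 * m)
  refine ⟨3 ^ p * (C * 768 ^ (p / 4) * 3), by positivity, ?_⟩
  intro J hJ ρ hρ F G hF hG hFm hGm M hFb hGb
  obtain ⟨h1, h2, h3⟩ := parts ρ hρ hJ hF hG hFm hGm M hFb hGb
  set u : E (2 * m) → ℂ := fun w => F w + conj (G w) with hu
  set u0 : ℂ := F 0 + conj (G 0) with hu0
  have hum : Measurable u := hFm.add (Complex.continuous_conj.measurable.comp hGm)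
  have hub : ∀ x, ‖u x‖ ≤ 2 * M := by
    intro x
    refine (norm_add_le _ _).trans ?_
    rw [RCLike.norm_conj]
    linarith [hFb x, hGb x]
  have hFb' : ∀ w, ‖F w - F 0‖ ≤ 2 * M := by
    intro w
    refine (norm_sub_le _ _).trans ?_
    linarith [hFb w, hFb 0]
  have hGb' : ∀ w, ‖G w - G 0‖ ≤ 2 * M := by
    intro w
    refine (norm_sub_le _ _).trans ?_
    linarith [hGb w, hGb 0]
  set N := ∫ w, ‖u w‖ ^ 4 ∂(sg (2 * m)) with hN
  have hN0 : 0 ≤ N := integral_nonneg fun w => by positivity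
  have eN : ∫⁻ w, ‖u w‖ₑ ^ 4 ∂(sg (2 * m)) = ENNReal.ofReal N := lint4 hum hub
  have key : ∀ f : E (2 * m) → ℂ, Hol J ρ f → Measurable f → ∀ K : ℝ, (∀ x, ‖f x‖ ≤ K) →
      ∫ w, ‖f w‖ ^ 4 ∂(sg (2 * m)) ≤ 768 * N →
      ∫⁻ x, ‖T f x‖ₑ ^ p ≤ ENNReal.ofReal (C * 768 ^ (p / 4)) * ENNReal.ofReal N ^ (p / 4) := by
    intro f hf hfm K hfb hfN
    refine (h J hJ ρ hρ f hf hfm K hfb).trans ?_
    rw [lint4 hfm hfb, ENNReal.ofReal_mul hC.le, mul_assoc]
    refine mul_le_mul' le_rfl ?_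
    rw [← ENNReal.ofReal_rpow_of_nonneg (by norm_num) (by linarith),
      ← ENNReal.mul_rpow_of_nonneg _ _ (by linarith), ← ENNReal.ofReal_mul (by norm_num)]
    exact ENNReal.rpow_le_rpow (ENNReal.ofReal_le_ofReal hfN) (by linarith)
  have k1 := key (fun w => F w - F 0) (hF.sub (Hol.const ρ (F 0))) (hFm.sub_const _) _ hFb' h1
  have k2 := key (fun w => G w - G 0) (hG.sub (Hol.const ρ (G 0))) (hGm.sub_const _) _ hGb' h2
  have k3 := key (fun _ => u0) (Hol.const ρ u0) measurable_const ‖u0‖ (fun _ => le_rfl)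
    (h3.trans (by linarith))
  -- the decomposition
  have hTF : Measurable (T fun w => F w - F 0) := (measurable_T _ (hFm.sub_const _)).measurable
  have hTG : Measurable (T fun w => G w - G 0) := (measurable_T _ (hGm.sub_const _)).measurable
  have hTu : Measurable (T fun _ : E (2 * m) => u0) :=
    (measurable_T _ measurable_const).measurable
  have hint : ∀ (x : E (2 * m)) (f : E (2 * m) → ℂ), Measurable f → ∀ K : ℝ, (∀ w, ‖f w‖ ≤ K) →
      Integrable (fun w => Complex.exp (-((⟪x, w⟫ : ℝ) : ℂ) * I) * f w) (sg (2 * m)) := by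
    intro x f hf K hK
    have hem : Measurable fun w : E (2 * m) => Complex.exp (-((⟪x, w⟫ : ℝ) : ℂ) * I) :=
      (by fun_prop : Continuous fun w : E (2 * m) =>
        Complex.exp (-((⟪x, w⟫ : ℝ) : ℂ) * I)).measurable
    refine Integrable.of_bound (hem.mul hf).aestronglyMeasurable K
      (Filter.Eventually.of_forall fun w => ?_)
    rw [norm_mul, show -((⟪x, w⟫ : ℝ) : ℂ) * I = ((-⟪x, w⟫ : ℝ) : ℂ) * I by push_cast; ring,
      Complex.norm_exp_ofReal_mul_I, one_mul]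
    exact hK w
  have hdec : ∀ x, T u x = T (fun w => F w - F 0) x + conj (T (fun w => G w - G 0) (-x)) +
      T (fun _ => u0) x := by
    intro x
    rw [← T_conj]
    have i1 := hint x _ (hFm.sub_const (F 0)) _ hFb'
    have i2 := hint x (fun w => conj (G w - G 0))
      (Complex.continuous_conj.measurable.comp (hGm.sub_const (G 0))) (2 * M) (fun w => by
        rw [RCLike.norm_conj]
        exact hGb' w)
    have i3 := hint x (fun _ => u0) measurable_const ‖u0‖ (fun _ => le_rfl)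
    unfold T
    have i12 := integral_add i1 i2
    have i123 := integral_add (i1.add i2) i3
    simp only [Pi.add_apply] at i12 i123
    rw [← i12, ← i123]
    refine integral_congr_ae (Filter.Eventually.of_forall fun w => ?_)
    simp only [hu, hu0, map_sub]
    ring
  have hneg : ∫⁻ x, ‖T (fun w => G w - G 0) (-x)‖ₑ ^ p = ∫⁻ x, ‖T (fun w => G w - G 0) x‖ₑ ^ p :=
    (LinearIsometryEquiv.neg ℝ (E := E (2 * m))).measurePreserving.lintegral_comp
      (hTG.enorm.pow_const p)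
  have hpt : ∀ x, ‖T u x‖ₑ ^ p ≤ ENNReal.ofReal (3 ^ p) *
      (‖T (fun w => F w - F 0) x‖ₑ ^ p + ‖T (fun w => G w - G 0) (-x)‖ₑ ^ p +
        ‖T (fun _ => u0) x‖ₑ ^ p) := by
    intro x
    have h4 : ‖T u x‖ₑ ≤ ‖T (fun w => F w - F 0) x‖ₑ + ‖T (fun w => G w - G 0) (-x)‖ₑ +
        ‖T (fun _ => u0) x‖ₑ := by
      rw [hdec x]
      refine (enorm_add_le _ _).trans (add_le_add ((enorm_add_le _ _).trans ?_) le_rfl)
      rw [← ofReal_norm (conj _), RCLike.norm_conj, ofReal_norm]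
    refine (ENNReal.rpow_le_rpow h4 (by linarith)).trans ?_
    exact three_rpow _ _ _ (by linarith)
  calc ∫⁻ x, ‖T u x‖ₑ ^ p
      ≤ ∫⁻ x, ENNReal.ofReal (3 ^ p) *
        (‖T (fun w => F w - F 0) x‖ₑ ^ p + ‖T (fun w => G w - G 0) (-x)‖ₑ ^ p +
          ‖T (fun _ => u0) x‖ₑ ^ p) := lintegral_mono hpt
    _ = ENNReal.ofReal (3 ^ p) * ((∫⁻ x, ‖T (fun w => F w - F 0) x‖ₑ ^ p) +
        (∫⁻ x, ‖T (fun w => G w - G 0) x‖ₑ ^ p) + ∫⁻ x, ‖T (fun _ => u0) x‖ₑ ^ p) := by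
        rw [lintegral_const_mul' _ _ ENNReal.ofReal_ne_top,
          lintegral_add_right _ (hTu.enorm.pow_const p),
          lintegral_add_left (hTF.enorm.pow_const p), hneg]
    _ ≤ ENNReal.ofReal (3 ^ p) * (ENNReal.ofReal (C * 768 ^ (p / 4)) * ENNReal.ofReal N ^ (p / 4) +
        ENNReal.ofReal (C * 768 ^ (p / 4)) * ENNReal.ofReal N ^ (p / 4) +
        ENNReal.ofReal (C * 768 ^ (p / 4)) * ENNReal.ofReal N ^ (p / 4)) := by
        gcongr
    _ = _ := by
        rw [eN, ENNReal.ofReal_mul (p := (3 : ℝ) ^ p) (by positivity),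
          ENNReal.ofReal_mul (p := C * 768 ^ (p / 4)) (by positivity), ENNReal.ofReal_ofNat]
        ring

end Pool.Agent.Y251.HR
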