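import Mathlib
import Pool.Agent.Y251.HR.C2
import Pool.Agent.H438R2.PD.Core
set_option autoImplicit false

/-! Passage to the boundary. -/

namespace Pool.Agent.Y251.HR

open MeasureTheory Set Complex Metric Filter
open scoped ENNReal RealInnerProductSpace ComplexConjugate NNReal Topology
open Pool.Agent.H789R2.FR (E sg sg_finite sg_ae sg_inv T)
open Pool.Agent.H789R2.FR.L2 (measurable_T)

/-- convergence in mean from almost everywhere convergence and a bound in `L^4` -/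
theorem vitali {α : Type*} [MeasurableSpace α] (μ : Measure α) [IsFiniteMeasure μ]
    (u : ℕ → α → ℂ) (g : α → ℂ) (hu : ∀ k, AEStronglyMeasurable (u k) μ) (B : ℝ≥0∞) (hB : B ≠ ∞)
    (hub : ∀ k, ∫⁻ x, ‖u k x‖ₑ ^ 4 ∂μ ≤ B)
    (hlim : ∀ᵐ x ∂μ, Tendsto (fun k => u k x) atTop (𝓝 (g x))) :
    AEStronglyMeasurable g μ ∧ ∫⁻ x, ‖g x‖ₑ ^ 4 ∂μ ≤ B ∧
      Tendsto (fun k => ∫⁻ x, ‖u k x - g x‖ₑ ∂μ) atTop (𝓝 0) := by
  have hg : AEStronglyMeasurable g μ := aestronglyMeasurable_of_tendsto_ae _ hu hlim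
  have hg4 : ∫⁻ x, ‖g x‖ₑ ^ 4 ∂μ ≤ B := by
    calc ∫⁻ x, ‖g x‖ₑ ^ 4 ∂μ = ∫⁻ x, liminf (fun k => ‖u k x‖ₑ ^ 4) atTop ∂μ := by
          refine lintegral_congr_ae ?_
          filter_upwards [hlim] with x hx
          have h1 : Tendsto (fun k => ‖u k x‖ₑ ^ 4) atTop (𝓝 (‖g x‖ₑ ^ 4)) :=
            ((ENNReal.continuous_pow 4).tendsto _).comp hx.enorm
          exact h1.liminf_eq.symm
      _ ≤ liminf (fun k => ∫⁻ x, ‖u k x‖ₑ ^ 4 ∂μ) atTop :=
          lintegral_liminf_le' fun k => (hu k).enorm.pow_const 4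
      _ ≤ B := by
          refine liminf_le_of_frequently_le' ?_
          exact Frequently.of_forall hub
  refine ⟨hg, hg4, ?_⟩
  -- the fourth powers of the differences
  have hd4 : ∀ k, ∫⁻ x, ‖u k x - g x‖ₑ ^ 4 ∂μ ≤ 16 * B := by
    intro k
    have h1 : ∀ x, ‖u k x - g x‖ₑ ^ 4 ≤ 8 * ‖u k x‖ₑ ^ 4 + 8 * ‖g x‖ₑ ^ 4 := by
      intro x
      have h2 := pt_add4 (u k x) (-g x)
      rw [norm_neg, ← sub_eq_add_neg] at h2
      have h3 := ENNReal.ofReal_le_ofReal h2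
      rw [ENNReal.ofReal_add (by positivity) (by positivity), ENNReal.ofReal_mul (by norm_num),
        ENNReal.ofReal_mul (by norm_num), ENNReal.ofReal_pow (norm_nonneg _),
        ENNReal.ofReal_pow (norm_nonneg _), ENNReal.ofReal_pow (norm_nonneg _), ofReal_norm,
        ofReal_norm, ofReal_norm, ENNReal.ofReal_ofNat] at h3
      exact h3
    calc ∫⁻ x, ‖u k x - g x‖ₑ ^ 4 ∂μ ≤ ∫⁻ x, (8 * ‖u k x‖ₑ ^ 4 + 8 * ‖g x‖ₑ ^ 4) ∂μ :=
          lintegral_mono h1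
      _ = 8 * (∫⁻ x, ‖u k x‖ₑ ^ 4 ∂μ) + 8 * ∫⁻ x, ‖g x‖ₑ ^ 4 ∂μ := by
          rw [lintegral_add_right' _ ((hg.enorm.pow_const 4).const_mul _),
            lintegral_const_mul' _ _ (by norm_num), lintegral_const_mul' _ _ (by norm_num)]
      _ ≤ 8 * B + 8 * B := by
          gcongr
          exact hub k
      _ = _ := by ring
  -- truncation
  have hpt : ∀ (j : ℕ), 1 ≤ j → ∀ h : ℝ≥0∞, h ≤ min h (j : ℝ≥0∞) + (j : ℝ≥0∞)⁻¹ * h ^ 4 := by
    intro j hj h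
    have hj1 : (1 : ℝ≥0∞) ≤ j := by exact_mod_cast hj
    have hj0 : (j : ℝ≥0∞) ≠ 0 := (lt_of_lt_of_le one_pos hj1).ne'
    have hjt : (j : ℝ≥0∞) ≠ ∞ := ENNReal.natCast_ne_top j
    rcases le_total h j with h1 | h1
    · rw [min_eq_left h1]
      exact le_self_add
    · refine le_trans ?_ le_add_self
      have h2 : (1 : ℝ≥0∞) ≤ h := hj1.trans h1
      calc h = (j : ℝ≥0∞)⁻¹ * (j * h) := by
            rw [← mul_assoc, ENNReal.inv_mul_cancel hj0 hjt, one_mul]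
        _ ≤ (j : ℝ≥0∞)⁻¹ * (h * h) := by gcongr
        _ = (j : ℝ≥0∞)⁻¹ * h ^ 2 := by rw [sq]
        _ ≤ (j : ℝ≥0∞)⁻¹ * h ^ 4 := by
            gcongr
            norm_num
  have hmin : ∀ j : ℕ, Tendsto (fun k => ∫⁻ x, min ‖u k x - g x‖ₑ (j : ℝ≥0∞) ∂μ) atTop (𝓝 0) := by
    intro j
    have h1 : Tendsto (fun k => ∫⁻ x, min ‖u k x - g x‖ₑ (j : ℝ≥0∞) ∂μ) atTop
        (𝓝 (∫⁻ _x, 0 ∂μ)) := by
      refine tendsto_lintegral_of_dominated_convergence' (fun _ => (j : ℝ≥0∞)) (fun k => ?_)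
        (fun k => Eventually.of_forall fun x => min_le_right _ _) ?_ ?_
      · exact ((hu k).sub hg).enorm.min aemeasurable_const
      · rw [lintegral_const]
        exact ENNReal.mul_ne_top (ENNReal.natCast_ne_top j) (measure_ne_top _ _)
      · filter_upwards [hlim] with x hx
        have h2 : Tendsto (fun k => ‖u k x - g x‖ₑ) atTop (𝓝 0) := by
          have h3 : Tendsto (fun k => u k x - g x) atTop (𝓝 (g x - g x)) :=
            hx.sub tendsto_const_nhds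
          rw [sub_self] at h3
          have h4 := h3.enorm
          rwa [enorm_zero] at h4
        refine tendsto_of_tendsto_of_tendsto_of_le_of_le tendsto_const_nhds h2
          (fun k => zero_le) (fun k => min_le_left _ _)
    rwa [lintegral_zero] at h1
  rw [ENNReal.tendsto_nhds_zero]
  intro ε hε
  have h1 : Tendsto (fun j : ℕ => (j : ℝ≥0∞)⁻¹ * (16 * B)) atTop (𝓝 0) := by
    have h2 := ENNReal.Tendsto.mul_const (b := 16 * B) ENNReal.tendsto_inv_nat_nhds_zero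
      (Or.inr (ENNReal.mul_ne_top (by norm_num) hB))
    rwa [zero_mul] at h2
  have hε2 : 0 < ε / 2 := ENNReal.half_pos hε.ne'
  obtain ⟨j, hj, hj1⟩ := (((ENNReal.tendsto_nhds_zero.1 h1) (ε / 2) hε2).and
    (eventually_ge_atTop 1)).exists
  filter_upwards [(ENNReal.tendsto_nhds_zero.1 (hmin j)) (ε / 2) hε2] with k hk
  calc ∫⁻ x, ‖u k x - g x‖ₑ ∂μ
      ≤ ∫⁻ x, (min ‖u k x - g x‖ₑ (j : ℝ≥0∞) + (j : ℝ≥0∞)⁻¹ * ‖u k x - g x‖ₑ ^ 4) ∂μ :=
        lintegral_mono fun x => hpt j hj1 _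
    _ = (∫⁻ x, min ‖u k x - g x‖ₑ (j : ℝ≥0∞) ∂μ) +
        (j : ℝ≥0∞)⁻¹ * ∫⁻ x, ‖u k x - g x‖ₑ ^ 4 ∂μ := by
        have hj0 : (j : ℝ≥0∞) ≠ 0 := by
          have : (1 : ℝ≥0∞) ≤ j := by exact_mod_cast hj1
          exact (lt_of_lt_of_le one_pos this).ne'
        have hmm : AEMeasurable (fun x => min ‖u k x - g x‖ₑ (j : ℝ≥0∞)) μ :=
          ((hu k).sub hg).enorm.min aemeasurable_const
        rw [lintegral_add_left' hmm,
          lintegral_const_mul' _ _ (ENNReal.inv_ne_top.2 hj0)]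
    _ ≤ ε / 2 + (j : ℝ≥0∞)⁻¹ * (16 * B) := by
        gcongr
        exact hd4 k
    _ ≤ ε / 2 + ε / 2 := by gcongr
    _ = ε := ENNReal.add_halves ε

end Pool.Agent.Y251.HR
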