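import Mathlib
import Pool.Agent.Y251.HR.C3
set_option autoImplicit false

/-! The estimate for boundary functions. -/

namespace Pool.Agent.Y251.HR

open MeasureTheory Set Complex Metric Filter
open scoped ENNReal RealInnerProductSpace ComplexConjugate NNReal Topology
open Pool.Agent.H789R2.FR (E sg sg_finite sg_ae sg_inv T)
open Pool.Agent.H789R2.FR.L2 (measurable_T)

/-- surface measure on the unit sphere -/
noncomputable def sig (n : ℕ) : Measure (sphere (0 : E n) 1) := (volume : Measure (E n)).toSphere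

/-- the Fourier transform of the measure `g dσ` -/
noncomputable def sft {n : ℕ} (g : sphere (0 : E n) 1 → ℂ) (ξ : E n) : ℂ :=
  ∫ x, Complex.exp (-(2 * Real.pi * ⟪(x : E n), ξ⟫ : ℝ) * I) * g x ∂(sig n)

theorem sft_eq {n : ℕ} (g : sphere (0 : E n) 1 → ℂ) (G : E n → ℂ) (hG : Measurable G)
    (hg : ∀ᵐ x ∂(sig n), g x = G x) (ξ : E n) : sft g ξ = T G ((2 * Real.pi) • ξ) := by
  unfold T sft
  have m1 : Measurable fun w : E n =>
      Complex.exp (-((⟪(2 * Real.pi) • ξ, w⟫ : ℝ) : ℂ) * I) * G w := by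
    have h2 : Measurable fun z : E n => (⟪(2 * Real.pi) • ξ, z⟫ : ℝ) :=
      (by fun_prop : Continuous _).measurable
    exact (Complex.measurable_exp.comp ((Complex.measurable_ofReal.comp h2).neg.mul_const I)).mul hG
  simp only [sg]
  rw [integral_map measurable_subtype_coe.aemeasurable m1.aestronglyMeasurable]
  apply integral_congr_ae
  filter_upwards [hg] with x hx
  rw [hx, real_inner_smul_left, real_inner_comm]

theorem scale_int {n : ℕ} (f : E n → ℝ≥0∞) (hf : Measurable f) :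
    ∫⁻ ξ : E n, f ((2 * Real.pi) • ξ) =
      ENNReal.ofReal ((2 * Real.pi) ^ n)⁻¹ * ∫⁻ z, f z := by
  have h2pi : (2 * Real.pi) ≠ 0 := by positivity
  have h3 := Measure.map_addHaar_smul (volume : Measure (E n)) h2pi
  have h4 : ∫⁻ x : E n, f x ∂(Measure.map ((2 * Real.pi) • · : E n → E n) volume) =
      ∫⁻ ξ : E n, f ((2 * Real.pi) • ξ) := lintegral_map hf (measurable_const_smul _)
  rw [← h4, h3, lintegral_smul_measure, smul_eq_mul, finrank_euclideanSpace_fin,
    abs_of_nonneg (by positivity)]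

/-- a holomorphic function in the unit ball, restricted to a smaller sphere -/
theorem trunc {n : ℕ} {J : E n →ₗᵢ[ℝ] E n} {F : E n → ℂ} (hF : Hol J 1 F) (s : ℝ) (hs : 0 < s)
    (hs1 : s < 1) : ∃ F1 : E n → ℂ, Hol J ((1 + s) / 2 / s) F1 ∧ Measurable F1 ∧
      (∃ K : ℝ, ∀ x, ‖F1 x‖ ≤ K) ∧ ∀ x, ‖x‖ = 1 → F1 x = F (s • x) := by
  classical
  set s' : ℝ := (1 + s) / 2 with hs'
  have h1 : s < s' := by rw [hs']; linarith
  have h2 : s' < 1 := by rw [hs']; linarith
  have h0 : 0 < s' := by linarith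
  set F0 : E n → ℂ := (ball (0 : E n) s').indicator F with hF0
  have hF0h : Hol J s' F0 := (hF.mono h2.le).congr fun x hx => indicator_of_mem hx _
  have hF0m : Measurable F0 := by
    have h3 : ContinuousOn F (ball 0 s') := hF.continuousOn.mono (ball_subset_ball h2.le)
    have h4 : Measurable ((ball (0 : E n) s').piecewise F 0) :=
      h3.measurable_piecewise continuousOn_const measurableSet_ball
    rwa [piecewise_eq_indicator] at h4
  obtain ⟨K, hK⟩ := (isCompact_closedBall (0 : E n) s').exists_bound_of_continuousOn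
    (hF.continuousOn.mono (closedBall_subset_ball h2))
  have hK0 : 0 ≤ K := (norm_nonneg _).trans (hK 0 (by simp [h0.le]))
  have hF0b : ∀ x, ‖F0 x‖ ≤ K := by
    intro x
    by_cases hx : x ∈ ball (0 : E n) s'
    · rw [hF0, indicator_of_mem hx]
      exact hK x (ball_subset_closedBall hx)
    · rw [hF0, indicator_of_notMem hx, norm_zero]
      exact hK0
  refine ⟨fun x => F0 (s • x), hF0h.scale hs, hF0m.comp (measurable_const_smul s),
    ⟨K, fun x => hF0b _⟩, fun x hx => ?_⟩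
  simp only [hF0]
  rw [indicator_of_mem]
  rw [mem_ball_zero_iff, norm_smul, hx, mul_one, Real.norm_of_nonneg hs.le]
  exact h1

/-- **The estimate for boundary functions of pluriharmonic functions**, `p < 4`. -/
theorem bdry_p (m : ℕ) (hm : 2 ≤ m) (p : ℝ) (hp : 4 * (m : ℝ) / (2 * m - 1) < p) (hp4 : p < 4) :
    ∃ C : ℝ, 0 < C ∧
    ∀ (J : E (2 * m) →ₗᵢ[ℝ] E (2 * m)), (∀ x, J (J x) = -x) →
    ∀ (F G : E (2 * m) → ℂ), Hol J 1 F → Hol J 1 G → ∀ M : ℝ, 0 ≤ M →
    (∀ s : ℝ, 0 < s → s < 1 → ∫ x : sphere (0 : E (2 * m)) 1,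
      ‖F (s • (x : E (2 * m))) + conj (G (s • (x : E (2 * m))))‖ ^ 4 ∂(sig (2 * m)) ≤ M ^ 4) →
    ∀ g : sphere (0 : E (2 * m)) 1 → ℂ,
    (∀ᵐ x : sphere (0 : E (2 * m)) 1 ∂(sig (2 * m)), Tendsto (fun s : ℝ =>
      F (s • (x : E (2 * m))) + conj (G (s • (x : E (2 * m))))) (𝓝[<] 1) (𝓝 (g x))) →
    AEStronglyMeasurable g (sig (2 * m)) ∧
    (∫⁻ x, ‖g x‖ₑ ^ 4 ∂(sig (2 * m)) ≤ ENNReal.ofReal (M ^ 4)) ∧ Measurable (sft g) ∧
    ∫⁻ ξ, ‖sft g ξ‖ₑ ^ p ≤ ENNReal.ofReal (C * M ^ p) := by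
  obtain ⟨C, hC, h⟩ := pluri_p m hm p hp hp4
  have hm' : (2 : ℝ) ≤ m := by exact_mod_cast hm
  have hp2 : 2 < p := by
    refine lt_of_le_of_lt ?_ hp
    rw [le_div_iff₀ (by linarith)]
    linarith
  refine ⟨C, hC, ?_⟩
  intro J hJ F G hF hG M hM0 hM g hg
  have hsf : IsFiniteMeasure (sig (2 * m)) := by
    unfold sig
    infer_instance
  -- one radius
  have one : ∀ s : ℝ, 0 < s → s < 1 →
      AEStronglyMeasurable (fun x : sphere (0 : E (2 * m)) 1 =>
        F (s • (x : E (2 * m))) + conj (G (s • (x : E (2 * m))))) (sig (2 * m)) ∧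
      (∫⁻ x : sphere (0 : E (2 * m)) 1, ‖F (s • (x : E (2 * m))) +
        conj (G (s • (x : E (2 * m))))‖ₑ ^ 4 ∂(sig (2 * m)) ≤ ENNReal.ofReal (M ^ 4)) ∧
      Measurable (sft fun x : sphere (0 : E (2 * m)) 1 =>
        F (s • (x : E (2 * m))) + conj (G (s • (x : E (2 * m))))) ∧
      ∫⁻ ξ, ‖sft (fun x : sphere (0 : E (2 * m)) 1 =>
        F (s • (x : E (2 * m))) + conj (G (s • (x : E (2 * m))))) ξ‖ₑ ^ p ≤
          ENNReal.ofReal (C * M ^ p) := by
    intro s hs hs1
    obtain ⟨F1, hF1, hF1m, ⟨K1, hK1⟩, hF1e⟩ := trunc hF s hs hs1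
    obtain ⟨G1, hG1, hG1m, ⟨K2, hK2⟩, hG1e⟩ := trunc hG s hs hs1
    have hρ : 1 < (1 + s) / 2 / s := by
      rw [lt_div_iff₀ hs]
      linarith
    set u : sphere (0 : E (2 * m)) 1 → ℂ := fun x =>
      F (s • (x : E (2 * m))) + conj (G (s • (x : E (2 * m)))) with hu
    set U : E (2 * m) → ℂ := fun w => F1 w + conj (G1 w) with hU
    have hUm : Measurable U := hF1m.add (Complex.continuous_conj.measurable.comp hG1m)
    have huU : ∀ x : sphere (0 : E (2 * m)) 1, u x = U x := by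
      intro x
      have hx : ‖(x : E (2 * m))‖ = 1 := by simp
      simp only [hu, hU]
      rw [hF1e _ hx, hG1e _ hx]
    have huf : u = fun x : sphere (0 : E (2 * m)) 1 => U x := funext huU
    have hum : Measurable u := by
      rw [huf]
      exact hUm.comp measurable_subtype_coe
    have hub : ∀ x, ‖u x‖ ≤ K1 + K2 := by
      intro x
      rw [huU]
      refine (norm_add_le _ _).trans ?_
      rw [RCLike.norm_conj]
      exact add_le_add (hK1 _) (hK2 _)
    have h4 : ∫⁻ x, ‖u x‖ₑ ^ 4 ∂(sig (2 * m)) ≤ ENNReal.ofReal (M ^ 4) := by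
      have h5 : ∫⁻ x, ‖u x‖ₑ ^ 4 ∂(sig (2 * m)) = ENNReal.ofReal (∫ x, ‖u x‖ ^ 4 ∂(sig (2 * m))) := by
        rw [ofReal_integral_eq_lintegral_ofReal]
        · refine lintegral_congr fun w => ?_
          rw [← ofReal_norm, ENNReal.ofReal_pow (norm_nonneg _)]
        · refine Integrable.of_bound (hum.norm.pow_const 4).aestronglyMeasurable ((K1 + K2) ^ 4)
            (Filter.Eventually.of_forall fun x => ?_)
          rw [Real.norm_of_nonneg (by positivity)]
          exact pow_le_pow_left₀ (norm_nonneg _) (hub x) 4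
        · exact Filter.Eventually.of_forall fun x => by positivity
      rw [h5]
      exact ENNReal.ofReal_le_ofReal (hM s hs hs1)
    have hfun : sft u = fun ξ => T U ((2 * Real.pi) • ξ) := by
      funext ξ
      exact sft_eq u U hUm (Eventually.of_forall huU) ξ
    have hTm : Measurable (T U) := (measurable_T U hUm).measurable
    have hmeas : Measurable fun z => ‖T U z‖ₑ ^ p := hTm.enorm.pow_const p
    refine ⟨hum.aestronglyMeasurable, h4, ?_, ?_⟩
    · rw [hfun]
      exact hTm.comp (measurable_const_smul _)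
    · rw [hfun, scale_int (fun z => ‖T U z‖ₑ ^ p) hmeas]
      have h5 : ENNReal.ofReal ((2 * Real.pi) ^ (2 * m))⁻¹ ≤ 1 := by
        rw [ENNReal.ofReal_le_one]
        apply inv_le_one_of_one_le₀
        apply one_le_pow₀
        linarith [Real.pi_gt_three]
      have h6 : ∫⁻ w, ‖U w‖ₑ ^ 4 ∂(sg (2 * m)) = ∫⁻ x, ‖u x‖ₑ ^ 4 ∂(sig (2 * m)) := by
        simp only [sg]
        rw [lintegral_map (hUm.enorm.pow_const 4) measurable_subtype_coe]
        exact lintegral_congr fun x => by rw [huU]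
      have h7 := h J hJ _ hρ F1 G1 hF1 hG1 hF1m hG1m (max K1 K2)
        (fun x => (hK1 x).trans (le_max_left _ _)) (fun x => (hK2 x).trans (le_max_right _ _))
      calc _ ≤ 1 * ∫⁻ z, ‖T U z‖ₑ ^ p := by gcongr
        _ = ∫⁻ z, ‖T U z‖ₑ ^ p := one_mul _
        _ ≤ ENNReal.ofReal C * (∫⁻ w, ‖U w‖ₑ ^ 4 ∂(sg (2 * m))) ^ (p / 4) := h7
        _ ≤ ENNReal.ofReal C * (ENNReal.ofReal (M ^ 4)) ^ (p / 4) := by
            rw [h6]
            gcongr
        _ = ENNReal.ofReal (C * M ^ p) := by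
            rw [ENNReal.ofReal_rpow_of_nonneg (by positivity) (by linarith),
              ← ENNReal.ofReal_mul hC.le, ← Real.rpow_natCast, ← Real.rpow_mul hM0]
            congr 3
            push_cast
            ring
  -- a sequence of radii
  set r : ℕ → ℝ := fun k => 1 - 1 / ((k : ℝ) + 2) with hr
  have hr0 : ∀ k, 0 < r k := by
    intro k
    have h1 : 1 / ((k : ℝ) + 2) < 1 := by
      rw [div_lt_one (by positivity)]
      linarith [Nat.cast_nonneg (α := ℝ) k]
    simp only [hr]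
    linarith
  have hr1 : ∀ k, r k < 1 := by
    intro k
    have h1 : 0 < 1 / ((k : ℝ) + 2) := by positivity
    simp only [hr]
    linarith
  have hrt : Tendsto r atTop (𝓝[<] 1) := by
    rw [tendsto_nhdsWithin_iff]
    refine ⟨?_, Eventually.of_forall hr1⟩
    have h1 : Tendsto (fun k : ℕ => 1 / ((k : ℝ) + 2)) atTop (𝓝 0) := by
      have h2 : Tendsto (fun k : ℕ => (k : ℝ) + 2) atTop atTop :=
        tendsto_natCast_atTop_atTop.atTop_add tendsto_const_nhds
      simp only [one_div]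
      exact h2.inv_tendsto_atTop
    have h2 := (tendsto_const_nhds (x := (1 : ℝ))).sub h1
    rw [sub_zero] at h2
    exact h2
  set u : ℕ → sphere (0 : E (2 * m)) 1 → ℂ := fun k x =>
    F (r k • (x : E (2 * m))) + conj (G (r k • (x : E (2 * m)))) with hu
  have hlim : ∀ᵐ x ∂(sig (2 * m)), Tendsto (fun k => u k x) atTop (𝓝 (g x)) := by
    filter_upwards [hg] with x hx
    exact hx.comp hrt
  have hone := fun k => one (r k) (hr0 k) (hr1 k)
  obtain ⟨v1, v2, v3⟩ := vitali (sig (2 * m)) u g (fun k => (hone k).1) (ENNReal.ofReal (M ^ 4))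
    ENNReal.ofReal_ne_top (fun k => (hone k).2.1) hlim
  -- integrability
  have hL1 : ∀ f : sphere (0 : E (2 * m)) 1 → ℂ, AEStronglyMeasurable f (sig (2 * m)) →
      ∫⁻ x, ‖f x‖ₑ ^ 4 ∂(sig (2 * m)) ≤ ENNReal.ofReal (M ^ 4) → Integrable f (sig (2 * m)) := by
    intro f hf hf4
    refine ⟨hf, ?_⟩
    have h1 : ∀ t : ℝ≥0∞, t ≤ 1 + t ^ 4 := by
      intro t
      rcases le_total t 1 with h2 | h2
      · exact h2.trans le_self_add
      · calc t = t ^ 1 := (pow_one t).symm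
          _ ≤ t ^ 4 := pow_le_pow_right₀ h2 (by norm_num)
          _ ≤ _ := le_add_self
    rw [HasFiniteIntegral]
    calc ∫⁻ x, ‖f x‖ₑ ∂(sig (2 * m)) ≤ ∫⁻ x, (1 + ‖f x‖ₑ ^ 4) ∂(sig (2 * m)) :=
          lintegral_mono fun x => h1 _
      _ = (∫⁻ _x, 1 ∂(sig (2 * m))) + ∫⁻ x, ‖f x‖ₑ ^ 4 ∂(sig (2 * m)) := by
          rw [lintegral_add_left measurable_const]
      _ < ∞ := by
          rw [lintegral_const, one_mul]
          exact ENNReal.add_lt_top.2 ⟨measure_lt_top _ _, hf4.trans_lt ENNReal.ofReal_lt_top⟩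
  have hem : ∀ ξ : E (2 * m), Measurable fun x : sphere (0 : E (2 * m)) 1 =>
      Complex.exp (-(2 * Real.pi * ⟪(x : E (2 * m)), ξ⟫ : ℝ) * I) := by
    intro ξ
    have h4 : Continuous fun x : sphere (0 : E (2 * m)) 1 =>
      Complex.exp (-(2 * Real.pi * ⟪(x : E (2 * m)), ξ⟫ : ℝ) * I) := by fun_prop
    exact h4.measurable
  have hen : ∀ (ξ : E (2 * m)) (x : sphere (0 : E (2 * m)) 1),
      ‖Complex.exp (-(2 * Real.pi * ⟪(x : E (2 * m)), ξ⟫ : ℝ) * I)‖ = 1 := by
    intro ξ x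
    have h3 : -(((2 * Real.pi * ⟪(x : E (2 * m)), ξ⟫ : ℝ)) : ℂ) * I =
        ((-(2 * Real.pi * ⟪(x : E (2 * m)), ξ⟫) : ℝ) : ℂ) * I := by push_cast; ring
    rw [h3, Complex.norm_exp_ofReal_mul_I]
  have hconv : ∀ ξ, Tendsto (fun k => sft (u k) ξ) atTop (𝓝 (sft g ξ)) := by
    intro ξ
    rw [tendsto_iff_edist_tendsto_0]
    refine tendsto_of_tendsto_of_tendsto_of_le_of_le tendsto_const_nhds v3 (fun k => zero_le)
      fun k => ?_
    have hi : ∀ f : sphere (0 : E (2 * m)) 1 → ℂ, Integrable f (sig (2 * m)) →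
        Integrable (fun x : sphere (0 : E (2 * m)) 1 =>
          Complex.exp (-(2 * Real.pi * ⟪(x : E (2 * m)), ξ⟫ : ℝ) * I) * f x) (sig (2 * m)) := by
      intro f hf
      refine hf.bdd_mul (hem ξ).aestronglyMeasurable (c := 1)
        (Eventually.of_forall fun x => (hen ξ x).le)
    rw [edist_eq_enorm_sub]
    unfold sft
    rw [← integral_sub (hi _ (hL1 _ (hone k).1 (hone k).2.1)) (hi _ (hL1 _ v1 v2))]
    refine (enorm_integral_le_lintegral_enorm _).trans (le_of_eq ?_)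
    refine lintegral_congr fun x => ?_
    rw [← mul_sub, enorm_mul, ← ofReal_norm (Complex.exp _), hen, ENNReal.ofReal_one, one_mul]
  refine ⟨v1, v2, ?_, ?_⟩
  · exact measurable_of_tendsto_metrizable (fun k => (hone k).2.2.1) (tendsto_pi_nhds.2 hconv)
  · calc ∫⁻ ξ, ‖sft g ξ‖ₑ ^ p = ∫⁻ ξ, liminf (fun k => ‖sft (u k) ξ‖ₑ ^ p) atTop := by
          refine lintegral_congr fun ξ => ?_
          have h1 : Tendsto (fun k => ‖sft (u k) ξ‖ₑ ^ p) atTop (𝓝 (‖sft g ξ‖ₑ ^ p)) :=
            (ENNReal.continuous_rpow_const.tendsto _).comp (hconv ξ).enorm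
          exact h1.liminf_eq.symm
      _ ≤ liminf (fun k => ∫⁻ ξ, ‖sft (u k) ξ‖ₑ ^ p) atTop :=
          lintegral_liminf_le fun k => (hone k).2.2.1.enorm.pow_const p
      _ ≤ ENNReal.ofReal (C * M ^ p) := by
          refine liminf_le_of_frequently_le' ?_
          exact Frequently.of_forall fun k => (hone k).2.2.2

end Pool.Agent.Y251.HR
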