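import Mathlib
import Pool.Agent.Y251.HR.C4
set_option autoImplicit false

/-! All exponents. -/

namespace Pool.Agent.Y251.HR

open MeasureTheory Set Complex Metric Filter
open scoped ENNReal RealInnerProductSpace ComplexConjugate NNReal Topology
open Pool.Agent.H789R2.FR (E sg sg_finite sg_ae sg_inv T)

/-- Hölder on a finite measure space -/
theorem holder14 {α : Type*} [MeasurableSpace α] (μ : Measure α) [IsFiniteMeasure μ]
    (g : α → ℂ) (hg : AEStronglyMeasurable g μ) (M : ℝ) (hM : 0 ≤ M)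
    (h : ∫⁻ w, ‖g w‖ₑ ^ 4 ∂μ ≤ ENNReal.ofReal (μ.real univ * M ^ 4)) :
    ∫⁻ w, ‖g w‖ₑ ∂μ ≤ ENNReal.ofReal (μ.real univ * M) := by
  set A := μ.real univ with hA
  have hA0 : 0 ≤ A := measureReal_nonneg
  have hAe : μ univ = ENNReal.ofReal A := by
    rw [hA, measureReal_def, ENNReal.ofReal_toReal (measure_ne_top _ _)]
  have h1 := ENNReal.lintegral_mul_norm_pow_le (μ := μ) (f := fun _ => (1 : ℝ≥0∞))
    (g := fun w => ‖g w‖ₑ ^ 4) aemeasurable_const (hg.enorm.pow_const 4)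
    (by norm_num : (0 : ℝ) ≤ 3 / 4) (by norm_num : (0 : ℝ) ≤ 1 / 4) (by norm_num)
  simp only [ENNReal.one_rpow, one_mul, lintegral_const] at h1
  have h2 : ∫⁻ w, ‖g w‖ₑ ∂μ = ∫⁻ w, (‖g w‖ₑ ^ 4) ^ (1 / 4 : ℝ) ∂μ := by
    refine lintegral_congr fun w => ?_
    rw [← ENNReal.rpow_natCast, ← ENNReal.rpow_mul]
    norm_num
  rw [h2]
  refine h1.trans ?_
  calc _ ≤ (ENNReal.ofReal A) ^ (3 / 4 : ℝ) * (ENNReal.ofReal (A * M ^ 4)) ^ (1 / 4 : ℝ) := by
        rw [hAe]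
        gcongr
    _ = ENNReal.ofReal (A * M) := by
        rw [ENNReal.ofReal_rpow_of_nonneg hA0 (by norm_num),
          ENNReal.ofReal_rpow_of_nonneg (by positivity) (by norm_num),
          ← ENNReal.ofReal_mul (by positivity), Real.mul_rpow hA0 (by positivity),
          ← Real.rpow_natCast, ← Real.rpow_mul hM, ← mul_assoc]
        congr 2
        · rcases hA0.eq_or_lt with h0 | h0
          · rw [← h0, Real.zero_rpow (by norm_num), zero_mul]
          · rw [← Real.rpow_add h0]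
            norm_num
        · norm_num

/-- **The estimate for boundary functions of pluriharmonic functions**, all exponents. -/
theorem bdry_q (m : ℕ) (hm : 2 ≤ m) (q : ℝ) (hq : 4 * (m : ℝ) / (2 * m - 1) < q) :
    ∃ C : ℝ, 0 < C ∧
    ∀ (J : E (2 * m) →ₗᵢ[ℝ] E (2 * m)), (∀ x, J (J x) = -x) →
    ∀ (F G : E (2 * m) → ℂ), Hol J 1 F → Hol J 1 G → ∀ M : ℝ, 0 ≤ M →
    (∀ s : ℝ, 0 < s → s < 1 → ⨍ x : sphere (0 : E (2 * m)) 1,
      ‖F (s • (x : E (2 * m))) + conj (G (s • (x : E (2 * m))))‖ ^ 4 ∂(sig (2 * m)) ≤ M ^ 4) →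
    ∀ g : sphere (0 : E (2 * m)) 1 → ℂ,
    (∀ᵐ x : sphere (0 : E (2 * m)) 1 ∂(sig (2 * m)), Tendsto (fun s : ℝ =>
      F (s • (x : E (2 * m))) + conj (G (s • (x : E (2 * m))))) (𝓝[<] 1) (𝓝 (g x))) →
    AEStronglyMeasurable g (sig (2 * m)) ∧
    (∫⁻ x, ‖g x‖ₑ ∂(sig (2 * m)) ≤ ENNReal.ofReal ((sig (2 * m)).real univ * M)) ∧
    Measurable (sft g) ∧ ∫⁻ ξ, ‖sft g ξ‖ₑ ^ q ≤ ENNReal.ofReal (C * M ^ q) := by
  have hm' : (2 : ℝ) ≤ m := by exact_mod_cast hm
  have hlt4 : 4 * (m : ℝ) / (2 * m - 1) < 4 := by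
    rw [div_lt_iff₀ (by linarith)]
    linarith
  have hlt2 : 2 < 4 * (m : ℝ) / (2 * m - 1) := by
    rw [lt_div_iff₀ (by linarith)]
    linarith
  obtain ⟨p, hp1, hp2⟩ := exists_between (lt_min hq hlt4)
  have hpq : p < q := lt_of_lt_of_le hp2 (min_le_left _ _)
  have hp4 : p < 4 := lt_of_lt_of_le hp2 (min_le_right _ _)
  obtain ⟨C, hC, h⟩ := bdry_p m hm p hp1 hp4
  have hsf : IsFiniteMeasure (sig (2 * m)) := by
    unfold sig
    infer_instance
  set A := (sig (2 * m)).real univ with hA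
  have hA0 : 0 ≤ A := measureReal_nonneg
  refine ⟨(A + 1) ^ (q - p) * (C * ((A + 1) ^ (1 / 4 : ℝ)) ^ p), by positivity, ?_⟩
  intro J hJ F G hF hG M hM0 hM g hg
  have hM' : ∀ s : ℝ, 0 < s → s < 1 → ∫ x : sphere (0 : E (2 * m)) 1,
      ‖F (s • (x : E (2 * m))) + conj (G (s • (x : E (2 * m))))‖ ^ 4 ∂(sig (2 * m)) ≤
        (A ^ (1 / 4 : ℝ) * M) ^ 4 := by
    intro s hs hs1
    have h1 := hM s hs hs1
    rw [average_eq, smul_eq_mul] at h1
    have h2 : (A ^ (1 / 4 : ℝ) * M) ^ 4 = A * M ^ 4 := by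
      rw [mul_pow]
      congr 1
      rw [← Real.rpow_natCast, ← Real.rpow_mul hA0]
      norm_num
    rw [h2]
    rcases hA0.eq_or_lt with h0 | h0
    · have h3 : sig (2 * m) = 0 := by
        rw [← Measure.measure_univ_eq_zero]
        have h4 : (sig (2 * m)).real univ = 0 := by rw [← hA, ← h0]
        rwa [measureReal_eq_zero_iff] at h4
      rw [h3, integral_zero_measure, ← h0, zero_mul]
    · rwa [inv_mul_le_iff₀ h0] at h1
  obtain ⟨k1, k2, k3, k4⟩ := h J hJ F G hF hG (A ^ (1 / 4 : ℝ) * M) (by positivity) hM' g hg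
  have k2' : ∫⁻ x, ‖g x‖ₑ ^ 4 ∂(sig (2 * m)) ≤ ENNReal.ofReal (A * M ^ 4) := by
    refine k2.trans (le_of_eq ?_)
    congr 1
    rw [mul_pow]
    congr 1
    rw [← Real.rpow_natCast, ← Real.rpow_mul hA0]
    norm_num
  have k5 := holder14 (sig (2 * m)) g k1 M hM0 k2'
  refine ⟨k1, k5, k3, ?_⟩
  have hen : ∀ (ξ : E (2 * m)) (x : sphere (0 : E (2 * m)) 1),
      ‖Complex.exp (-(2 * Real.pi * ⟪(x : E (2 * m)), ξ⟫ : ℝ) * I)‖ = 1 := by
    intro ξ x
    have h3 : -(((2 * Real.pi * ⟪(x : E (2 * m)), ξ⟫ : ℝ)) : ℂ) * I =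
        ((-(2 * Real.pi * ⟪(x : E (2 * m)), ξ⟫) : ℝ) : ℂ) * I := by push_cast; ring
    rw [h3, Complex.norm_exp_ofReal_mul_I]
  have hsup : ∀ ξ, ‖sft g ξ‖ₑ ≤ ENNReal.ofReal (A * M) := by
    intro ξ
    unfold sft
    refine (enorm_integral_le_lintegral_enorm _).trans (le_trans (le_of_eq ?_) k5)
    refine lintegral_congr fun x => ?_
    rw [enorm_mul, ← ofReal_norm (Complex.exp _), hen, ENNReal.ofReal_one, one_mul]
  calc ∫⁻ ξ, ‖sft g ξ‖ₑ ^ q ≤ ∫⁻ ξ, (ENNReal.ofReal (A * M)) ^ (q - p) * ‖sft g ξ‖ₑ ^ p := by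
        refine lintegral_mono fun ξ => ?_
        simp only
        rw [show q = (q - p) + p by ring, ENNReal.rpow_add_of_nonneg _ _ (by linarith)
          (by linarith)]
        have := ENNReal.rpow_le_rpow (hsup ξ) (by linarith : 0 ≤ q - p)
        rw [show q - p + p - p = q - p by ring]
        gcongr
    _ = (ENNReal.ofReal (A * M)) ^ (q - p) * ∫⁻ ξ, ‖sft g ξ‖ₑ ^ p :=
        lintegral_const_mul' _ _ (ENNReal.rpow_ne_top_of_nonneg (by linarith)
          ENNReal.ofReal_ne_top)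
    _ ≤ (ENNReal.ofReal (A * M)) ^ (q - p) *
        ENNReal.ofReal (C * (A ^ (1 / 4 : ℝ) * M) ^ p) := by gcongr
    _ ≤ _ := by
        rw [ENNReal.ofReal_rpow_of_nonneg (by positivity) (by linarith),
          ← ENNReal.ofReal_mul (by positivity)]
        apply ENNReal.ofReal_le_ofReal
        have e1 : M ^ q = M ^ (q - p) * M ^ p := by
          rw [← Real.rpow_add_of_nonneg hM0 (by linarith) (by linarith)]
          congr 1
          ring
        rw [Real.mul_rpow hA0 hM0, Real.mul_rpow (by positivity) hM0, e1]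
        have e2 : A ^ (q - p) ≤ (A + 1) ^ (q - p) :=
          Real.rpow_le_rpow hA0 (by linarith) (by linarith)
        have e3 : (A ^ (1 / 4 : ℝ)) ^ p ≤ ((A + 1) ^ (1 / 4 : ℝ)) ^ p :=
          Real.rpow_le_rpow (by positivity) (Real.rpow_le_rpow hA0 (by linarith) (by norm_num))
            (by linarith)
        calc A ^ (q - p) * M ^ (q - p) * (C * ((A ^ (1 / 4 : ℝ)) ^ p * M ^ p))
            ≤ (A + 1) ^ (q - p) * M ^ (q - p) * (C * (((A + 1) ^ (1 / 4 : ℝ)) ^ p * M ^ p)) := by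
              gcongr
          _ = _ := by ring

end Pool.Agent.Y251.HR
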